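import Pool.Agent.H207.TF.Stm
import Pool.Agent.H211.AD.RFin

/-! Project TF: one-parameter families. -/

set_option autoImplicit false

open Metric Set MeasureTheory Filter Topology Polynomial
open scoped OnePoint ENNReal

namespace Pool.Agent.H207.TF

open Pool.Agent.Helper114.Herman
open Pool.Agent.H792R2.CE Pool.Agent.H792R2
open Pool.Agent.H211.LR Pool.Agent.H211.AD

/-- coprimality and degree are stable -/
theorem cop_open {d : ℕ} (hd : 0 < d) {x₀ : EE d} (hc : IsCoprime (PP x₀) (QQ x₀))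
    (hQd : (QQ x₀).natDegree = d) :
    ∀ᶠ x : EE d in 𝓝 x₀, IsCoprime (PP x) (QQ x) ∧ (QQ x).natDegree = d := by
  have htop : x₀ (1, Fin.last d) ≠ 0 := (QQ_deg_iff hd x₀).1 hQd
  have e1 : ∀ᶠ x : EE d in 𝓝 x₀, x (1, Fin.last d) ≠ 0 :=
    (continuous_apply (1, Fin.last d)).continuousAt.eventually_ne htop
  have hemb : ∀ z₀ : ℂ, ∀ R : EE d × OnePoint ℂ → Prop,
      (∀ᶠ p : EE d × ℂ in 𝓝 (x₀, z₀), R (p.1, (p.2 : OnePoint ℂ))) →
      ∀ᶠ p : EE d × OnePoint ℂ in 𝓝 (x₀, (z₀ : OnePoint ℂ)), R p := by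
    intro z₀ R hR
    have h4 : IsOpenEmbedding (Prod.map (id : EE d → EE d) (fun w : ℂ => (w : OnePoint ℂ))) :=
      IsOpenEmbedding.id.prodMap OnePoint.isOpenEmbedding_coe
    have h5 : Prod.map (id : EE d → EE d) (fun w : ℂ => (w : OnePoint ℂ)) (x₀, z₀) =
        (x₀, (z₀ : OnePoint ℂ)) := rfl
    rw [← h5, ← h4.map_nhds_eq, Filter.eventually_map]
    exact hR
  have e2 : ∀ y : OnePoint ℂ, ∀ᶠ p : EE d × OnePoint ℂ in 𝓝 (x₀, y),
      ∀ z : ℂ, p.2 = (z : OnePoint ℂ) → (PP p.1).eval z ≠ 0 ∨ (QQ p.1).eval z ≠ 0 := by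
    intro y
    induction y using OnePoint.rec with
    | infty =>
      filter_upwards [den_infty htop] with p hp z hz
      exact Or.inr (hp z hz)
    | coe z₀ =>
      apply hemb
      rcases coprime_iff.1 hc z₀ with h | h
      · have h1 : ∀ᶠ p : EE d × ℂ in 𝓝 (x₀, z₀), (PP p.1).eval p.2 ≠ 0 :=
          PP_cd.continuous.continuousAt.eventually_ne h
        filter_upwards [h1] with p hp z hz
        rw [← OnePoint.coe_injective hz]
        exact Or.inl hp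
      · have h1 : ∀ᶠ p : EE d × ℂ in 𝓝 (x₀, z₀), (QQ p.1).eval p.2 ≠ 0 :=
          QQ_cd.continuous.continuousAt.eventually_ne h
        filter_upwards [h1] with p hp z hz
        rw [← OnePoint.coe_injective hz]
        exact Or.inr hp
  have e4 := (isCompact_univ : IsCompact (univ : Set (OnePoint ℂ))).eventually_forall_of_forall_eventually
    (x₀ := x₀) (P := fun x y => ∀ z : ℂ, y = (z : OnePoint ℂ) →
      (PP x).eval z ≠ 0 ∨ (QQ x).eval z ≠ 0) (fun y _ => e2 y)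
  filter_upwards [e1, e4] with x h1 h2
  exact ⟨coprime_iff.2 fun z => h2 z (mem_univ _) z rfl, (QQ_deg_iff hd x).2 h1⟩

theorem PP_coeff {d : ℕ} (x : EE d) (i : ℕ) :
    (PP x).coeff i = if h : i < d + 1 then x (0, ⟨i, h⟩) else 0 := by
  unfold PP
  rw [Pool.Agent.H211.LD.pol_coeff]

theorem QQ_coeff {d : ℕ} (x : EE d) (i : ℕ) :
    (QQ x).coeff i = if h : i < d + 1 then x (1, ⟨i, h⟩) else 0 := by
  unfold QQ
  rw [Pool.Agent.H211.LD.pol_coeff]

theorem PP_coeff_diff {d : ℕ} {p : ℂ → EE d} {s : ℂ} (hp : DifferentiableAt ℂ p s) (i : ℕ) :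
    DifferentiableAt ℂ (fun t => (PP (p t)).coeff i) s := by
  simp only [PP_coeff]
  split_ifs with h
  · exact differentiableAt_pi.1 hp _
  · exact differentiableAt_const _

theorem QQ_coeff_diff {d : ℕ} {p : ℂ → EE d} {s : ℂ} (hp : DifferentiableAt ℂ p s) (i : ℕ) :
    DifferentiableAt ℂ (fun t => (QQ (p t)).coeff i) s := by
  simp only [QQ_coeff]
  split_ifs with h
  · exact differentiableAt_pi.1 hp _
  · exact differentiableAt_const _

theorem wr_coeff_diff {d : ℕ} {p : ℂ → EE d} {s : ℂ} (hp : DifferentiableAt ℂ p s) (i : ℕ) :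
    DifferentiableAt ℂ (fun t => (wr (PP (p t)) (QQ (p t))).coeff i) s := by
  unfold wr
  simp only [coeff_sub, coeff_mul, coeff_derivative]
  refine DifferentiableAt.sub ?_ ?_
  · refine DifferentiableAt.fun_sum fun x _ => ?_
    exact ((PP_coeff_diff hp _).mul (differentiableAt_const _)).mul (QQ_coeff_diff hp _)
  · refine DifferentiableAt.fun_sum fun x _ => ?_
    exact (PP_coeff_diff hp _).mul ((QQ_coeff_diff hp _).mul (differentiableAt_const _))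

/-- **One-parameter families.** -/
theorem core (hPU : S_PUIS) (hIN : S_INSTG) {d : ℕ} (hd : 2 ≤ d) {p : ℂ → EE d} {v : EE d}
    {ρ : ℝ} (hρ : 0 < ρ) (hpd : ∀ s, ‖s‖ < ρ → DifferentiableAt ℂ p s)
    (hpv : HasDerivAt p v 0) {P Q : ℂ[X]} (hP : PP (p 0) = P) (hQ : QQ (p 0) = Q)
    (hPQ : IsCoprime P Q) (hQd : Q.natDegree = d) (hinf : Att d P Q ∞)
    (hCE : ∀ c : ℂ, (wr P Q).eval c = 0 → Att d P Q (c : OnePoint ℂ) ∨
      ∃ μ : ℝ, 1 < μ ∧ ∀ᶠ n : ℕ in atTop, μ ^ n ≤ ‖deriv ((rf P Q)^[n]) (rf P Q c)‖)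
    (htr : ∀ c : ℂ, (wr P Q).eval c = 0 → ¬ Att d P Q (c : OnePoint ℂ) →
      Summable (term P Q (varS (p 0) v) c) ∧ ∑' j, term P Q (varS (p 0) v) c j ≠ 0) :
    Rate fun r => volume {s : ℂ | ‖s‖ < r ∧ p s ∈ rbad d} := by
  classical
  have hPd : P.natDegree ≤ d := hP ▸ PP_deg _
  obtain ⟨Cr, ℓ, δ₀, Cp, rp, c₀, μ, hS, hCr⟩ := rsys Pool.Agent.H720.AD211.t_POW
    Pool.Agent.H401.AD211.RBACK.t_RBACK Pool.Agent.H97.AD211.t_RLIFT a_RLATE hd hPQ hPd hQd hinf hCE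
  have hd0 : 0 < d := by omega
  have hcont : Continuous (sph d P Q) := B1_continuous hPQ hPd hQd
  have hN : wr P Q ≠ 0 := wr_ne_zero hd0 hPQ hQd
  obtain ⟨Ks, hKs⟩ : ∃ Ks : Set ℂ, Ks = {z : ℂ | ¬ Att d P Q (z : OnePoint ℂ)} := ⟨_, rfl⟩
  have hKc : IsCompact Ks := by rw [hKs]; exact natt_compact hd0 hPQ hPd hQd hinf
  have hstay : ∀ z ∈ Ks, ∀ n, (rf P Q)^[n] z ∈ Ks ∧ Q.eval ((rf P Q)^[n] z) ≠ 0 := by
    rw [hKs]; exact fun z hz n => natt_iter hcont hinf hz n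
  have hKQ : ∀ z ∈ Ks, Q.eval z ≠ 0 := fun z hz => by
    have := (hstay z hz 0).2
    simpa using this
  have hmemK : ∀ z : ℂ, z ∈ Ks ↔ ¬ Att d P Q (z : OnePoint ℂ) := fun z => by rw [hKs]; rfl
  have hRK : RK d P Q = Ks := by rw [hKs]; rfl
  rw [hRK] at hS
  have hnd : ND (p 0) := nd_of_coprime hd0 (by rw [hP, hQ]; exact hPQ) (by rw [hQ]; exact hQd)
  -- the critical points
  obtain ⟨K, hK, n, ζ, ε, hε, hζ, hloc⟩ := hPU (2 * d) (fun s => wr (PP (p s)) (QQ (p s))) ρ hρ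
    (fun s _ => D1x.natDegree_wr_le (PP_deg _) (QQ_deg _))
    (fun i s hs => wr_coeff_diff (hpd s hs) i) (by rw [hP, hQ]; exact hN)
  have hK0 : K ≠ 0 := by omega
  have hpow : Tendsto (fun a : ℂ => a ^ K) (𝓝 0) (𝓝 0) := by
    have h1 : Tendsto (fun a : ℂ => a ^ K) (𝓝 0) (𝓝 (0 ^ K)) :=
      Continuous.tendsto (by fun_prop) 0
    rwa [zero_pow hK0] at h1
  have hpc : ContinuousAt p 0 := hpv.continuousAt
  have hpK : Tendsto (fun a : ℂ => p (a ^ K)) (𝓝 0) (𝓝 (p 0)) := hpc.tendsto.comp hpow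
  have hpair : ∀ x : OnePoint ℂ, Tendsto (fun q : ℂ × OnePoint ℂ => (p (q.1 ^ K), q.2))
      (𝓝 (0, x)) (𝓝 (p 0, x)) := by
    intro x
    rw [nhds_prod_eq, nhds_prod_eq]
    exact hpK.prodMap tendsto_id
  have hpair' : ∀ x : ℂ, Tendsto (fun q : ℂ × ℂ => (p (q.1 ^ K), q.2))
      (𝓝 (0, x)) (𝓝 (p 0, x)) := by
    intro x
    rw [nhds_prod_eq, nhds_prod_eq]
    exact hpK.prodMap tendsto_id
  have hst : ∀ x : OnePoint ℂ, Att d P Q x → ∀ᶠ q : ℂ × OnePoint ℂ in 𝓝 (0, x),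
      Att d (PP (p (q.1 ^ K))) (QQ (p (q.1 ^ K))) q.2 := by
    intro x hx
    have h1 := attE_stable (x₀ := p 0) hnd (y := x) (by rw [hP, hQ]; exact hx)
    exact (hpair x).eventually h1
  have hcop : ∀ᶠ a : ℂ in 𝓝 0, IsCoprime (PP (p (a ^ K))) (QQ (p (a ^ K))) ∧
      (QQ (p (a ^ K))).natDegree = d :=
    hpK.eventually (cop_open hd0 (by rw [hP, hQ]; exact hPQ) (by rw [hQ]; exact hQd))
  obtain ⟨η₀, hη₀, hη₀s⟩ := Metric.mem_nhds_iff.1 hcop
  have hcop' : ∀ a : ℂ, ‖a‖ < η₀ → IsCoprime (PP (p (a ^ K))) (QQ (p (a ^ K))) ∧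
      (QQ (p (a ^ K))).natDegree = d := fun a ha => hη₀s (mem_ball_zero_iff.2 ha)
  -- uniform attraction
  have hstab2 : ∀ ε > (0 : ℝ), ∃ r > (0 : ℝ), ∀ a : ℂ, ‖a‖ < r → ∀ z : ℂ, z ∉ cthickening ε Ks →
      Att d (PP (p (a ^ K))) (QQ (p (a ^ K))) (z : OnePoint ℂ) := by
    intro ε hε
    have hLo : IsOpen ((OnePoint.some : ℂ → OnePoint ℂ) '' thickening ε Ks) :=
      OnePoint.isOpenEmbedding_coe.isOpenMap _ isOpen_thickening
    have hLc : IsCompact (((OnePoint.some : ℂ → OnePoint ℂ) '' thickening ε Ks)ᶜ) :=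
      hLo.isClosed_compl.isCompact
    have h1 : ∀ᶠ a : ℂ in 𝓝 0, ∀ x ∈ ((OnePoint.some : ℂ → OnePoint ℂ) '' thickening ε Ks)ᶜ,
        Att d (PP (p (a ^ K))) (QQ (p (a ^ K))) x := by
      refine hLc.eventually_forall_of_forall_eventually fun x hx => ?_
      refine hst x ?_
      by_contra h
      apply hx
      induction x using OnePoint.rec with
      | infty => exact absurd hinf h
      | coe z => exact ⟨z, self_subset_thickening hε _ ((hmemK z).2 h), rfl⟩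
    obtain ⟨r, hr, hrs⟩ := Metric.mem_nhds_iff.1 h1
    refine ⟨r, hr, fun a ha z hz => hrs (mem_ball_zero_iff.2 ha) (z : OnePoint ℂ) ?_⟩
    rintro ⟨z', hz', he⟩
    rw [OnePoint.coe_injective he] at hz'
    exact hz (thickening_subset_cthickening _ _ hz')
  -- the estimates
  have hz0 : ∀ i, (wr P Q).eval (ζ i 0) = 0 := by
    intro i
    have h1 := (hζ i 0 (by simpa using hε)).2.2
    simp only [zero_pow hK0] at h1
    rwa [hP, hQ] at h1
  let ι := {i : Fin n // ζ i 0 ∈ Ks}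
  have hrate : ∀ i : ι, Rate fun σ => volume {a : ℂ | ‖a‖ ≤ σ ∧
      ¬ Att d (PP (p (a ^ K))) (QQ (p (a ^ K))) ((ζ i.1 a : ℂ) : OnePoint ℂ)} := by
    intro i
    have hzK := i.2
    have hA := (hmemK _).1 hzK
    have hc : ζ i.1 0 ∈ Cr := (hCr _).2 ⟨hz0 i.1, hA⟩
    have hmin : 0 < min ε η₀ := lt_min hε hη₀
    have h5 := hIN d p v ρ hρ hpd hpv Ks hKc (by rw [hQ]; exact hKQ)
      (by rw [hP, hQ]; exact fun z hz => (hstay z hz 1).1) K hK
      (fun a z => Att d (PP (p (a ^ K))) (QQ (p (a ^ K))) ((z : ℂ) : OnePoint ℂ)) (min ε η₀) hmin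
      (by
        intro a z ha hz h
        obtain ⟨h1, h3⟩ := hcop' a (ha.trans_le (min_le_right _ _))
        apply C2_step (B1_continuous h1 (PP_deg _) h3)
        rw [sph_coe_of_ne hz]
        exact h)
      hstab2 (ζ i.1 0) hzK (by rw [hP, hQ]; exact hN) (ζ i.1) rfl
      (fun a ha => (hζ i.1 a (ha.trans_le (min_le_left _ _))).2.1)
      (fun a ha => (hζ i.1 a (ha.trans_le (min_le_left _ _))).2.2)
      (by rw [hP, hQ]; exact (htr _ (hz0 i.1) hA).1) (by rw [hP, hQ]; exact (htr _ (hz0 i.1) hA).2)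
    obtain ⟨ρ₁, δ₁, C₁, C₃, hF, hM⟩ := h5
    rw [hP, hQ] at hF hM
    exact main_abs a_R1 a_R2 Pool.Agent.H332.AD211.t_DEC a_BASE a_LAND a_STEP a_FIRST hS (null_K hS)
      hF hc hM
  -- every point is fine for small parameters
  have hall : ∀ᶠ a : ℂ in 𝓝 0, ∀ x ∈ (Set.univ : Set (OnePoint ℂ)),
      Att d (PP (p (a ^ K))) (QQ (p (a ^ K))) x ∨
      (∃ z : ℂ, x = (z : OnePoint ℂ) ∧
        (wr (PP (p (a ^ K))) (QQ (p (a ^ K)))).eval z ≠ 0) ∨
      ∃ i : ι, x = ((ζ i.1 a : ℂ) : OnePoint ℂ) := by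
    refine isCompact_univ.eventually_forall_of_forall_eventually fun x _ => ?_
    by_cases hx : Att d P Q x
    · filter_upwards [hst x hx] with q hq
      exact Or.inl hq
    · induction x using OnePoint.rec with
      | infty => exact absurd hinf hx
      | coe z =>
        have hzK : z ∈ Ks := (hmemK z).2 hx
        have hemb : Topology.IsOpenEmbedding
            (fun p : ℂ × ℂ => ((p.1, (p.2 : OnePoint ℂ)) : ℂ × OnePoint ℂ)) :=
          Topology.IsOpenEmbedding.id.prodMap OnePoint.isOpenEmbedding_coe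
        have hmap : 𝓝 (((0 : ℂ), (z : OnePoint ℂ)) : ℂ × OnePoint ℂ) =
            Filter.map (fun p : ℂ × ℂ => ((p.1, (p.2 : OnePoint ℂ)) : ℂ × OnePoint ℂ))
              (𝓝 (0, z)) := (hemb.map_nhds_eq (0, z)).symm
        rw [hmap, Filter.eventually_map]
        obtain ⟨η, hη, hηz⟩ := hloc z
        have hnear : ∀ᶠ q : ℂ × ℂ in 𝓝 (0, z), ‖q.1‖ < η ∧ ‖q.2 - z‖ < η := by
          refine Eventually.and ?_ ?_
          · have h1 : Continuous (fun q : ℂ × ℂ => ‖q.1‖) := by fun_prop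
            have h2 : ‖(((0 : ℂ), z) : ℂ × ℂ).1‖ < η := by simpa using hη
            exact (h1.tendsto ((0 : ℂ), z)).eventually (Iio_mem_nhds h2)
          · have h1 : Continuous (fun q : ℂ × ℂ => ‖q.2 - z‖) := by fun_prop
            have h2 : ‖(((0 : ℂ), z) : ℂ × ℂ).2 - z‖ < η := by simpa using hη
            exact (h1.tendsto ((0 : ℂ), z)).eventually (Iio_mem_nhds h2)
        filter_upwards [hnear] with q hq
        by_cases hw : (wr (PP (p (q.1 ^ K))) (QQ (p (q.1 ^ K)))).eval q.2 = 0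
        · right; right
          obtain ⟨i, hi1, hi2⟩ := hηz q.1 q.2 hq.1 hq.2 hw
          exact ⟨⟨i, by rw [hi1]; exact hzK⟩, by rw [← hi2]⟩
        · right; left
          exact ⟨q.2, rfl, hw⟩
  have hinfev2 : ∀ᶠ a : ℂ in 𝓝 0, Att d (PP (p (a ^ K))) (QQ (p (a ^ K))) ∞ := by
    have h2 : Tendsto (fun a : ℂ => ((a, ∞) : ℂ × OnePoint ℂ)) (𝓝 0) (𝓝 (0, ∞)) := by
      have : Continuous (fun a : ℂ => ((a, ∞) : ℂ × OnePoint ℂ)) := by fun_prop
      exact this.tendsto 0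
    exact h2.eventually (hst ∞ hinf)
  obtain ⟨δ, hδ, hδs⟩ := Metric.mem_nhds_iff.1 (hall.and hinfev2)
  refine push hK hrate (S := fun s => p s ∈ rbad d) (lt_min hδ hη₀) ?_
  intro a ha hGs
  have haδ : ‖a‖ < δ := ha.trans_le (min_le_left _ _)
  have haρ : ‖a‖ < η₀ := ha.trans_le (min_le_right _ _)
  obtain ⟨ha1, ha2⟩ := hδs (mem_ball_zero_iff.2 haδ)
  by_contra hcon
  push Not at hcon
  apply hGs
  obtain ⟨h1, h3⟩ := hcop' a haρ
  refine ⟨h1, PP_deg _, h3, ha2, fun z hz => ?_⟩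
  rcases ha1 (z : OnePoint ℂ) (Set.mem_univ _) with h | ⟨z', hz', h⟩ | ⟨i, h⟩
  · exact h
  · rw [OnePoint.coe_injective hz'] at hz
    exact absurd hz h
  · rw [h]
    exact hcon i

end Pool.Agent.H207.TF
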