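import Pool.Agent.H207.TF.Weak

/-! Project TF: one-parameter families, weakly expanding maps. -/

set_option autoImplicit false

open Metric Set MeasureTheory Filter Topology Polynomial
open scoped OnePoint ENNReal

namespace Pool.Agent.H207.TF

open Pool.Agent.Helper114.Herman
open Pool.Agent.H792R2.CE Pool.Agent.H792R2
open Pool.Agent.H211.LR Pool.Agent.H211.AD
open Pool.Agent.H211.LD

/-- a positive number below finitely many positive numbers -/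
theorem exists_below {ι : Type*} [Finite ι] (x : ι → ℝ) (hx : ∀ i, 0 < x i) (y : ℝ) (hy : 0 < y) :
    ∃ z : ℝ, 0 < z ∧ z ≤ y ∧ ∀ i, z ≤ x i := by
  have h1 : ∀ x : ℝ, 0 < x → ∀ᶠ y : ℝ in 𝓝[>] 0, y ≤ x := by
    intro x hx
    have h2 : ∀ᶠ y : ℝ in 𝓝 0, y < x := Iio_mem_nhds hx
    filter_upwards [h2.filter_mono nhdsWithin_le_nhds] with y hy using hy.le
  have h3 : ∀ᶠ y : ℝ in 𝓝[>] 0, ∀ i, y ≤ x i := by
    rw [Filter.eventually_all]
    exact fun i => h1 _ (hx i)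
  obtain ⟨z, h4, h5, h6⟩ := ((h1 y hy).and (h3.and self_mem_nhdsWithin)).exists
  exact ⟨z, h6, h4, h5⟩

/-- **One-parameter families, weakly expanding maps.** -/
theorem coreW (hPU : S_PUIS) (hIN : S_INSTG) {d : ℕ} (hd : 2 ≤ d) {p : ℂ → EE d} {v : EE d}
    {ρ : ℝ} (hρ : 0 < ρ) (hpd : ∀ s, ‖s‖ < ρ → DifferentiableAt ℂ p s)
    (hpv : HasDerivAt p v 0) {P Q : ℂ[X]} (hP : PP (p 0) = P) (hQ : QQ (p 0) = Q)
    (hPQ : IsCoprime P Q) (hQd : Q.natDegree = d) (hinf : Att d P Q ∞)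
    (hnull : volume {z : ℂ | ¬ Att d P Q (z : OnePoint ℂ)} = 0) {μ : ℝ} (hμ : 1 < μ)
    (hexp : ∃ᶠ n : ℕ in atTop, GrR d P Q μ n)
    (htr : ∀ c : ℂ, (wr P Q).eval c = 0 → ¬ Att d P Q (c : OnePoint ℂ) →
      Summable (term P Q (varS (p 0) v) c) ∧ ∑' j, term P Q (varS (p 0) v) c j ≠ 0) :
    ∃ q : ℕ, 0 < q ∧ ∀ N' ≥ q, ∀ ε η : ℝ, 0 < ε → 0 < η → ∃ N₀, ∀ n ≥ N₀, GrR d P Q μ n →
      (cnt (fun k => ¬ volume {s : ℂ | ‖s‖ < (1 / 2) ^ (k + 1) ∧ p s ∈ rbad d} ≤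
        ENNReal.ofReal (ε * ((1 / 2) ^ (k + 1)) ^ 2)) (n / N') : ℝ) ≤ η * (n / N' : ℕ) := by
  classical
  have hPd : P.natDegree ≤ d := hP ▸ PP_deg _
  have hd0 : 0 < d := by omega
  have hcont : Continuous (sph d P Q) := B1_continuous hPQ hPd hQd
  have hN : wr P Q ≠ 0 := wr_ne_zero hd0 hPQ hQd
  obtain ⟨Ks, hKs⟩ : ∃ Ks : Set ℂ, Ks = {z : ℂ | ¬ Att d P Q (z : OnePoint ℂ)} := ⟨_, rfl⟩
  have hKc : IsCompact Ks := by rw [hKs]; exact natt_compact hd0 hPQ hPd hQd hinf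
  have hstay : ∀ z ∈ Ks, ∀ n, (rf P Q)^[n] z ∈ Ks ∧ Q.eval ((rf P Q)^[n] z) ≠ 0 := by
    rw [hKs]; exact fun z hz n => natt_iter hcont hinf hz n
  have hKQ : ∀ z ∈ Ks, Q.eval z ≠ 0 := fun z hz => by
    have := (hstay z hz 0).2
    simpa using this
  have hmemK : ∀ z : ℂ, z ∈ Ks ↔ ¬ Att d P Q (z : OnePoint ℂ) := fun z => by rw [hKs]; rfl
  have hnd : ND (p 0) := nd_of_coprime hd0 (by rw [hP, hQ]; exact hPQ) (by rw [hQ]; exact hQd)
  -- the critical points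
  obtain ⟨K, hK, n, ζ, ε, hε, hζ, hloc⟩ := hPU (2 * d) (fun s => wr (PP (p s)) (QQ (p s))) ρ hρ
    (fun s _ => D1x.natDegree_wr_le (PP_deg _) (QQ_deg _))
    (fun i s hs => wr_coeff_diff (hpd s hs) i) (by rw [hP, hQ]; exact hN)
  have hK0 : K ≠ 0 := by omega
  have hpow : Tendsto (fun a : ℂ => a ^ K) (𝓝 0) (𝓝 0) := by
    have h1 : Tendsto (fun a : ℂ => a ^ K) (𝓝 0) (𝓝 (0 ^ K)) :=
      Continuous.tendsto (by fun_prop) 0
    rwa [zero_pow hK0] at h1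
  have hpc : ContinuousAt p 0 := hpv.continuousAt
  have hpK : Tendsto (fun a : ℂ => p (a ^ K)) (𝓝 0) (𝓝 (p 0)) := hpc.tendsto.comp hpow
  have hpair : ∀ x : OnePoint ℂ, Tendsto (fun q : ℂ × OnePoint ℂ => (p (q.1 ^ K), q.2))
      (𝓝 (0, x)) (𝓝 (p 0, x)) := by
    intro x
    rw [nhds_prod_eq, nhds_prod_eq]
    exact hpK.prodMap tendsto_id
  have hpair' : ∀ x : ℂ, Tendsto (fun q : ℂ × ℂ => (p (q.1 ^ K), q.2))
      (𝓝 (0, x)) (𝓝 (p 0, x)) := by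
    intro x
    rw [nhds_prod_eq, nhds_prod_eq]
    exact hpK.prodMap tendsto_id
  have hst : ∀ x : OnePoint ℂ, Att d P Q x → ∀ᶠ q : ℂ × OnePoint ℂ in 𝓝 (0, x),
      Att d (PP (p (q.1 ^ K))) (QQ (p (q.1 ^ K))) q.2 := by
    intro x hx
    have h1 := attE_stable (x₀ := p 0) hnd (y := x) (by rw [hP, hQ]; exact hx)
    exact (hpair x).eventually h1
  have hcop : ∀ᶠ a : ℂ in 𝓝 0, IsCoprime (PP (p (a ^ K))) (QQ (p (a ^ K))) ∧
      (QQ (p (a ^ K))).natDegree = d :=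
    hpK.eventually (cop_open hd0 (by rw [hP, hQ]; exact hPQ) (by rw [hQ]; exact hQd))
  obtain ⟨η₀, hη₀, hη₀s⟩ := Metric.mem_nhds_iff.1 hcop
  have hcop' : ∀ a : ℂ, ‖a‖ < η₀ → IsCoprime (PP (p (a ^ K))) (QQ (p (a ^ K))) ∧
      (QQ (p (a ^ K))).natDegree = d := fun a ha => hη₀s (mem_ball_zero_iff.2 ha)
  -- uniform attraction
  have hstab2 : ∀ ε > (0 : ℝ), ∃ r > (0 : ℝ), ∀ a : ℂ, ‖a‖ < r → ∀ z : ℂ, z ∉ cthickening ε Ks →
      Att d (PP (p (a ^ K))) (QQ (p (a ^ K))) (z : OnePoint ℂ) := by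
    intro ε hε
    have hLo : IsOpen ((OnePoint.some : ℂ → OnePoint ℂ) '' thickening ε Ks) :=
      OnePoint.isOpenEmbedding_coe.isOpenMap _ isOpen_thickening
    have hLc : IsCompact (((OnePoint.some : ℂ → OnePoint ℂ) '' thickening ε Ks)ᶜ) :=
      hLo.isClosed_compl.isCompact
    have h1 : ∀ᶠ a : ℂ in 𝓝 0, ∀ x ∈ ((OnePoint.some : ℂ → OnePoint ℂ) '' thickening ε Ks)ᶜ,
        Att d (PP (p (a ^ K))) (QQ (p (a ^ K))) x := by
      refine hLc.eventually_forall_of_forall_eventually fun x hx => ?_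
      refine hst x ?_
      by_contra h
      apply hx
      induction x using OnePoint.rec with
      | infty => exact absurd hinf h
      | coe z => exact ⟨z, self_subset_thickening hε _ ((hmemK z).2 h), rfl⟩
    obtain ⟨r, hr, hrs⟩ := Metric.mem_nhds_iff.1 h1
    refine ⟨r, hr, fun a ha z hz => hrs (mem_ball_zero_iff.2 ha) (z : OnePoint ℂ) ?_⟩
    rintro ⟨z', hz', he⟩
    rw [OnePoint.coe_injective he] at hz'
    exact hz (thickening_subset_cthickening _ _ hz')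
  -- the estimates
  have hz0 : ∀ i, (wr P Q).eval (ζ i 0) = 0 := by
    intro i
    have h1 := (hζ i 0 (by simpa using hε)).2.2
    simp only [zero_pow hK0] at h1
    rwa [hP, hQ] at h1
  let ι := {i : Fin n // ζ i 0 ∈ Ks}
  have hinst : ∀ i : ι, ∃ ρ₁ δ₁ C₁ C₃ : ℝ,
      Fam (gam p K) (fun a z => Att d (PP (p (a ^ K))) (QQ (p (a ^ K))) ((z : ℂ) : OnePoint ℂ))
        (rf P Q) Ks K ρ₁ δ₁ C₁ ∧
      Mk (gam p K) (rf P Q) Ks K ρ₁ δ₁ (ζ i.1 0) (ζ i.1)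
        (fun z => (varS (p 0) v).eval z / Q.eval z ^ 2) C₃
        (∑' j, term P Q (varS (p 0) v) (ζ i.1 0) j) := by
    intro i
    have hzK := i.2
    have hA := (hmemK _).1 hzK
    have hmin : 0 < min ε η₀ := lt_min hε hη₀
    have h5 := hIN d p v ρ hρ hpd hpv Ks hKc (by rw [hQ]; exact hKQ)
      (by rw [hP, hQ]; exact fun z hz => (hstay z hz 1).1) K hK
      (fun a z => Att d (PP (p (a ^ K))) (QQ (p (a ^ K))) ((z : ℂ) : OnePoint ℂ)) (min ε η₀) hmin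
      (by
        intro a z ha hz h
        obtain ⟨h1, h3⟩ := hcop' a (ha.trans_le (min_le_right _ _))
        apply C2_step (B1_continuous h1 (PP_deg _) h3)
        rw [sph_coe_of_ne hz]
        exact h)
      hstab2 (ζ i.1 0) hzK (by rw [hP, hQ]; exact hN) (ζ i.1) rfl
      (fun a ha => (hζ i.1 a (ha.trans_le (min_le_left _ _))).2.1)
      (fun a ha => (hζ i.1 a (ha.trans_le (min_le_left _ _))).2.2)
      (by rw [hP, hQ]; exact (htr _ (hz0 i.1) hA).1) (by rw [hP, hQ]; exact (htr _ (hz0 i.1) hA).2)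
    rw [hP, hQ] at h5
    exact h5
  choose ρi δi C1i C3i hFi hMi using hinst
  -- growth
  have hfd : ∀ z ∈ Ks, DifferentiableAt ℂ (rf P Q) z := fun z hz =>
    (D4x.hasDerivAt_rf (hKQ z hz)).differentiableAt
  have hGrb : ∀ n, GrR d P Q μ n → ∀ i : ι,
      ∃ m ≤ n, μ ^ n ≤ ‖deriv ((rf P Q)^[m]) (rf P Q (ζ i.1 0))‖ := by
    intro n hn i
    rcases hn _ (hz0 i.1) with h | h
    · exact absurd h ((hmemK _).1 i.2)
    · exact h
  have hne : ∀ (i : ι) (j : ℕ), deriv ((rf P Q)^[j]) (rf P Q (ζ i.1 0)) ≠ 0 := by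
    intro i j
    refine deriv_ne_of_expanding (fun j => ?_) hμ (hexp.mono fun n hn => hGrb n hn i) j
    have := (hstay _ i.2 (j + 1)).2
    rwa [Function.iterate_succ_apply] at this
  obtain ⟨M, hM0, hMb⟩ : ∃ M : ι → ℝ, (∀ i, 0 ≤ M i) ∧ ∀ i, ∀ z ∈ cthickening (δi i) Ks, ‖z‖ ≤ M i := by
    have h1 : ∀ i : ι, ∃ M : ℝ, 0 ≤ M ∧ ∀ z ∈ cthickening (δi i) Ks, ‖z‖ ≤ M := by
      intro i
      obtain ⟨M, hM⟩ := (hKc.cthickening (r := δi i)).isBounded.exists_norm_le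
      exact ⟨max M 0, le_max_right _ _, fun z hz => (hM z hz).trans (le_max_left _ _)⟩
    choose M h1 h2 using h1
    exact ⟨M, h1, h2⟩
  have hgi : ∀ i : ι, ∃ (C₀ : ℝ) (n₀ : ℕ), 0 ≤ C₀ ∧ ∀ (m : ℕ) (r : ℝ), n₀ ≤ m → 0 < r →
      r < ρi i → (∀ j ≤ m + 1, ∀ a, ‖a‖ ≤ r → (gam p K a)^[j] (ζ i.1 a) ∈
        cthickening (δi i) Ks) →
      ‖deriv ((rf P Q)^[m]) (rf P Q (ζ i.1 0))‖ * r ^ K ≤ C₀ := fun i =>
    mk_growth (hFi i) (hMi i) (fun j => (hstay _ i.2 j).1) hfd (hne i) (hM0 i) (hMb i)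
  choose C₀ n₀ hC₀ hgr using hgi
  -- the scale of the parameter `a`
  obtain ⟨θ, hθ0, hθ1, hθK⟩ : ∃ θ : ℝ, 0 < θ ∧ θ < 1 ∧ θ ^ K = 1 / 2 := by
    refine ⟨(1 / 2 : ℝ) ^ ((1 : ℝ) / K), by positivity, ?_, ?_⟩
    · apply Real.rpow_lt_one (by norm_num) (by norm_num)
      have : (0 : ℝ) < K := by exact_mod_cast hK
      positivity
    · rw [← Real.rpow_natCast, ← Real.rpow_mul (by norm_num), one_div_mul_cancel (by
        exact_mod_cast hK0), Real.rpow_one]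
  have hms : ∃ q : ℕ, 0 < q ∧ ∀ Q' ≥ q, ∀ ε η : ℝ, 0 < ε → 0 < η → ∃ N₀, ∀ n ≥ N₀,
      (∃ n', n = n' + 1 ∧ GrR d P Q μ n') →
      (cnt (fun j => ¬ volume {a : ℂ | ‖a‖ ≤ θ ^ (j + 1) ∧ ∃ i : ι,
          ¬ Att d (PP (p (a ^ K))) (QQ (p (a ^ K))) ((ζ i.1 a : ℂ) : OnePoint ℂ)} ≤
        ENNReal.ofReal (ε * (θ ^ (j + 1)) ^ 2)) (n / Q') : ℝ) ≤ η * (n / Q' : ℕ) := by
    rcases isEmpty_or_nonempty ι with hemp | ⟨⟨i₀⟩⟩
    · refine ⟨1, one_pos, fun Q' _ ε η hε hη => ⟨0, fun n _ _ => ?_⟩⟩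
      have h1 : cnt (fun j => ¬ volume {a : ℂ | ‖a‖ ≤ θ ^ (j + 1) ∧ ∃ i : ι,
          ¬ Att d (PP (p (a ^ K))) (QQ (p (a ^ K))) ((ζ i.1 a : ℂ) : OnePoint ℂ)} ≤
          ENNReal.ofReal (ε * (θ ^ (j + 1)) ^ 2)) (n / Q') ≤ 0 := by
        refine cnt_late (fun k _ hk => hk ?_) _
        have h2 : {a : ℂ | ‖a‖ ≤ θ ^ (k + 1) ∧ ∃ i : ι,
            ¬ Att d (PP (p (a ^ K))) (QQ (p (a ^ K))) ((ζ i.1 a : ℂ) : OnePoint ℂ)} = ∅ := by
          ext a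
          simp only [Set.mem_ofPred_eq, Set.mem_empty_iff_false, iff_false, not_and]
          rintro _ ⟨i, _⟩
          exact hemp.elim i
        rw [h2, measure_empty]
        exact zero_le
      rw [Nat.le_zero.1 h1]
      push_cast
      positivity
    · obtain ⟨ρ', hρ', -, hρi⟩ := exists_below ρi (fun i => (hFi i).ρ₁_pos) 1 one_pos
      obtain ⟨δ', hδ', -, hδi⟩ := exists_below δi (fun i => (hFi i).δ₁_pos) 1 one_pos
      have hρ'1 : ρ' ≤ 1 := (hρi i₀).trans (hFi i₀).ρ₁_le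
      have hthi : ∀ i, cthickening δ' Ks ⊆ cthickening (δi i) Ks := fun i =>
        cthickening_mono (hδi i) _
      have hg0 : gam p K 0 = rf P Q := (hFi i₀).zero
      refine most_scales (f := gam p K)
        (W := {q : ℂ × ℂ | ‖q.1‖ < ρ' ∧ q.2 ∈ cthickening δ' Ks})
        (fun q hq => (hFi i₀).smooth q.1 q.2 (hq.1.trans_le (hρi i₀)) (hthi i₀ hq.2)) hKc hρ' hδ'
        (fun a z ha hz => ⟨ha, hz⟩)
        (fun a z => Att d (PP (p (a ^ K))) (QQ (p (a ^ K))) (z : OnePoint ℂ))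
        (fun a z haz h => (hFi i₀).step a z (haz.1.trans_le (hρi i₀)) (hthi i₀ haz.2) h)
        ?_ ?_ (fun i : ι => ζ i.1) (fun i a ha => (hMi i).diff a (ha.trans_le (hρi i)))
        (by
          intro i n
          rw [hg0]
          exact (hstay _ i.2 n).1) hμ K (μ * ∑ i, C₀ i) (fun n => ∃ n', n = n' + 1 ∧ GrR d P Q μ n')
        ?_ ?_ hθ0 hθ1
      · intro z hz
        simp only [zero_pow hK0] at hz
        rw [hP, hQ] at hz
        have h2 : Tendsto (fun p : ℂ × ℂ => ((p.1, (p.2 : OnePoint ℂ)) : ℂ × OnePoint ℂ))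
            (𝓝 (0, z)) (𝓝 (0, (z : OnePoint ℂ))) := by
          have : Continuous (fun p : ℂ × ℂ => ((p.1, (p.2 : OnePoint ℂ)) : ℂ × OnePoint ℂ)) :=
            continuous_fst.prodMk (OnePoint.continuous_coe.comp continuous_snd)
          exact this.tendsto (0, z)
        exact h2.eventually (hst _ hz)
      · simp only [zero_pow hK0]
        rw [hP, hQ]
        exact hnull
      · rw [Filter.frequently_atTop] at hexp ⊢
        intro N
        obtain ⟨n, hn, hg⟩ := hexp N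
        exact ⟨n + 1, by omega, n, rfl, hg⟩
      · have hev : ∀ᶠ n' : ℕ in atTop, ∀ i : ι, ∀ m,
            μ ^ n' ≤ ‖deriv ((rf P Q)^[m]) (rf P Q (ζ i.1 0))‖ → n₀ i ≤ m := by
          rw [Filter.eventually_all]
          exact fun i => late_of_expanding
            (g := fun m => ‖deriv ((rf P Q)^[m]) (rf P Q (ζ i.1 0))‖) hμ (n₀ i)
        obtain ⟨N, hN'⟩ := Filter.eventually_atTop.1 hev
        rw [Filter.eventually_atTop]
        refine ⟨N + 1, ?_⟩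
        rintro n hn ⟨n', rfl, hgood⟩
        intro i r hr hr1 hbd
        obtain ⟨m, hmn, hm⟩ := hGrb n' hgood i
        have h1 := hN' n' (by omega) i m hm
        have h2 := hgr i m r h1 hr (hr1.trans_le (hρi i)) (fun j hj a ha =>
          hthi i (hbd j (by omega) a ha))
        have h3 : C₀ i ≤ ∑ i, C₀ i := Finset.single_le_sum (f := C₀) (fun i _ => hC₀ i)
          (Finset.mem_univ i)
        calc μ ^ (n' + 1) * r ^ K = μ * (μ ^ n' * r ^ K) := by rw [pow_succ]; ring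
          _ ≤ μ * (‖deriv ((rf P Q)^[m]) (rf P Q (ζ i.1 0))‖ * r ^ K) := by
              apply mul_le_mul_of_nonneg_left _ (by linarith)
              exact mul_le_mul_of_nonneg_right hm (by positivity)
          _ ≤ μ * C₀ i := mul_le_mul_of_nonneg_left h2 (by linarith)
          _ ≤ _ := mul_le_mul_of_nonneg_left h3 (by linarith)
  -- every point is fine for small parameters
  have hall : ∀ᶠ a : ℂ in 𝓝 0, ∀ x ∈ (Set.univ : Set (OnePoint ℂ)),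
      Att d (PP (p (a ^ K))) (QQ (p (a ^ K))) x ∨
      (∃ z : ℂ, x = (z : OnePoint ℂ) ∧
        (wr (PP (p (a ^ K))) (QQ (p (a ^ K)))).eval z ≠ 0) ∨
      ∃ i : ι, x = ((ζ i.1 a : ℂ) : OnePoint ℂ) := by
    refine isCompact_univ.eventually_forall_of_forall_eventually fun x _ => ?_
    by_cases hx : Att d P Q x
    · filter_upwards [hst x hx] with q hq
      exact Or.inl hq
    · induction x using OnePoint.rec with
      | infty => exact absurd hinf hx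
      | coe z =>
        have hzK : z ∈ Ks := (hmemK z).2 hx
        have hemb : Topology.IsOpenEmbedding
            (fun p : ℂ × ℂ => ((p.1, (p.2 : OnePoint ℂ)) : ℂ × OnePoint ℂ)) :=
          Topology.IsOpenEmbedding.id.prodMap OnePoint.isOpenEmbedding_coe
        have hmap : 𝓝 (((0 : ℂ), (z : OnePoint ℂ)) : ℂ × OnePoint ℂ) =
            Filter.map (fun p : ℂ × ℂ => ((p.1, (p.2 : OnePoint ℂ)) : ℂ × OnePoint ℂ))
              (𝓝 (0, z)) := (hemb.map_nhds_eq (0, z)).symm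
        rw [hmap, Filter.eventually_map]
        obtain ⟨η, hη, hηz⟩ := hloc z
        have hnear : ∀ᶠ q : ℂ × ℂ in 𝓝 (0, z), ‖q.1‖ < η ∧ ‖q.2 - z‖ < η := by
          refine Eventually.and ?_ ?_
          · have h1 : Continuous (fun q : ℂ × ℂ => ‖q.1‖) := by fun_prop
            have h2 : ‖(((0 : ℂ), z) : ℂ × ℂ).1‖ < η := by simpa using hη
            exact (h1.tendsto ((0 : ℂ), z)).eventually (Iio_mem_nhds h2)
          · have h1 : Continuous (fun q : ℂ × ℂ => ‖q.2 - z‖) := by fun_prop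
            have h2 : ‖(((0 : ℂ), z) : ℂ × ℂ).2 - z‖ < η := by simpa using hη
            exact (h1.tendsto ((0 : ℂ), z)).eventually (Iio_mem_nhds h2)
        filter_upwards [hnear] with q hq
        by_cases hw : (wr (PP (p (q.1 ^ K))) (QQ (p (q.1 ^ K)))).eval q.2 = 0
        · right; right
          obtain ⟨i, hi1, hi2⟩ := hηz q.1 q.2 hq.1 hq.2 hw
          exact ⟨⟨i, by rw [hi1]; exact hzK⟩, by rw [← hi2]⟩
        · right; left
          exact ⟨q.2, rfl, hw⟩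
  have hinfev2 : ∀ᶠ a : ℂ in 𝓝 0, Att d (PP (p (a ^ K))) (QQ (p (a ^ K))) ∞ := by
    have h2 : Tendsto (fun a : ℂ => ((a, ∞) : ℂ × OnePoint ℂ)) (𝓝 0) (𝓝 (0, ∞)) := by
      have : Continuous (fun a : ℂ => ((a, ∞) : ℂ × OnePoint ℂ)) := by fun_prop
      exact this.tendsto 0
    exact h2.eventually (hst ∞ hinf)
  obtain ⟨δ, hδ, hδs⟩ := Metric.mem_nhds_iff.1 (hall.and hinfev2)
  have hKR : (0 : ℝ) < K := by exact_mod_cast hK
  obtain ⟨q, hq0, hq⟩ := hms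
  -- the bad parameters at one scale
  obtain ⟨k₀, hone⟩ : ∃ k₀ : ℕ, ∀ k ≥ k₀, ∀ ε : ℝ, 0 < ε →
      volume {a : ℂ | ‖a‖ ≤ θ ^ (k + 1) ∧ ∃ i : ι,
          ¬ Att d (PP (p (a ^ K))) (QQ (p (a ^ K))) ((ζ i.1 a : ℂ) : OnePoint ℂ)} ≤
        ENNReal.ofReal (ε / K ^ 2 * (θ ^ (k + 1)) ^ 2) →
      volume {s : ℂ | ‖s‖ < (1 / 2) ^ (k + 1) ∧ p s ∈ rbad d} ≤
        ENNReal.ofReal (ε * ((1 / 2) ^ (k + 1)) ^ 2) := by
    have h1 : ∀ᶠ k : ℕ in atTop, θ ^ k < min δ η₀ :=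
      (tendsto_pow_atTop_nhds_zero_of_lt_one hθ0.le hθ1).eventually
        (Iio_mem_nhds (lt_min hδ hη₀))
    obtain ⟨k₀, hk₀⟩ := Filter.eventually_atTop.1 h1
    refine ⟨k₀, fun k hkk ε hε hvol => ?_⟩
    have hk := hk₀ k hkk
    set r : ℝ := θ ^ (k + 1) with hr
    have hr0 : 0 < r := pow_pos hθ0 _
    have hrk : r < min δ η₀ :=
      lt_of_le_of_lt (pow_le_pow_of_le_one hθ0.le hθ1.le (Nat.le_succ k)) hk
    have hrK : r ^ K = (1 / 2) ^ (k + 1) := by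
      rw [hr, ← pow_mul, Nat.mul_comm, pow_mul, hθK]
    have hsub : {s : ℂ | ‖s‖ < (1 / 2) ^ (k + 1) ∧ p s ∈ rbad d} ⊆
        (fun a : ℂ => a ^ K) '' {a : ℂ | ‖a‖ ≤ r ∧ ∃ i : ι, ¬ Att d (PP (p (a ^ K)))
          (QQ (p (a ^ K))) ((ζ i.1 a : ℂ) : OnePoint ℂ)} := by
      rintro s ⟨hs, hGs⟩
      obtain ⟨a, ha⟩ := IsAlgClosed.exists_pow_nat_eq s hK
      have har : ‖a‖ < r := by
        rw [← ha, norm_pow, ← hrK] at hs
        exact lt_of_pow_lt_pow_left₀ K hr0.le hs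
      refine ⟨a, ⟨har.le, ?_⟩, ha⟩
      rw [← ha] at hGs
      have haδ : ‖a‖ < δ := har.trans (hrk.trans_le (min_le_left _ _))
      have haρ : ‖a‖ < η₀ := har.trans (hrk.trans_le (min_le_right _ _))
      obtain ⟨ha1, ha2⟩ := hδs (mem_ball_zero_iff.2 haδ)
      by_contra hcon
      push Not at hcon
      apply hGs
      obtain ⟨h1, h3⟩ := hcop' a haρ
      refine ⟨h1, PP_deg _, h3, ha2, fun z hz => ?_⟩
      rcases ha1 (z : OnePoint ℂ) (Set.mem_univ _) with h | ⟨z', hz', h⟩ | ⟨i, h⟩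
      · exact h
      · rw [OnePoint.coe_injective hz'] at hz
        exact absurd hz h
      · rw [h]
        exact hcon i
    calc _ ≤ volume ((fun a : ℂ => a ^ K) '' {a : ℂ | ‖a‖ ≤ r ∧
          ∃ i : ι, ¬ Att d (PP (p (a ^ K))) (QQ (p (a ^ K))) ((ζ i.1 a : ℂ) : OnePoint ℂ)}) :=
          measure_mono hsub
      _ ≤ ENNReal.ofReal (((K : ℝ) * r ^ (K - 1)) ^ 2) *
          volume {a : ℂ | ‖a‖ ≤ r ∧ ∃ i : ι, ¬ Att d (PP (p (a ^ K))) (QQ (p (a ^ K)))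
            ((ζ i.1 a : ℂ) : OnePoint ℂ)} :=
          pow_image hr0.le fun a ha => mem_closedBall_zero_iff.2 ha.1
      _ ≤ ENNReal.ofReal (((K : ℝ) * r ^ (K - 1)) ^ 2) *
          ENNReal.ofReal (ε / K ^ 2 * r ^ 2) := by gcongr
      _ = ENNReal.ofReal (ε * ((1 / 2) ^ (k + 1)) ^ 2) := by
          rw [← ENNReal.ofReal_mul (by positivity)]
          congr 1
          have e1 : r ^ K = r ^ (K - 1) * r := by
            rw [← pow_succ]
            congr 1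
            omega
          rw [← hrK, e1]
          field_simp
  refine ⟨q, hq0, ?_⟩
  intro N' hN' ε η hε hη
  have hN'0 : 0 < N' := lt_of_lt_of_le hq0 hN'
  obtain ⟨N₀, hN₀⟩ := hq N' hN' (ε / K ^ 2) (η / 4) (by positivity) (by positivity)
  obtain ⟨N₁, hN₁'⟩ := exists_nat_gt ((4 * k₀ : ℝ) / η)
  refine ⟨max N₀ (N' * (N₁ + 1)), fun n hn hGn => ?_⟩
  have h1 := hN₀ (n + 1) ((le_max_left _ _).trans (hn.trans (Nat.le_succ n))) ⟨n, rfl, hGn⟩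
  set M' := n / N' with hM'
  have hMlo : N₁ + 1 ≤ M' := by
    rw [hM', Nat.le_div_iff_mul_le hN'0, Nat.mul_comm]
    exact (le_max_right _ _).trans hn
  have hM1 : (n + 1) / N' ≤ M' + 1 := by
    have e2 : (n + 1) / N' ≤ (n + N') / N' := Nat.div_le_div_right (by omega)
    rwa [Nat.add_div_right n hN'0] at e2
  have hM2 : M' ≤ (n + 1) / N' := Nat.div_le_div_right (by omega)
  have h2 : cnt (fun k => ¬ volume {s : ℂ | ‖s‖ < (1 / 2) ^ (k + 1) ∧ p s ∈ rbad d} ≤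
        ENNReal.ofReal (ε * ((1 / 2) ^ (k + 1)) ^ 2)) M' ≤ k₀ +
      cnt (fun j => ¬ volume {a : ℂ | ‖a‖ ≤ θ ^ (j + 1) ∧ ∃ i : ι,
          ¬ Att d (PP (p (a ^ K))) (QQ (p (a ^ K))) ((ζ i.1 a : ℂ) : OnePoint ℂ)} ≤
        ENNReal.ofReal (ε / K ^ 2 * (θ ^ (j + 1)) ^ 2)) ((n + 1) / N') := by
    refine (cnt_mono (q := fun k => k < k₀ ∨
      ¬ volume {a : ℂ | ‖a‖ ≤ θ ^ (k + 1) ∧ ∃ i : ι,
          ¬ Att d (PP (p (a ^ K))) (QQ (p (a ^ K))) ((ζ i.1 a : ℂ) : OnePoint ℂ)} ≤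
        ENNReal.ofReal (ε / K ^ 2 * (θ ^ (k + 1)) ^ 2)) ?_ M').trans ((cnt_or _ _ _).trans ?_)
    · intro k hk
      by_contra hcon
      push Not at hcon
      exact hk (hone k hcon.1 ε hε hcon.2)
    · refine add_le_add (cnt_late (fun k hk h => by omega) _) ?_
      exact cnt_mono_right _ hM2
  have h4 : (cnt (fun k => ¬ volume {s : ℂ | ‖s‖ < (1 / 2) ^ (k + 1) ∧ p s ∈ rbad d} ≤
        ENNReal.ofReal (ε * ((1 / 2) ^ (k + 1)) ^ 2)) M' : ℝ) ≤ k₀ +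
      cnt (fun j => ¬ volume {a : ℂ | ‖a‖ ≤ θ ^ (j + 1) ∧ ∃ i : ι,
          ¬ Att d (PP (p (a ^ K))) (QQ (p (a ^ K))) ((ζ i.1 a : ℂ) : OnePoint ℂ)} ≤
        ENNReal.ofReal (ε / K ^ 2 * (θ ^ (j + 1)) ^ 2)) ((n + 1) / N') := by
    exact_mod_cast h2
  have h3 : (cnt (fun k => ¬ volume {s : ℂ | ‖s‖ < (1 / 2) ^ (k + 1) ∧ p s ∈ rbad d} ≤
        ENNReal.ofReal (ε * ((1 / 2) ^ (k + 1)) ^ 2)) M' : ℝ) ≤ k₀ +
      η / 4 * ((n + 1) / N' : ℕ) := by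
    linarith
  have h5 : (((n + 1) / N' : ℕ) : ℝ) ≤ M' + 1 := by exact_mod_cast hM1
  have h6 : ((N₁ : ℕ) : ℝ) + 1 ≤ M' := by exact_mod_cast hMlo
  rw [div_lt_iff₀ hη] at hN₁'
  have h7 : (0 : ℝ) ≤ N₁ := Nat.cast_nonneg _
  nlinarith

end Pool.Agent.H207.TF
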