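import Pool.Agent.H207.TF.Rel2

/-! Project TF: independence of the critical orbit relations (Epstein's transversality). -/

set_option autoImplicit false

open Metric Set MeasureTheory Filter Topology Polynomial
open scoped OnePoint ENNReal

namespace Pool.Agent.H207.TF

open Pool.Agent.H792R2.CE

/-- The formal sum of the points of the orbit `c, …, f^(n-1) c` which describes the speed of `f^n c`. -/
noncomputable def dv (P Q : ℂ[X]) (c : ℂ) : ℕ → (ℂ →₀ ℂ)
  | 0 => Finsupp.single c 1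
  | n + 1 => ((wr P Q).eval ((rf P Q)^[n] c) / Q.eval ((rf P Q)^[n] c) ^ 2) •
      (dv P Q c n - Finsupp.single ((rf P Q)^[n] c) 1)

/-- the formal sum of a list -/
noncomputable def ld (L : List (ℂ × ℂ)) : ℂ →₀ ℂ := (L.map fun q => Finsupp.single q.2 q.1).sum

theorem ld_cons (q : ℂ × ℂ) (L : List (ℂ × ℂ)) : ld (q :: L) = Finsupp.single q.2 q.1 + ld L := by
  simp [ld]

theorem ld_append (L M : List (ℂ × ℂ)) : ld (L ++ M) = ld L + ld M := by
  simp [ld]

theorem ld_scale (b : ℂ) (L : List (ℂ × ℂ)) :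
    ld (L.map fun q => (b * q.1, q.2)) = b • ld L := by
  induction L with
  | nil => simp [ld]
  | cons q L ih =>
    rw [List.map_cons, ld_cons, ld_cons, ih, smul_add]
    congr 1
    simp only [Finsupp.smul_single, smul_eq_mul]

theorem ld_cl (P Q : ℂ[X]) (c : ℂ) (n : ℕ) : ld (cl P Q c n) = dv P Q c n := by
  induction n with
  | zero => simp [cl, dv, ld]
  | succ n ih =>
    simp only [cl, dv]
    rw [ld_cons, ld_scale, ih, smul_sub, Finsupp.smul_single, smul_eq_mul, mul_one,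
      Finsupp.single_neg]
    abel

theorem ld_flatMap {ι : Type*} (l : List ι) (f : ι → List (ℂ × ℂ)) :
    ld (l.flatMap f) = (l.map fun i => ld (f i)).sum := by
  induction l with
  | nil => simp [ld]
  | cons a l ih =>
    rw [List.flatMap_cons, ld_append, ih, List.map_cons, List.sum_cons]

theorem ld_LL {P Q : ℂ[X]} {m : ℕ} (ρ : Fin m → Reln) (b : Fin m → ℂ) :
    ld (LL P Q ρ b) = ∑ i, b i • (dv P Q (ρ i).c (ρ i).n - dv P Q (ρ i).c' (ρ i).n') := by
  unfold LL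
  rw [ld_flatMap, Fin.sum_univ_def]
  congr 1
  refine List.map_congr_left fun i _ => ?_
  rw [ld_append, ld_scale, ld_scale, ld_cl, ld_cl, neg_smul, smul_sub, sub_eq_add_neg]

theorem ld_apply [DecidableEq ℂ] (L : List (ℂ × ℂ)) (p : ℂ) :
    ld L p = (L.map fun q => if q.2 = p then q.1 else 0).sum := by
  induction L with
  | nil => simp [ld]
  | cons q L ih =>
    rw [ld_cons, Finsupp.add_apply, ih, List.map_cons, List.sum_cons, Finsupp.single_apply]

/-- the combination of the speeds for the deformations of `S_PFX` -/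
theorem comb_pf {P Q S : ℂ[X]} {m : ℕ} {ρ : Fin m → Reln} {b : Fin m → ℂ}
    (hρ : ∀ i, (rf P Q)^[(ρ i).n] (ρ i).c = (rf P Q)^[(ρ i).n'] (ρ i).c')
    (h5 : ∀ i, ∀ j < (ρ i).n, Q.eval ((rf P Q)^[j] (ρ i).c) ≠ 0)
    (h6 : ∀ i, ∀ j < (ρ i).n', Q.eval ((rf P Q)^[j] (ρ i).c') ≠ 0) {x : ℂ}
    (hxc : ∀ (i : Fin m) (j : ℕ), x ≠ (rf P Q)^[j] (ρ i).c ∧ x ≠ (rf P Q)^[j] (ρ i).c')
    {W : Finset ℂ} {β : ℂ → ℂ}
    (hS3 : ∀ z, (P - C x * Q).eval z ≠ 0 → Q.eval z ≠ 0 →
        S.eval z / Q.eval z ^ 2 = 1 / (rf P Q z - x) - (wr P Q).eval z / Q.eval z ^ 2 *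
          ∑ w ∈ W, β w / (z - w)) :
    ∑ i, b i * (spd P Q S (ρ i).c (∑ w ∈ W, β w / ((ρ i).c - w)) (ρ i).n -
        spd P Q S (ρ i).c' (∑ w ∈ W, β w / ((ρ i).c' - w)) (ρ i).n') =
      ws (fun z => 1 / (x - z)) (LL P Q ρ b) -
        ∑ w ∈ W, β w * ws (fun z => 1 / (w - z)) (LL P Q ρ b) := by
  have hDz : ∀ z : ℂ, Q.eval z ≠ 0 → rf P Q z ≠ x → (P - C x * Q).eval z ≠ 0 := by
    intro z hz hzx h0
    apply hzx
    simp only [Polynomial.eval_sub, Polynomial.eval_mul, Polynomial.eval_C] at h0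
    rw [rf, div_eq_iff hz]
    exact sub_eq_zero.1 h0
  have h3 : ∀ i, spd P Q S (ρ i).c (∑ w ∈ W, β w / ((ρ i).c - w)) (ρ i).n -
      spd P Q S (ρ i).c' (∑ w ∈ W, β w / ((ρ i).c' - w)) (ρ i).n' =
      (ws (fun z => 1 / (x - z)) (cl P Q (ρ i).c (ρ i).n) -
        ws (fun z => 1 / (x - z)) (cl P Q (ρ i).c' (ρ i).n')) -
      ∑ w ∈ W, β w * (ws (fun z => 1 / (w - z)) (cl P Q (ρ i).c (ρ i).n) -
        ws (fun z => 1 / (w - z)) (cl P Q (ρ i).c' (ρ i).n')) := by
    intro i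
    rw [spd_pf (β := β) (W := W) (x := x) (c := (ρ i).c) (n := (ρ i).n) (by
        intro j hj
        have h7 := hS3 ((rf P Q)^[j] (ρ i).c) (hDz _ (h5 i j hj) (by
          have e := (hxc i (j + 1)).1
          rw [Function.iterate_succ_apply'] at e
          exact e.symm)) (h5 i j hj)
        rw [h7, Function.iterate_succ_apply']),
      spd_pf (β := β) (W := W) (x := x) (c := (ρ i).c') (n := (ρ i).n') (by
        intro j hj
        have h7 := hS3 ((rf P Q)^[j] (ρ i).c') (hDz _ (h6 i j hj) (by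
          have e := (hxc i (j + 1)).2
          rw [Function.iterate_succ_apply'] at e
          exact e.symm)) (h6 i j hj)
        rw [h7, Function.iterate_succ_apply']), hρ i]
    simp only [mul_sub, Finset.sum_sub_distrib]
    ring
  simp only [h3]
  simp only [ws_LL]
  simp only [mul_sub, Finset.sum_sub_distrib, Finset.mul_sum]
  have e1 : ∀ G : Fin m → ℂ → ℂ, ∑ i, ∑ w ∈ W, b i * (β w * G i w) =
      ∑ w ∈ W, ∑ i, β w * (b i * G i w) := by
    intro G
    rw [Finset.sum_comm]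
    refine Finset.sum_congr rfl fun w _ => Finset.sum_congr rfl fun i _ => ?_
    ring
  rw [e1, e1]

/-- **Independence.** A linear relation between the differentials of critical orbit relations gives a
linear relation between the formal sums of points. -/
theorem eps (hPF : S_PFX) (hI : S_INV0) (hG : S_GOODX) {P Q : ℂ[X]} {d : ℕ} (hd : 2 ≤ d)
    (hPQ : IsCoprime P Q) (hPd : P.natDegree ≤ d) (hQd : Q.natDegree = d) (hN : wr P Q ≠ 0)
    (hpole : ∀ c : ℂ, (wr P Q).eval c = 0 → Q.eval c ≠ 0) {A₀ : Set ℂ} (hA₀o : IsOpen A₀)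
    (hA₀d : Dense A₀)
    (hwand : ∀ᵐ x : ℂ, x ∈ A₀ → ∃ U : Set ℂ, x ∈ U ∧ IsOpen U ∧
      ∀ y ∈ U, ∀ k, 0 < k → (rf P Q)^[k] y ∉ U)
    {m : ℕ} {ρ : Fin m → Reln} {b : Fin m → ℂ}
    (hρ : ∀ i, (rf P Q)^[(ρ i).n] (ρ i).c = (rf P Q)^[(ρ i).n'] (ρ i).c')
    (h5 : ∀ i, ∀ j < (ρ i).n, Q.eval ((rf P Q)^[j] (ρ i).c) ≠ 0)
    (h6 : ∀ i, ∀ j < (ρ i).n', Q.eval ((rf P Q)^[j] (ρ i).c') ≠ 0)
    (hb : ∀ (S : ℂ[X]) (u κ : ℂ → ℂ), S.natDegree ≤ 2 * d → Dfm P Q S u κ →
      ∑ i, b i * (spd P Q S (ρ i).c (κ (ρ i).c) (ρ i).n -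
        spd P Q S (ρ i).c' (κ (ρ i).c') (ρ i).n') = 0) :
    ∑ i, b i • (dv P Q (ρ i).c (ρ i).n - dv P Q (ρ i).c' (ρ i).n') = 0 := by
  classical
  obtain ⟨L, hL⟩ : ∃ L, L = LL P Q ρ b := ⟨_, rfl⟩
  obtain ⟨F, hF⟩ : ∃ F : ℕ → ℂ × ℂ, F = fun _ => (0, 0) := ⟨_, rfl⟩
  have hF1 : ∀ j, (F j).1 = 0 := fun j => by rw [hF]
  have hF2 : ∀ j, (F j).2 = 0 := fun j => by rw [hF]
  -- moments
  have hmom : ∀ h : ℂ[X], h.natDegree ≤ 2 →
      ∑' j, (pre F L j).1 * h.eval (pre F L j).2 = 0 := by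
    intro h hh
    have hdeg : (wr P Q * h).natDegree ≤ 2 * d := by
      refine Polynomial.natDegree_mul_le.trans ?_
      have := wr_natDegree (P := P) (Q := Q) (d := d) (by omega) hPd hQd.le
      omega
    have hD : Dfm P Q (wr P Q * h) 0 (fun z => -h.eval z) := by
      intro e he
      have e1 : wr P Q * h - C ((0 : ℂ → ℂ) (rf P Q e)) * Q ^ 2 + C (-h.eval e) * wr P Q =
          wr P Q * (h - C (h.eval e)) := by
        simp only [Pi.zero_apply, C_0, zero_mul, sub_zero, C_neg]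
        ring
      rw [e1, pow_succ]
      refine mul_dvd_mul (Polynomial.pow_rootMultiplicity_dvd _ _) ?_
      exact Polynomial.X_sub_C_dvd_sub_C_eval
    have h1 := hb (wr P Q * h) 0 (fun z => -h.eval z) hdeg hD
    have h2 : ∑ i, b i * (spd P Q (wr P Q * h) (ρ i).c (-h.eval (ρ i).c) (ρ i).n -
        spd P Q (wr P Q * h) (ρ i).c' (-h.eval (ρ i).c') (ρ i).n') =
        -ws (fun z => h.eval z) L := by
      rw [hL, ws_LL, ← Finset.sum_neg_distrib]
      refine Finset.sum_congr rfl fun i _ => ?_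
      rw [spd_moebius, spd_moebius]
      ring
    have h4 : ws (fun z => h.eval z) L = 0 := by
      rw [← neg_eq_zero, ← h2]
      exact h1
    have h5 : Summable fun j => (F j).1 * h.eval (F j).2 := by
      simp only [hF1, zero_mul]
      exact summable_zero
    rw [pre_tsum (fun q => q.1 * h.eval q.2) h5 L]
    simp only [hF1, zero_mul, tsum_zero, add_zero]
    exact h4
  have hsm : Summable fun j => ‖(pre F L j).1‖ :=
    pre_summable (fun q : ℂ × ℂ => ‖q.1‖) (by simp only [hF1, norm_zero]; exact summable_zero) L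
  have hm0 : ∑' j, (pre F L j).1 = 0 := by
    have := hmom 1 (by simp)
    simpa using this
  have hm1 : ∑' j, (pre F L j).1 * (pre F L j).2 = 0 := by
    have := hmom X (by simp)
    simpa using this
  have hm2 : ∑' j, (pre F L j).1 * (pre F L j).2 ^ 2 = 0 := by
    have := hmom (X ^ 2) (by simp)
    simpa using this
  have hfin : ({z | z = 0 ∨ ∃ q ∈ L, q.2 = z} : Set ℂ).Finite := by
    have h1 : ({z | z = 0 ∨ ∃ q ∈ L, q.2 = z} : Set ℂ) = {0} ∪ Prod.snd '' {q | q ∈ L} := by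
      ext z
      simp
    rw [h1]
    exact (Set.finite_singleton _).union ((List.finite_toSet L).image _)
  obtain ⟨M, hM⟩ := hfin.isBounded.exists_norm_le
  have hpre : ∀ j, (pre F L j).2 ∈ {z | z = 0 ∨ ∃ q ∈ L, q.2 = z} := by
    intro j
    rcases pre_range (F := F) L j with h | ⟨i, h⟩
    · exact Or.inr ⟨_, h, rfl⟩
    · left
      rw [h, hF2]
  have hcount : ∀ᵐ x : ℂ, ∀ (i : Fin m) (j : ℕ), x ≠ (rf P Q)^[j] (ρ i).c ∧
      x ≠ (rf P Q)^[j] (ρ i).c' := by
    rw [ae_all_iff]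
    intro i
    rw [ae_all_iff]
    intro j
    have h1 : ∀ᵐ x : ℂ, x ∉ ({(rf P Q)^[j] (ρ i).c, (rf P Q)^[j] (ρ i).c'} : Set ℂ) :=
      (Set.toFinite _).countable.ae_notMem volume
    filter_upwards [h1] with x hx
    simp only [Set.mem_insert_iff, Set.mem_singleton_iff, not_or] at hx
    exact hx
  have hinv : ∀ᵐ x : ℂ, phi (fun j => (pre F L j).1) (fun j => (pre F L j).2) x =
      ∑ w ∈ (P - C x * Q).roots.toFinset, Q.eval w ^ 4 / (wr P Q).eval w ^ 2 *
        phi (fun j => (pre F L j).1) (fun j => (pre F L j).2) w := by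
    filter_upwards [hG P Q d hd hPQ hPd hQd hN (fun _ => 0) (fun _ => 0)
      (by simpa using summable_zero), hcount] with x hx hxc
    obtain ⟨hx1, hx2, hx3, hx4, hx5, hx6⟩ := hx
    obtain ⟨S, hS1, hS2, hS3⟩ := hPF P Q d hPd hQd.le hN hpole x hx1 hx2 fun w hw => (hx3 w hw).1
    obtain ⟨W, hW⟩ : ∃ W, W = (P - C x * Q).roots.toFinset := ⟨_, rfl⟩
    rw [← hW] at hS2 hS3 ⊢
    obtain ⟨β, hβ⟩ : ∃ β : ℂ → ℂ, β = fun w => Q.eval w ^ 4 / (wr P Q).eval w ^ 2 := ⟨_, rfl⟩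
    have hβ' : ∀ w, Q.eval w ^ 4 / (wr P Q).eval w ^ 2 = β w := fun w => by rw [hβ]
    simp only [hβ'] at hS2 hS3 ⊢
    have h1 := hb S _ _ hS1 hS2
    have h2 := comb_pf (b := b) hρ h5 h6 hxc hS3
    have h4 : ws (fun z => 1 / (x - z)) L - ∑ w ∈ W, β w * ws (fun z => 1 / (w - z)) L = 0 := by
      rw [hL, ← h2]
      exact h1
    have h7 : ∀ y : ℂ, phi (fun j => (pre F L j).1) (fun j => (pre F L j).2) y =
        ws (fun z => 1 / (y - z)) L := by
      intro y
      have hsx : Summable fun j => (F j).1 / (y - (F j).2) := by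
        simp only [hF1, zero_div]
        exact summable_zero
      unfold phi
      rw [pre_tsum (fun q => q.1 / (y - q.2)) hsx L]
      simp only [hF1, zero_div, tsum_zero, add_zero]
      unfold ws
      congr 1
      refine List.map_congr_left fun q _ => ?_
      rw [mul_one_div]
    simp only [h7]
    exact sub_eq_zero.1 h4
  have hvol' : volume (closure (Set.range fun j => (pre F L j).2)) = 0 := by
    have h1 : (Set.range fun j => (pre F L j).2) ⊆ {z | z = 0 ∨ ∃ q ∈ L, q.2 = z} := by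
      rintro _ ⟨j, rfl⟩
      exact hpre j
    refine measure_mono_null (closure_mono h1) ?_
    rw [hfin.isClosed.closure_eq]
    exact hfin.countable.measure_zero volume
  have hu := hI P Q d hd hPQ hPd hQd hN (fun j => (pre F L j).1) (fun j => (pre F L j).2) M hsm
    (fun j => hM _ (hpre j)) hm0 hm1 hm2 hinv A₀ hA₀o hA₀d hwand hvol'
  rw [← ld_LL, ← hL]
  ext p
  have hs0 : Summable fun j => (if (F j).2 = p then (F j).1 else 0) := by
    simp only [hF1, ite_self]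
    exact summable_zero
  have h8 := pre_tsum (fun q : ℂ × ℂ => if q.2 = p then q.1 else 0) hs0 L
  rw [hu p] at h8
  simp only [hF1, ite_self, tsum_zero, add_zero] at h8
  rw [ld_apply, ← h8, Finsupp.zero_apply]

end Pool.Agent.H207.TF
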