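import Pool.Agent.H207.TF.Core

/-! Project TF: families with several parameters. -/

set_option autoImplicit false

open Metric Set MeasureTheory Filter Topology Polynomial
open scoped OnePoint ENNReal

namespace Pool.Agent.H207.TF

open Pool.Agent.Helper114.Herman
open Pool.Agent.H792R2.CE Pool.Agent.H792R2
open Pool.Agent.H211.LR Pool.Agent.H211.AD

/-- the critical points are attracted or Collet-Eckmann, `∞` is attracted -/
structure Base (d : ℕ) (P Q : ℂ[X]) : Prop where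
  hd : 2 ≤ d
  cop : IsCoprime P Q
  Pd : P.natDegree ≤ d
  Qd : Q.natDegree = d
  inf : Att d P Q ∞
  CE : ∀ c : ℂ, (wr P Q).eval c = 0 → Att d P Q (c : OnePoint ℂ) ∨
      ∃ μ : ℝ, 1 < μ ∧ ∀ᶠ n : ℕ in atTop, μ ^ n ≤ ‖deriv ((rf P Q)^[n]) (rf P Q c)‖

theorem Base.N {d : ℕ} {P Q : ℂ[X]} (B : Base d P Q) : wr P Q ≠ 0 :=
  wr_ne_zero (by have := B.hd; omega) B.cop B.Qd

theorem Base.cont {d : ℕ} {P Q : ℂ[X]} (B : Base d P Q) : Continuous (sph d P Q) :=
  B1_continuous B.cop B.Pd B.Qd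

theorem Base.cpt {d : ℕ} {P Q : ℂ[X]} (B : Base d P Q) :
    IsCompact {z : ℂ | ¬ Att d P Q (z : OnePoint ℂ)} :=
  natt_compact (by have := B.hd; omega) B.cop B.Pd B.Qd B.inf

theorem Base.stay {d : ℕ} {P Q : ℂ[X]} (B : Base d P Q) {z : ℂ}
    (hz : ¬ Att d P Q (z : OnePoint ℂ)) (n : ℕ) :
    ¬ Att d P Q (((rf P Q)^[n] z : ℂ) : OnePoint ℂ) ∧ Q.eval ((rf P Q)^[n] z) ≠ 0 :=
  natt_iter B.cont B.inf hz n

theorem Base.KQ {d : ℕ} {P Q : ℂ[X]} (B : Base d P Q) {z : ℂ}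
    (hz : ¬ Att d P Q (z : OnePoint ℂ)) : Q.eval z ≠ 0 := by
  have := (B.stay hz 0).2
  simpa using this

/-- almost every point is attracted -/
theorem Base.null {d : ℕ} {P Q : ℂ[X]} (B : Base d P Q) :
    volume {z : ℂ | ¬ Att d P Q (z : OnePoint ℂ)} = 0 := by
  obtain ⟨Cr, ℓ, δ₀, Cp, rp, c₀, μ, hS, -⟩ := rsys Pool.Agent.H720.AD211.t_POW
    Pool.Agent.H401.AD211.RBACK.t_RBACK Pool.Agent.H97.AD211.t_RLIFT a_RLATE B.hd B.cop B.Pd B.Qd
    B.inf B.CE
  exact null_K hS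

theorem Base.summ {d : ℕ} {P Q : ℂ[X]} (B : Base d P Q) {c : ℂ} (hc : (wr P Q).eval c = 0)
    (hA : ¬ Att d P Q (c : OnePoint ℂ)) :
    Summable fun m => ‖deriv ((rf P Q)^[m]) (rf P Q c)‖⁻¹ := by
  rcases B.CE c hc with h | ⟨μ, hμ, h⟩
  · exact absurd h hA
  · exact ce_summable hμ h

theorem Base.ne {d : ℕ} {P Q : ℂ[X]} (B : Base d P Q) {c : ℂ} (hc : (wr P Q).eval c = 0)
    (hA : ¬ Att d P Q (c : OnePoint ℂ)) (j : ℕ) : deriv ((rf P Q)^[j]) (rf P Q c) ≠ 0 := by
  rcases B.CE c hc with h | ⟨μ, hμ, h⟩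
  · exact absurd h hA
  · refine deriv_ne_of_expanding (fun j => ?_) hμ
      (h.frequently.mono fun n hn => ⟨n, le_rfl, hn⟩) j
    have := (B.stay hA (j + 1)).2
    rwa [Function.iterate_succ_apply] at this

/-- summability of the transversality sums -/
theorem Base.term {d : ℕ} {P Q : ℂ[X]} (B : Base d P Q) {c : ℂ} (hc : (wr P Q).eval c = 0)
    (hA : ¬ Att d P Q (c : OnePoint ℂ)) (S : ℂ[X]) : Summable (term P Q S c) := by
  obtain ⟨M, hM⟩ := B.cpt.exists_bound_of_continuousOn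
    (f := fun z => S.eval z / Q.eval z ^ 2)
    (S.continuous.continuousOn.div (Q.continuous.continuousOn.pow 2)
      fun z hz => pow_ne_zero _ (B.KQ hz))
  refine Summable.of_norm_bounded ((B.summ hc hA).mul_left M) fun j => ?_
  unfold TF.term
  rw [div_eq_mul_inv, norm_mul, norm_inv]
  exact mul_le_mul_of_nonneg_right (hM _ (B.stay hA j).1) (by positivity)

theorem varS_add {d : ℕ} (x a b : EE d) : varS x (a + b) = varS x a + varS x b := by
  unfold varS
  rw [PP_add, QQ_add]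
  ring

theorem varS_smul {d : ℕ} (x b : EE d) (s : ℂ) : varS x (s • b) = C s * varS x b := by
  unfold varS
  rw [PP_smul, QQ_smul]
  ring

theorem varS_deg {d : ℕ} (x b : EE d) : (varS x b).natDegree ≤ 2 * d := by
  unfold varS
  refine (natDegree_sub_le _ _).trans (max_le ?_ ?_)
  · refine natDegree_mul_le.trans ?_
    have := PP_deg b
    have := QQ_deg x
    omega
  · refine natDegree_mul_le.trans ?_
    have := PP_deg x
    have := QQ_deg b
    omega

/-- the transversality sum as a linear form -/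
theorem exists_form {d : ℕ} {P Q : ℂ[X]} (B : Base d P Q) {n : ℕ} (x : EE d)
    (D : (Fin n → ℂ) →L[ℂ] EE d) {c : ℂ} (hc : (wr P Q).eval c = 0)
    (hA : ¬ Att d P Q (c : OnePoint ℂ)) :
    ∃ L : (Fin n → ℂ) →ₗ[ℂ] ℂ, ∀ v, L v = ∑' j, term P Q (varS x (D v)) c j := by
  refine ⟨{ toFun := fun v => ∑' j, term P Q (varS x (D v)) c j
            map_add' := ?_
            map_smul' := ?_ }, fun v => rfl⟩
  · intro a b
    rw [← (B.term hc hA _).tsum_add (B.term hc hA _)]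
    refine tsum_congr fun j => ?_
    unfold TF.term
    rw [map_add, varS_add, Polynomial.eval_add]
    ring
  · intro s b
    rw [RingHom.id_apply, smul_eq_mul, ← tsum_mul_left]
    refine tsum_congr fun j => ?_
    unfold TF.term
    rw [map_smul, varS_smul, Polynomial.eval_mul, Polynomial.eval_C]
    ring

/-- **Transversal families.** -/
theorem famA (hPU : S_PUIS) (hIN : S_INSTG) {d n : ℕ} {p : (Fin n → ℂ) → EE d}
    {U : Set (Fin n → ℂ)} (hU : IsOpen U) {x : Fin n → ℂ} (hx : x ∈ U)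
    (hp : DifferentiableOn ℂ p U) (B : Base d (PP (p x)) (QQ (p x)))
    (htr : ∀ c : ℂ, (wr (PP (p x)) (QQ (p x))).eval c = 0 →
      ¬ Att d (PP (p x)) (QQ (p x)) (c : OnePoint ℂ) →
      ∃ v : Fin n → ℂ, ∑' j, term (PP (p x)) (QQ (p x)) (varS (p x) (fderiv ℂ p x v)) c j ≠ 0) :
    (∃ 𝒱 : Finset (Submodule ℂ (Fin n → ℂ)), 𝒱.card ≤ 2 * (d - 1) ∧ (∀ V ∈ 𝒱, V ≠ ⊤) ∧
      ∀ b : Fin n → ℂ, (∀ V ∈ 𝒱, b ∉ V) →
        Rate fun r => volume {s : ℂ | ‖s‖ < r ∧ p (x + s • b) ∈ rbad d}) ∧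
    Tendsto (fun r : ℝ => volume ({y | p y ∈ rbad d} ∩ ball x r) / volume (ball x r))
      (𝓝[>] 0) (𝓝 0) := by
  classical
  have hN := B.N
  obtain ⟨P, hP⟩ : ∃ P, PP (p x) = P := ⟨_, rfl⟩
  obtain ⟨Q, hQ⟩ : ∃ Q, QQ (p x) = Q := ⟨_, rfl⟩
  rw [hP, hQ] at B htr hN
  obtain ⟨bad, hbad⟩ : ∃ bad : Finset ℂ,
      (∀ c, c ∈ bad ↔ (wr P Q).eval c = 0 ∧ ¬ Att d P Q (c : OnePoint ℂ)) ∧
      bad.card ≤ 2 * (d - 1) := by
    refine ⟨(wr P Q).roots.toFinset.filter (fun c => ¬ Att d P Q (c : OnePoint ℂ)),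
      fun c => ?_, ?_⟩
    · rw [Finset.mem_filter, Multiset.mem_toFinset, Polynomial.mem_roots hN]
      rfl
    · refine (Finset.card_filter_le _ _).trans ((Multiset.toFinset_card_le _).trans
        ((Polynomial.card_roots' _).trans ?_))
      have := wr_natDegree (P := P) (Q := Q) (d := d) (by have := B.hd; omega) B.Pd B.Qd.le
      have := B.hd
      omega
  obtain ⟨hbad, hcard⟩ := hbad
  have hL : ∀ c : ℂ, ∃ L : (Fin n → ℂ) →ₗ[ℂ] ℂ, c ∈ bad →
      ∀ v, L v = ∑' j, term P Q (varS (p x) (fderiv ℂ p x v)) c j := by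
    intro c
    by_cases hc : c ∈ bad
    · obtain ⟨L, hL⟩ := exists_form B (p x) (fderiv ℂ p x) ((hbad c).1 hc).1 ((hbad c).1 hc).2
      exact ⟨L, fun _ => hL⟩
    · exact ⟨0, fun h => absurd h hc⟩
  choose L hL using hL
  have h𝒱top : ∀ V ∈ bad.image fun c => LinearMap.ker (L c), V ≠ ⊤ := by
    intro V hV htop
    obtain ⟨c, hc, rfl⟩ := Finset.mem_image.1 hV
    obtain ⟨v, hv⟩ := htr c ((hbad c).1 hc).1 ((hbad c).1 hc).2
    have h1 : v ∈ LinearMap.ker (L c) := by rw [htop]; trivial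
    rw [LinearMap.mem_ker, hL c hc] at h1
    exact hv h1
  have hrate : ∀ b : Fin n → ℂ, (∀ V ∈ bad.image fun c => LinearMap.ker (L c), b ∉ V) →
      Rate fun r => volume {s : ℂ | ‖s‖ < r ∧ p (x + s • b) ∈ rbad d} := by
    intro b hb
    -- the line
    have hline : Continuous fun s : ℂ => x + s • b := by fun_prop
    have hUs : ∀ᶠ s : ℂ in 𝓝 0, x + s • b ∈ U := by
      have h1 : (fun s : ℂ => x + s • b) 0 ∈ U := by simpa using hx
      exact hline.continuousAt.eventually (hU.mem_nhds h1)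
    obtain ⟨ρ, hρ, hρs⟩ := Metric.mem_nhds_iff.1 hUs
    have hld : ∀ s : ℂ, HasDerivAt (fun s : ℂ => x + s • b) b s := by
      intro s
      have h1 : HasDerivAt (fun s : ℂ => s • b) ((1 : ℂ) • b) s := (hasDerivAt_id s).smul_const b
      rw [one_smul] at h1
      exact h1.const_add x
    have hpd : ∀ s : ℂ, ‖s‖ < ρ → HasDerivAt (fun s : ℂ => p (x + s • b))
        (fderiv ℂ p (x + s • b) b) s := by
      intro s hs
      have h1 : x + s • b ∈ U := hρs (mem_ball_zero_iff.2 hs)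
      have h2 : HasFDerivAt p (fderiv ℂ p (x + s • b)) (x + s • b) :=
        ((hp _ h1).differentiableAt (hU.mem_nhds h1)).hasFDerivAt
      exact h2.comp_hasDerivAt s (hld s)
    have e0 : x + (0 : ℂ) • b = x := by simp
    have hpv : HasDerivAt (fun s : ℂ => p (x + s • b)) (fderiv ℂ p x b) 0 := by
      have h1 := hpd 0 (by simpa using hρ)
      rwa [e0] at h1
    refine core hPU hIN B.hd (p := fun s : ℂ => p (x + s • b)) (v := fderiv ℂ p x b) hρ
      (fun s hs => (hpd s hs).differentiableAt) hpv (P := P) (Q := Q)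
      (by simp only [e0]; exact hP) (by simp only [e0]; exact hQ) B.cop B.Qd B.inf B.CE ?_
    intro c hc hA
    refine ⟨B.term hc hA _, fun h0 => ?_⟩
    have hcb : c ∈ bad := (hbad c).2 ⟨hc, hA⟩
    refine hb _ (Finset.mem_image_of_mem _ hcb) ?_
    rw [LinearMap.mem_ker, hL c hcb]
    simp only [e0] at h0
    exact h0
  obtain ⟨r₀, hr₀, hr₀U⟩ := Metric.isOpen_iff.1 hU x hx
  have hmeas : MeasurableSet ({y | p y ∈ rbad d} ∩ ball x r₀) := by
    have h1 : IsOpen (ball x r₀ ∩ p ⁻¹' {y : EE d | GoodR d (PP y) (QQ y)}) :=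
      (hp.continuousOn.mono hr₀U).isOpen_inter_preimage isOpen_ball
        (goodE_open (by have := B.hd; omega))
    have h2 : {y | p y ∈ rbad d} ∩ ball x r₀ =
        ball x r₀ \ (ball x r₀ ∩ p ⁻¹' {y : EE d | GoodR d (PP y) (QQ y)}) := by
      ext y
      simp only [rbad, Set.mem_inter_iff, Set.mem_diff, Set.mem_preimage, Set.mem_ofPred_eq]
      tauto
    rw [h2]
    exact measurableSet_ball.diff h1.measurableSet
  refine ⟨⟨bad.image fun c => LinearMap.ker (L c), Finset.card_image_le.trans hcard, h𝒱top,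
    hrate⟩, ?_⟩
  exact Pool.Agent.H190.AD211.t_BALL (Fin n) {y | p y ∈ rbad d} x r₀ hr₀ hmeas _ h𝒱top
    fun b hb => hrate b hb

/-- **The strata are transversal.** -/
theorem strat_tr (hTR : S_TRST) (hDI : S_DIM) (hTA : S_TANF) {d n : ℕ} {p : (Fin n → ℂ) → EE d}
    {x : Fin n → ℂ} (hp : DifferentiableAt ℂ p x) (B : Base d (PP (p x)) (QQ (p x)))
    (hdeg : (wr (PP (p x)) (QQ (p x))).natDegree = 2 * d - 2)
    (hpole : ∀ c : ℂ, (wr (PP (p x)) (QQ (p x))).eval c = 0 → (QQ (p x)).eval c ≠ 0)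
    {r : ℕ} {c : Fin r → (Fin n → ℂ) → ℂ} {m : Fin r → ℕ}
    (hc : ∀ i, DifferentiableAt ℂ (c i) x)
    (hcm : ∀ i, ∀ᶠ y in 𝓝 x, (X - C (c i y)) ^ m i ∣ wr (PP (p y)) (QQ (p y)))
    (hcQ : ∀ i, (QQ (p x)).eval (c i x) ≠ 0)
    (hcx : ∀ z : ℂ, (wr (PP (p x)) (QQ (p x))).eval z = 0 → ∃ i, c i x = z ∧
      (wr (PP (p x)) (QQ (p x))).rootMultiplicity z = m i)
    (hcv : ∀ i j, rf (PP (p x)) (QQ (p x)) (c i x) = rf (PP (p x)) (QQ (p x)) (c j x) →
      ∀ᶠ y in 𝓝 x, rf (PP (p y)) (QQ (p y)) (c i y) = rf (PP (p y)) (QQ (p y)) (c j y))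
    (himm : ∀ v : Fin n → ℂ, varS (p x) (fderiv ℂ p x v) = 0 → v = 0)
    (hn : n = ((wr (PP (p x)) (QQ (p x))).roots.toFinset.image
      (rf (PP (p x)) (QQ (p x)))).card + 3) :
    ∀ c : ℂ, (wr (PP (p x)) (QQ (p x))).eval c = 0 →
      ¬ Att d (PP (p x)) (QQ (p x)) (c : OnePoint ℂ) →
      ∃ v : Fin n → ℂ,
        ∑' j, term (PP (p x)) (QQ (p x)) (varS (p x) (fderiv ℂ p x v)) c j ≠ 0 := by
  intro e he hA
  have hN := B.N
  have hdense : Dense {z : ℂ | Att d (PP (p x)) (QQ (p x)) (z : OnePoint ℂ)} := by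
    apply Measure.dense_of_ae (μ := volume)
    rw [ae_iff]
    exact B.null
  have hcl : volume (closure (Set.range fun j => (rf (PP (p x)) (QQ (p x)))^[j]
      (rf (PP (p x)) (QQ (p x)) e))) = 0 := by
    refine measure_mono_null ?_ B.null
    refine closure_minimal ?_ B.cpt.isClosed
    rintro _ ⟨j, rfl⟩
    have h2 := (B.stay hA (j + 1)).1
    rwa [Function.iterate_succ_apply] at h2
  obtain ⟨S, hSd, hST, hS⟩ := hTR (PP (p x)) (QQ (p x)) d B.hd B.cop B.Pd B.Qd hpole e he hN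
    {z : ℂ | ¬ Att d (PP (p x)) (QQ (p x)) (z : OnePoint ℂ)} B.cpt
    (fun j => (B.stay hA j).1) (fun z hz => B.KQ hz) (B.ne he hA) (B.summ he hA)
    {z : ℂ | Att d (PP (p x)) (QQ (p x)) (z : OnePoint ℂ)}
    ((att_open (by have := B.hd; omega) B.cop B.Pd B.Qd).preimage OnePoint.continuous_coe)
    hdense (fun z hz h => h hz) (wandering_att B.hd B.cop B.Qd) hcl
  -- the tangent map
  let T : (Fin n → ℂ) →ₗ[ℂ] ℂ[X] :=
    { toFun := fun v => varS (p x) (fderiv ℂ p x v)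
      map_add' := fun a b => by rw [map_add, varS_add]
      map_smul' := fun s b => by
        rw [map_smul, varS_smul, RingHom.id_apply, ← Polynomial.smul_eq_C_mul] }
  have hTv : ∀ v, T v = varS (p x) (fderiv ℂ p x v) := fun v => rfl
  have hTinj : Function.Injective T := by
    rw [← LinearMap.ker_eq_bot, LinearMap.ker_eq_bot']
    intro v hv
    exact himm v hv
  have hTT : ∀ v, (T v).natDegree ≤ 2 * d ∧ Tan (PP (p x)) (QQ (p x)) (T v) := by
    intro v
    refine ⟨varS_deg _ _, ?_⟩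
    rw [hTv]
    have hl : ContinuousAt (fun s : ℂ => x + s • v) 0 := by fun_prop
    have e0 : x + (0 : ℂ) • v = x := by simp
    have hlt : Tendsto (fun s : ℂ => x + s • v) (𝓝 0) (𝓝 x) := by
      have := hl.tendsto
      rwa [e0] at this
    have hld : HasDerivAt (fun s : ℂ => x + s • v) v 0 := by
      have h1 : HasDerivAt (fun s : ℂ => s • v) ((1 : ℂ) • v) 0 :=
        (hasDerivAt_id (0 : ℂ)).smul_const v
      rw [one_smul] at h1
      exact h1.const_add x
    have h1 := hTA d (fun s : ℂ => p (x + s • v)) (fderiv ℂ p x v)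
      (by
        have h2 : HasFDerivAt p (fderiv ℂ p x) (x + (0 : ℂ) • v) := by
          rw [e0]; exact hp.hasFDerivAt
        exact h2.comp_hasDerivAt (0 : ℂ) hld)
      r (fun i s => c i (x + s • v)) m
      (by
        intro i
        have h2 : DifferentiableAt ℂ (c i) (x + (0 : ℂ) • v) := by rw [e0]; exact hc i
        exact DifferentiableAt.comp (0 : ℂ) h2 hld.differentiableAt)
      (fun i => hlt.eventually (hcm i))
      (by intro i; simp only [e0]; exact hcQ i)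
      (by
        intro z hz
        simp only [e0] at hz ⊢
        exact hcx z hz)
      (by
        intro i j hij
        simp only [e0] at hij
        exact hlt.eventually (hcv i j hij))
    simp only [e0] at h1
    exact h1
  obtain ⟨v, hv⟩ := hDI (PP (p x)) (QQ (p x)) d B.hd hdeg hN hpole n T hTinj hTT hn S hSd hST
  exact ⟨v, by rw [← hTv, hv]; exact hS⟩

end Pool.Agent.H207.TF
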