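import Pool.Agent.H207.TF.CoreW
import Pool.Agent.H207.TF.Fam

/-! Project TF: maps with summable critical orbits. -/

set_option autoImplicit false

open Metric Set MeasureTheory Filter Topology Polynomial
open scoped OnePoint ENNReal

namespace Pool.Agent.H207.TF

open Pool.Agent.Helper114.Herman
open Pool.Agent.H792R2.CE Pool.Agent.H792R2
open Pool.Agent.H211.LR Pool.Agent.H211.AD
open Pool.Agent.H211.LD (avg)

/-- almost every point is attracted and the critical points which are not attracted are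
summable -/
structure SBase (d : ℕ) (P Q : ℂ[X]) : Prop where
  hd : 2 ≤ d
  cop : IsCoprime P Q
  Pd : P.natDegree ≤ d
  Qd : Q.natDegree = d
  inf : Att d P Q ∞
  null : volume {z : ℂ | ¬ Att d P Q (z : OnePoint ℂ)} = 0
  ne : ∀ {c : ℂ}, (wr P Q).eval c = 0 → ¬ Att d P Q (c : OnePoint ℂ) → ∀ j : ℕ,
    deriv ((rf P Q)^[j]) (rf P Q c) ≠ 0
  summ : ∀ {c : ℂ}, (wr P Q).eval c = 0 → ¬ Att d P Q (c : OnePoint ℂ) →
    Summable fun m => ‖deriv ((rf P Q)^[m]) (rf P Q c)‖⁻¹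

theorem Base.toS {d : ℕ} {P Q : ℂ[X]} (B : Base d P Q) : SBase d P Q :=
  ⟨B.hd, B.cop, B.Pd, B.Qd, B.inf, B.null, fun hc hA => B.ne hc hA, fun hc hA => B.summ hc hA⟩

section
variable {d : ℕ} {P Q : ℂ[X]}

theorem SBase.N (B : SBase d P Q) : wr P Q ≠ 0 :=
  wr_ne_zero (by have := B.hd; omega) B.cop B.Qd

theorem SBase.cont (B : SBase d P Q) : Continuous (sph d P Q) :=
  B1_continuous B.cop B.Pd B.Qd

theorem SBase.cpt (B : SBase d P Q) : IsCompact {z : ℂ | ¬ Att d P Q (z : OnePoint ℂ)} :=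
  natt_compact (by have := B.hd; omega) B.cop B.Pd B.Qd B.inf

theorem SBase.stay (B : SBase d P Q) {z : ℂ} (hz : ¬ Att d P Q (z : OnePoint ℂ)) (n : ℕ) :
    ¬ Att d P Q (((rf P Q)^[n] z : ℂ) : OnePoint ℂ) ∧ Q.eval ((rf P Q)^[n] z) ≠ 0 :=
  natt_iter B.cont B.inf hz n

theorem SBase.KQ (B : SBase d P Q) {z : ℂ} (hz : ¬ Att d P Q (z : OnePoint ℂ)) :
    Q.eval z ≠ 0 := by
  have := (B.stay hz 0).2
  simpa using this

/-- summability of the transversality sums -/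
theorem SBase.term (B : SBase d P Q) {c : ℂ} (hc : (wr P Q).eval c = 0)
    (hA : ¬ Att d P Q (c : OnePoint ℂ)) (S : ℂ[X]) : Summable (term P Q S c) := by
  obtain ⟨M, hM⟩ := B.cpt.exists_bound_of_continuousOn
    (f := fun z => S.eval z / Q.eval z ^ 2)
    (S.continuous.continuousOn.div (Q.continuous.continuousOn.pow 2)
      fun z hz => pow_ne_zero _ (B.KQ hz))
  refine Summable.of_norm_bounded ((B.summ hc hA).mul_left M) fun j => ?_
  unfold TF.term
  rw [div_eq_mul_inv, norm_mul, norm_inv]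
  exact mul_le_mul_of_nonneg_right (hM _ (B.stay hA j).1) (by positivity)

theorem SBase.dense (B : SBase d P Q) : Dense {z : ℂ | Att d P Q (z : OnePoint ℂ)} := by
  apply Measure.dense_of_ae (μ := volume)
  rw [ae_iff]
  exact B.null

theorem SBase.open (B : SBase d P Q) : IsOpen {z : ℂ | Att d P Q (z : OnePoint ℂ)} :=
  (att_open (by have := B.hd; omega) B.cop B.Pd B.Qd).preimage OnePoint.continuous_coe

/-- the transversality sum as a linear form -/
theorem exists_formS (B : SBase d P Q) {n : ℕ} (x : EE d)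
    (D : (Fin n → ℂ) →L[ℂ] EE d) {c : ℂ} (hc : (wr P Q).eval c = 0)
    (hA : ¬ Att d P Q (c : OnePoint ℂ)) :
    ∃ L : (Fin n → ℂ) →ₗ[ℂ] ℂ, ∀ v, L v = ∑' j, term P Q (varS x (D v)) c j := by
  refine ⟨{ toFun := fun v => ∑' j, term P Q (varS x (D v)) c j
            map_add' := ?_
            map_smul' := ?_ }, fun v => rfl⟩
  · intro a b
    rw [← (B.term hc hA _).tsum_add (B.term hc hA _)]
    refine tsum_congr fun j => ?_
    unfold TF.term
    rw [map_add, varS_add, Polynomial.eval_add]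
    ring
  · intro s b
    rw [RingHom.id_apply, smul_eq_mul, ← tsum_mul_left]
    refine tsum_congr fun j => ?_
    unfold TF.term
    rw [map_smul, varS_smul, Polynomial.eval_mul, Polynomial.eval_C]
    ring

end

/-- **Transversal families, weakly expanding maps.** -/
theorem famW (hPU : S_PUIS) (hIN : S_INSTG) {d n : ℕ} {p : (Fin n → ℂ) → EE d}
    {U : Set (Fin n → ℂ)} (hU : IsOpen U) {x : Fin n → ℂ} (hx : x ∈ U)
    (hp : DifferentiableOn ℂ p U) (B : SBase d (PP (p x)) (QQ (p x))) {μ : ℝ} (hμ : 1 < μ)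
    (hexp : ∃ᶠ n : ℕ in atTop, GrR d (PP (p x)) (QQ (p x)) μ n)
    (htr : ∀ c : ℂ, (wr (PP (p x)) (QQ (p x))).eval c = 0 →
      ¬ Att d (PP (p x)) (QQ (p x)) (c : OnePoint ℂ) →
      ∃ v : Fin n → ℂ, ∑' j, term (PP (p x)) (QQ (p x)) (varS (p x) (fderiv ℂ p x v)) c j ≠ 0) :
    (∃ 𝒱 : Finset (Submodule ℂ (Fin n → ℂ)), 𝒱.card ≤ 2 * (d - 1) ∧ (∀ V ∈ 𝒱, V ≠ ⊤) ∧
      ∀ b : Fin n → ℂ, (∀ V ∈ 𝒱, b ∉ V) →
        liminf (fun N => avg (propLine {y | p y ∈ rbad d} x b) N) atTop = 0) ∧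
    liminf (fun N => avg (prop {y | p y ∈ rbad d} x) N) atTop = 0 := by
  classical
  have hN := B.N
  obtain ⟨P, hP⟩ : ∃ P, PP (p x) = P := ⟨_, rfl⟩
  obtain ⟨Q, hQ⟩ : ∃ Q, QQ (p x) = Q := ⟨_, rfl⟩
  rw [hP, hQ] at B htr hN hexp
  obtain ⟨bad, hbad⟩ : ∃ bad : Finset ℂ,
      (∀ c, c ∈ bad ↔ (wr P Q).eval c = 0 ∧ ¬ Att d P Q (c : OnePoint ℂ)) ∧
      bad.card ≤ 2 * (d - 1) := by
    refine ⟨(wr P Q).roots.toFinset.filter (fun c => ¬ Att d P Q (c : OnePoint ℂ)),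
      fun c => ?_, ?_⟩
    · rw [Finset.mem_filter, Multiset.mem_toFinset, Polynomial.mem_roots hN]
      rfl
    · refine (Finset.card_filter_le _ _).trans ((Multiset.toFinset_card_le _).trans
        ((Polynomial.card_roots' _).trans ?_))
      have := wr_natDegree (P := P) (Q := Q) (d := d) (by have := B.hd; omega) B.Pd B.Qd.le
      have := B.hd
      omega
  obtain ⟨hbad, hcard⟩ := hbad
  have hL : ∀ c : ℂ, ∃ L : (Fin n → ℂ) →ₗ[ℂ] ℂ, c ∈ bad →
      ∀ v, L v = ∑' j, term P Q (varS (p x) (fderiv ℂ p x v)) c j := by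
    intro c
    by_cases hc : c ∈ bad
    · obtain ⟨L, hL⟩ := exists_formS B (p x) (fderiv ℂ p x) ((hbad c).1 hc).1 ((hbad c).1 hc).2
      exact ⟨L, fun _ => hL⟩
    · exact ⟨0, fun h => absurd h hc⟩
  choose L hL using hL
  have h𝒱top : ∀ V ∈ bad.image fun c => LinearMap.ker (L c), V ≠ ⊤ := by
    intro V hV htop
    obtain ⟨c, hc, rfl⟩ := Finset.mem_image.1 hV
    obtain ⟨v, hv⟩ := htr c ((hbad c).1 hc).1 ((hbad c).1 hc).2
    have h1 : v ∈ LinearMap.ker (L c) := by rw [htop]; trivial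
    rw [LinearMap.mem_ker, hL c hc] at h1
    exact hv h1
  have hscale : ∀ b : Fin n → ℂ, (∀ V ∈ bad.image fun c => LinearMap.ker (L c), b ∉ V) →
      ScalesOk {y | p y ∈ rbad d} x (GrR d P Q μ) b := by
    intro b hb
    -- the line
    have hline : Continuous fun s : ℂ => x + s • b := by fun_prop
    have hUs : ∀ᶠ s : ℂ in 𝓝 0, x + s • b ∈ U := by
      have h1 : (fun s : ℂ => x + s • b) 0 ∈ U := by simpa using hx
      exact hline.continuousAt.eventually (hU.mem_nhds h1)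
    obtain ⟨ρ, hρ, hρs⟩ := Metric.mem_nhds_iff.1 hUs
    have hld : ∀ s : ℂ, HasDerivAt (fun s : ℂ => x + s • b) b s := by
      intro s
      have h1 : HasDerivAt (fun s : ℂ => s • b) ((1 : ℂ) • b) s := (hasDerivAt_id s).smul_const b
      rw [one_smul] at h1
      exact h1.const_add x
    have hpd : ∀ s : ℂ, ‖s‖ < ρ → HasDerivAt (fun s : ℂ => p (x + s • b))
        (fderiv ℂ p (x + s • b) b) s := by
      intro s hs
      have h1 : x + s • b ∈ U := hρs (mem_ball_zero_iff.2 hs)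
      have h2 : HasFDerivAt p (fderiv ℂ p (x + s • b)) (x + s • b) :=
        ((hp _ h1).differentiableAt (hU.mem_nhds h1)).hasFDerivAt
      exact h2.comp_hasDerivAt s (hld s)
    have e0 : x + (0 : ℂ) • b = x := by simp
    have hpv : HasDerivAt (fun s : ℂ => p (x + s • b)) (fderiv ℂ p x b) 0 := by
      have h1 := hpd 0 (by simpa using hρ)
      rwa [e0] at h1
    refine coreW hPU hIN B.hd (p := fun s : ℂ => p (x + s • b)) (v := fderiv ℂ p x b) hρ
      (fun s hs => (hpd s hs).differentiableAt) hpv (P := P) (Q := Q)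
      (by simp only [e0]; exact hP) (by simp only [e0]; exact hQ) B.cop B.Qd B.inf B.null hμ
      hexp ?_
    intro c hc hA
    refine ⟨B.term hc hA _, fun h0 => ?_⟩
    have hcb : c ∈ bad := (hbad c).2 ⟨hc, hA⟩
    refine hb _ (Finset.mem_image_of_mem _ hcb) ?_
    rw [LinearMap.mem_ker, hL c hcb]
    simp only [e0] at h0
    exact h0
  obtain ⟨r₀, hr₀, hr₀U⟩ := Metric.isOpen_iff.1 hU x hx
  have hmeas : MeasurableSet ({y | p y ∈ rbad d} ∩ ball x r₀) := by
    have h1 : IsOpen (ball x r₀ ∩ p ⁻¹' {y : EE d | GoodR d (PP y) (QQ y)}) :=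
      (hp.continuousOn.mono hr₀U).isOpen_inter_preimage isOpen_ball
        (goodE_open (by have := B.hd; omega))
    have h2 : {y | p y ∈ rbad d} ∩ ball x r₀ =
        ball x r₀ \ (ball x r₀ ∩ p ⁻¹' {y : EE d | GoodR d (PP y) (QQ y)}) := by
      ext y
      simp only [rbad, Set.mem_inter_iff, Set.mem_sdiff, Set.mem_preimage, Set.mem_ofPred_eq]
      tauto
    rw [h2]
    exact measurableSet_ball.diff h1.measurableSet
  obtain ⟨h1, h2⟩ := combine_freq hr₀ hmeas h𝒱top hexp hscale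
  exact ⟨⟨bad.image fun c => LinearMap.ker (L c), Finset.card_image_le.trans hcard, h𝒱top, h1⟩,
    h2⟩

/-- means of sequences which are eventually at least `1 / 2` -/
theorem avg_ge {x : ℕ → ℝ≥0∞} {k₀ : ℕ} (h : ∀ k ≥ k₀, 1 / 2 ≤ x k) :
    1 / 4 ≤ liminf (fun N => avg x N) atTop := by
  refine le_liminf_of_le (by isBoundedDefault) ?_
  filter_upwards [eventually_ge_atTop (2 * k₀ + 1)] with N hN
  unfold avg
  have hN0 : (N : ℝ≥0∞) ≠ 0 := by
    have : N ≠ 0 := by omega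
    exact_mod_cast this
  rw [ENNReal.le_div_iff_mul_le (Or.inl hN0) (Or.inl (ENNReal.natCast_ne_top N))]
  have h1 : ∑ k ∈ Finset.Ico k₀ N, (1 / 2 : ℝ≥0∞) ≤ ∑ k ∈ Finset.range N, x k := by
    calc ∑ k ∈ Finset.Ico k₀ N, (1 / 2 : ℝ≥0∞) ≤ ∑ k ∈ Finset.Ico k₀ N, x k :=
          Finset.sum_le_sum fun k hk => h k (Finset.mem_Ico.1 hk).1
      _ ≤ _ := Finset.sum_le_sum_of_subset fun k hk =>
          Finset.mem_range.2 (Finset.mem_Ico.1 hk).2
  refine le_trans ?_ h1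
  rw [Finset.sum_const, Nat.card_Ico, nsmul_eq_mul]
  have h2 : (N : ℝ≥0∞) ≤ 2 * ((N - k₀ : ℕ) : ℝ≥0∞) := by
    have : N ≤ 2 * (N - k₀) := by omega
    exact_mod_cast this
  calc 1 / 4 * (N : ℝ≥0∞) ≤ 1 / 4 * (2 * ((N - k₀ : ℕ) : ℝ≥0∞)) := by gcongr
    _ = ((N - k₀ : ℕ) : ℝ≥0∞) * (1 / 2) := by
        have e : (1 / 4 : ℝ≥0∞) * 2 = 1 / 2 := by
          have e1 : (1 / 4 : ℝ≥0∞) = ENNReal.ofReal (1 / 4) := by
            rw [ENNReal.ofReal_div_of_pos (by norm_num)]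
            simp
          have e2 : (1 / 2 : ℝ≥0∞) = ENNReal.ofReal (1 / 2) := by
            rw [ENNReal.ofReal_div_of_pos (by norm_num)]
            simp
          have e3 : (2 : ℝ≥0∞) = ENNReal.ofReal 2 := by simp
          rw [e1, e2, e3, ← ENNReal.ofReal_mul (by norm_num)]
          norm_num
        rw [← mul_assoc, e, mul_comm]

/-- the non-hyperbolic maps of the theorem form a null set in every family -/
theorem fam_nullW (hPU : S_PUIS) (hIN : S_INSTG) {d n : ℕ} {p : (Fin n → ℂ) → EE d}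
    {U : Set (Fin n → ℂ)} (hU : IsOpen U)
    (hp : DifferentiableOn ℂ p U) {A : Set (Fin n → ℂ)} (hAU : A ⊆ U)
    (hB : ∀ x ∈ A, SBase d (PP (p x)) (QQ (p x)))
    (hexp : ∀ x ∈ A, ∃ μ : ℝ, 1 < μ ∧ ∃ᶠ n : ℕ in atTop, GrR d (PP (p x)) (QQ (p x)) μ n)
    (hbad : ∀ x ∈ A, p x ∈ rbad d)
    (htr : ∀ x ∈ A, ∀ c : ℂ, (wr (PP (p x)) (QQ (p x))).eval c = 0 →
      ¬ Att d (PP (p x)) (QQ (p x)) (c : OnePoint ℂ) →
      ∃ v : Fin n → ℂ, ∑' j, term (PP (p x)) (QQ (p x)) (varS (p x) (fderiv ℂ p x v)) c j ≠ 0) :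
    volume A = 0 := by
  have h1 := Besicovitch.ae_tendsto_measure_inter_div (volume : Measure (Fin n → ℂ)) A
  rw [ae_iff] at h1
  have h2 : A ⊆ {a | ¬ Tendsto (fun r => volume (A ∩ closedBall a r) / volume (closedBall a r))
      (𝓝[>] 0) (𝓝 1)} := by
    intro x hx ht
    obtain ⟨μ, hμ, hex⟩ := hexp x hx
    obtain ⟨-, h3⟩ := famW hPU hIN hU (hAU hx) hp (hB x hx) hμ hex (htr x hx)
    have h4 : Tendsto (fun k : ℕ => ((1 / 2 : ℝ) ^ k)) atTop (𝓝[>] 0) := by
      refine tendsto_nhdsWithin_iff.2 ⟨?_, Eventually.of_forall fun k => ?_⟩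
      · exact tendsto_pow_atTop_nhds_zero_of_lt_one (by norm_num) (by norm_num)
      · exact Set.mem_Ioi.2 (by positivity)
    have h5 := (ht.comp h4).eventually (lt_mem_nhds (show (1 / 2 : ℝ≥0∞) < 1 by
      rw [ENNReal.div_lt_iff (by simp) (by simp)]
      norm_num))
    obtain ⟨k₀, hk₀⟩ := Filter.eventually_atTop.1 h5
    have h6 : ∀ k ≥ k₀, 1 / 2 ≤ prop {y | p y ∈ rbad d} x k := by
      intro k hk
      refine (hk₀ k hk).le.trans ?_
      have hr' : ((1 / 2 : ℝ) ^ k) ≠ 0 := by positivity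
      obtain ⟨r, hr⟩ : ∃ r, r = (1 / 2 : ℝ) ^ k := ⟨_, rfl⟩
      rw [Function.comp, prop, ← hr]
      rw [← hr] at hr'
      refine ENNReal.div_le_div ?_ (measure_mono ball_subset_closedBall)
      calc volume (A ∩ closedBall x r) ≤ volume (({y | p y ∈ rbad d} ∩ ball x r) ∪ sphere x r) := by
            apply measure_mono
            rintro y ⟨hy1, hy2⟩
            rcases (mem_closedBall.1 hy2).lt_or_eq with h | h
            · exact Or.inl ⟨hbad y hy1, mem_ball.2 h⟩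
            · exact Or.inr (mem_sphere.2 h)
        _ ≤ volume ({y | p y ∈ rbad d} ∩ ball x r) + volume (sphere x r) := measure_union_le _ _
        _ = volume ({y | p y ∈ rbad d} ∩ ball x r) := by
            rw [Measure.addHaar_sphere_of_ne_zero _ x hr', add_zero]
    have h7 := avg_ge h6
    rw [h3] at h7
    simp at h7
  have h3 := measure_mono_null h2 h1
  rwa [Measure.restrict_apply_self] at h3

/-- Collet-Eckmann maps are weakly expanding -/
theorem Base.grow {d : ℕ} {P Q : ℂ[X]} (B : Base d P Q) :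
    ∃ μ : ℝ, 1 < μ ∧ ∃ᶠ n : ℕ in atTop, GrR d P Q μ n := by
  classical
  have h1 : ∀ c ∈ (wr P Q).roots.toFinset, ∃ μ : ℝ, 1 < μ ∧
      (Att d P Q (c : OnePoint ℂ) ∨
        ∀ᶠ n : ℕ in atTop, μ ^ n ≤ ‖deriv ((rf P Q)^[n]) (rf P Q c)‖) := by
    intro c hc
    have hc' : (wr P Q).eval c = 0 := by
      rw [Multiset.mem_toFinset, Polynomial.mem_roots B.N] at hc
      exact hc
    rcases B.CE c hc' with h | ⟨μ, hμ, h⟩
    · exact ⟨2, one_lt_two, Or.inl h⟩
    · exact ⟨μ, hμ, Or.inr h⟩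
  choose! m hm1 hm2 using h1
  have h2 : ∀ᶠ μ : ℝ in 𝓝[>] 1, ∀ c ∈ (wr P Q).roots.toFinset, μ ≤ m c := by
    rw [Filter.eventually_all_finset]
    intro c hc
    have h3 : ∀ᶠ μ : ℝ in 𝓝 1, μ < m c := Iio_mem_nhds (hm1 c hc)
    filter_upwards [h3.filter_mono nhdsWithin_le_nhds] with μ hμ using hμ.le
  obtain ⟨μ, h3, h4⟩ := (h2.and self_mem_nhdsWithin).exists
  have hμ : 1 < μ := h4
  refine ⟨μ, hμ, Filter.Eventually.frequently ?_⟩
  have h5 : ∀ᶠ n : ℕ in atTop, ∀ c ∈ (wr P Q).roots.toFinset, Att d P Q (c : OnePoint ℂ) ∨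
      μ ^ n ≤ ‖deriv ((rf P Q)^[n]) (rf P Q c)‖ := by
    rw [Filter.eventually_all_finset]
    intro c hc
    rcases hm2 c hc with h | h
    · exact Eventually.of_forall fun _ => Or.inl h
    · filter_upwards [h] with n hn
      exact Or.inr ((pow_le_pow_left₀ (by linarith) (h3 c hc) n).trans hn)
  filter_upwards [h5] with n hn c hc
  have hc' : c ∈ (wr P Q).roots.toFinset := by
    rw [Multiset.mem_toFinset, Polynomial.mem_roots B.N]
    exact hc
  exact (hn c hc').imp id fun h => ⟨n, le_rfl, h⟩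

end Pool.Agent.H207.TF
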