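import Pool.Agent.H207.TF.Par3
import Pool.Agent.H207.TF.SB
import Pool.Agent.H277.TF207.HENS
import Pool.Agent.H227.TF207.MPUI
import Pool.Agent.H686.TF207.PUIS
import Pool.Agent.H591.TF207.INSTG
import Pool.Agent.H784.TF207.TANR
import Pool.Agent.H788.TF207.PFX
import Pool.Agent.H650.TF207.INV0
import Pool.Agent.H353.TF207.GOODX
import Pool.Agent.H356.TF207.ORBD
import Pool.Agent.H350.TF207.WRD
import Pool.Agent.H167.TF207.SOLVE
import Pool.Graph.R_seed8.H792R2.CE.D8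
import Pool.Graph.R_seed8.H792R2.CE.E1

/-! Project TF: the final theorems, in the notation of the project. -/

set_option autoImplicit false

open Metric Set MeasureTheory Filter Topology Polynomial
open scoped OnePoint ENNReal

namespace Pool.Agent.H207.TF

open Pool.Agent.H792R2.CE Pool.Agent.H792R2
open Pool.Agent.H211.LR Pool.Agent.H211.AD

/-! ### the ingredients -/

theorem a_PUIS : S_PUIS :=
  Pool.Agent.H686.TF207.t_PUIS (Pool.Agent.H227.TF207.t_MPUI Pool.Agent.H277.TF207.t_HENS)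

/-! ### attracted orbits -/

theorem att_fwd {d : ℕ} {P Q : ℂ[X]} (hcont : Continuous (sph d P Q)) (hinf : Att d P Q ∞) {c : ℂ}
    (hc : Att d P Q (c : OnePoint ℂ)) {j : ℕ} (hj : ∀ i < j, Q.eval ((rf P Q)^[i] c) ≠ 0) :
    Att d P Q (((rf P Q)^[j] c : ℂ) : OnePoint ℂ) := by
  by_contra hA
  have h1 : ∀ m, (sph d P Q)^[j + m] (c : OnePoint ℂ) =
      (((rf P Q)^[m] ((rf P Q)^[j] c) : ℂ) : OnePoint ℂ) := by
    intro m
    rw [add_comm, Function.iterate_add_apply, D8x.sph_iter hj]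
    exact D8x.sph_iter fun i _ => (natt_iter hcont hinf hA i).2
  obtain ⟨n, hn, z, hz1, hz2, hz3, hz4⟩ := hc
  have h2 : j ≤ n * (j + 1) := by nlinarith
  obtain ⟨m, hm⟩ := Nat.exists_eq_add_of_le h2
  refine (natt_iter hcont hinf hA m).1 ⟨n, hn, z, hz1, hz2, hz3, ?_⟩
  rw [← h1 m, ← hm]
  have h3 : ∀ k : ℕ, (sph d P Q)^[n * k] ((sph d P Q)^[n * (j + 1)] (c : OnePoint ℂ)) =
      (sph d P Q)^[n * (k + (j + 1))] (c : OnePoint ℂ) := by
    intro k
    rw [← Function.iterate_add_apply, ← Nat.mul_add]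
  simp only [h3]
  exact (tendsto_add_atTop_iff_nat (j + 1)).2 hz4

/-! ### infinitesimal conjugations -/

/-- the infinitesimal conjugation by the vector field `α + β z + γ z ^ 2` -/
noncomputable def conjS (P Q : ℂ[X]) (α β γ : ℂ) : ℂ[X] :=
  C α * Q ^ 2 + C β * (P * Q) + C γ * P ^ 2 - wr P Q * (C α + C β * X + C γ * X ^ 2)

/-- the transversality sums vanish on the infinitesimal conjugations -/
theorem conj_tsum {d : ℕ} {P Q : ℂ[X]} (B : SBase d P Q) {c : ℂ} (hc : (wr P Q).eval c = 0)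
    (hA : ¬ Att d P Q (c : OnePoint ℂ)) (α β γ : ℂ) : ∑' j, term P Q (conjS P Q α β γ) c j = 0 := by
  have hQ : ∀ j, Q.eval ((rf P Q)^[j] c) ≠ 0 := fun j => (B.stay hA j).2
  obtain ⟨h, hh⟩ : ∃ h : ℂ → ℂ, h = fun z => α + β * z + γ * z ^ 2 := ⟨_, rfl⟩
  have hS : ∀ z, Q.eval z ≠ 0 → (conjS P Q α β γ).eval z / Q.eval z ^ 2 =
      h (rf P Q z) - (wr P Q).eval z / Q.eval z ^ 2 * h z := by
    intro z hz
    unfold conjS
    rw [hh]
    simp only [Polynomial.eval_sub, Polynomial.eval_add, Polynomial.eval_mul, Polynomial.eval_C,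
      Polynomial.eval_pow, Polynomial.eval_X, rf]
    field_simp
  obtain ⟨g, hg⟩ : ∃ g : ℕ → ℂ, g = fun j => h ((rf P Q)^[j + 1] c) /
      deriv ((rf P Q)^[j]) (rf P Q c) := ⟨_, rfl⟩
  have hne := B.ne hc hA
  have ht0 : term P Q (conjS P Q α β γ) c 0 = g 0 := by
    unfold TF.term
    rw [hS _ (hQ 0), hg]
    simp only [Function.iterate_zero, id_eq, hc, zero_div, zero_mul, sub_zero, zero_add,
      Function.iterate_one]
  have htS : ∀ j, term P Q (conjS P Q α β γ) c (j + 1) = g (j + 1) - g j := by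
    intro j
    unfold TF.term
    rw [hS _ (hQ (j + 1)), hg, sub_div]
    have e1 : rf P Q ((rf P Q)^[j + 1] c) = (rf P Q)^[j + 1 + 1] c :=
      (Function.iterate_succ_apply' _ _ _).symm
    rw [e1]
    congr 1
    have h2 := E1x.deriv_succ hQ j
    have h3 := hne (j + 1)
    rw [h2] at h3 ⊢
    obtain ⟨h4, h5⟩ := mul_ne_zero_iff.1 h3
    exact mul_div_mul_left _ _ h4
  have hsum := B.term hc hA (conjS P Q α β γ)
  have hpart : ∀ n, ∑ j ∈ Finset.range (n + 1), term P Q (conjS P Q α β γ) c j = g n := by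
    intro n
    induction n with
    | zero => rw [zero_add, Finset.sum_range_one, ht0]
    | succ n ih =>
      rw [Finset.sum_range_succ, ih, htS]
      ring
  have hg0 : Tendsto g atTop (𝓝 0) := by
    obtain ⟨M, hM⟩ := B.cpt.exists_bound_of_continuousOn (f := h) (by
      rw [hh]
      fun_prop)
    have hs := (B.summ hc hA).tendsto_atTop_zero.const_mul M
    rw [mul_zero] at hs
    refine squeeze_zero_norm (fun j => ?_) hs
    rw [hg]
    simp only
    rw [div_eq_mul_inv, norm_mul, norm_inv]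
    exact mul_le_mul_of_nonneg_right (hM _ (B.stay hA (j + 1)).1) (by positivity)
  have h1 := (hsum.hasSum.tendsto_sum_nat.comp (tendsto_add_atTop_nat 1))
  have h2 : Tendsto (fun n => ∑ j ∈ Finset.range (n + 1), term P Q (conjS P Q α β γ) c j) atTop
      (𝓝 (∑' j, term P Q (conjS P Q α β γ) c j)) := h1
  simp only [hpart] at h2
  exact tendsto_nhds_unique h2 hg0

/-! ### transversality of the families which contain the deformations -/

/-- the relations between orbits which are attracted or infinite -/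
def OkR (d : ℕ) (P Q : ℂ[X]) (ρ : Reln) : Prop :=
  (wr P Q).eval ρ.c = 0 ∧ (wr P Q).eval ρ.c' = 0 ∧
    (rf P Q)^[ρ.n] ρ.c = (rf P Q)^[ρ.n'] ρ.c' ∧
    (∀ j < ρ.n, Q.eval ((rf P Q)^[j] ρ.c) ≠ 0) ∧ (∀ j < ρ.n', Q.eval ((rf P Q)^[j] ρ.c') ≠ 0) ∧
    (Att d P Q (ρ.c : OnePoint ℂ) ∨ Function.Injective fun j => (rf P Q)^[j] ρ.c) ∧
    (Att d P Q (ρ.c' : OnePoint ℂ) ∨ Function.Injective fun j => (rf P Q)^[j] ρ.c')

theorem OkR.ok {d : ℕ} {P Q : ℂ[X]} (B : SBase d P Q) {ρ : Reln} (h : OkR d P Q ρ) :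
    ρ.Ok P Q {z : ℂ | Att d P Q (z : OnePoint ℂ)} := by
  obtain ⟨h1, h2, h3, h4, h5, h6, h7⟩ := h
  refine ⟨h1, h2, h3, h4, h5, h6.imp (fun h j hj => ?_) id, h7.imp (fun h j hj => ?_) id⟩
  · exact att_fwd B.cont B.inf h fun i hi => h4 i (by omega)
  · exact att_fwd B.cont B.inf h fun i hi => h5 i (by omega)

/-- **Transversality modulo conjugations.** -/
theorem famB {d n : ℕ} {p : (Fin n → ℂ) → EE d} {x : Fin n → ℂ}
    (B : SBase d (PP (p x)) (QQ (p x)))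
    (hpole : ∀ c : ℂ, (wr (PP (p x)) (QQ (p x))).eval c = 0 → (QQ (p x)).eval c ≠ 0)
    {R : List Reln} (hR : ∀ ρ ∈ R, OkR d (PP (p x)) (QQ (p x)) ρ)
    (hcov : ∀ (S : ℂ[X]) (u κ : ℂ → ℂ), S.natDegree ≤ 2 * d →
      Dfm (PP (p x)) (QQ (p x)) S u κ → (∀ ρ ∈ R, ρ.Keep (PP (p x)) (QQ (p x)) S κ) →
      ∃ (v : Fin n → ℂ) (α β γ : ℂ),
        S = varS (p x) (fderiv ℂ p x v) + conjS (PP (p x)) (QQ (p x)) α β γ) :
    ∀ c : ℂ, (wr (PP (p x)) (QQ (p x))).eval c = 0 →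
      ¬ Att d (PP (p x)) (QQ (p x)) (c : OnePoint ℂ) →
      ∃ v : Fin n → ℂ,
        ∑' j, term (PP (p x)) (QQ (p x)) (varS (p x) (fderiv ℂ p x v)) c j ≠ 0 := by
  intro e he hA
  have hcl : volume (closure (Set.range fun j => (rf (PP (p x)) (QQ (p x)))^[j]
      (rf (PP (p x)) (QQ (p x)) e))) = 0 := by
    refine measure_mono_null ?_ B.null
    refine closure_minimal ?_ B.cpt.isClosed
    rintro _ ⟨j, rfl⟩
    have h2 := (B.stay hA (j + 1)).1
    rwa [Function.iterate_succ_apply] at h2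
  obtain ⟨S, u, κ, hSd, hST, hSK, hS⟩ := t_TRREL Pool.Agent.H788.TF207.t_PFX
    Pool.Agent.H650.TF207.t_INV0 Pool.Agent.H353.TF207.GOODX.t_GOODX (PP (p x)) (QQ (p x)) d
    B.hd B.cop B.Pd B.Qd hpole e he B.N
    {z : ℂ | ¬ Att d (PP (p x)) (QQ (p x)) (z : OnePoint ℂ)} B.cpt
    (fun j => (B.stay hA j).1) (fun z hz => B.KQ hz) (B.ne he hA) (B.summ he hA)
    {z : ℂ | Att d (PP (p x)) (QQ (p x)) (z : OnePoint ℂ)} B.open
    B.dense (fun z hz h => h hz) (wandering_att B.hd B.cop B.Qd) hcl R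
    (fun ρ hρ => (hR ρ hρ).ok B)
  obtain ⟨v, α, β, γ, hv⟩ := hcov S u κ hSd hST hSK
  refine ⟨v, ?_⟩
  have h1 : ∑' j, term (PP (p x)) (QQ (p x)) S e j =
      ∑' j, term (PP (p x)) (QQ (p x)) (varS (p x) (fderiv ℂ p x v)) e j +
        ∑' j, term (PP (p x)) (QQ (p x)) (conjS (PP (p x)) (QQ (p x)) α β γ) e j := by
    rw [← (B.term he hA _).tsum_add (B.term he hA _)]
    refine tsum_congr fun j => ?_
    rw [hv]
    unfold TF.term
    rw [Polynomial.eval_add]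
    ring
  rw [conj_tsum B he hA, add_zero] at h1
  rwa [h1] at hS

/-- the non-hyperbolic maps of the theorem form a null set in every family -/
theorem fam_null {d n : ℕ} {p : (Fin n → ℂ) → EE d} {U : Set (Fin n → ℂ)} (hU : IsOpen U)
    (hp : DifferentiableOn ℂ p U) {A : Set (Fin n → ℂ)} (hAU : A ⊆ U)
    (hB : ∀ x ∈ A, Base d (PP (p x)) (QQ (p x))) (hbad : ∀ x ∈ A, p x ∈ rbad d)
    (htr : ∀ x ∈ A, ∀ c : ℂ, (wr (PP (p x)) (QQ (p x))).eval c = 0 →
      ¬ Att d (PP (p x)) (QQ (p x)) (c : OnePoint ℂ) →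
      ∃ v : Fin n → ℂ, ∑' j, term (PP (p x)) (QQ (p x)) (varS (p x) (fderiv ℂ p x v)) c j ≠ 0) :
    volume A = 0 := by
  have h1 := Besicovitch.ae_tendsto_measure_inter_div (volume : Measure (Fin n → ℂ)) A
  rw [ae_iff] at h1
  have h2 : A ⊆ {a | ¬ Tendsto (fun r => volume (A ∩ closedBall a r) / volume (closedBall a r))
      (𝓝[>] 0) (𝓝 1)} := by
    intro x hx ht
    obtain ⟨-, h3⟩ := famA a_PUIS Pool.Agent.H591.TF207.t_INSTG hU (hAU hx) hp (hB x hx)
      (htr x hx)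
    have h4 : Tendsto (fun r => volume (A ∩ closedBall x r) / volume (closedBall x r))
        (𝓝[>] 0) (𝓝 0) := by
      refine tendsto_of_tendsto_of_tendsto_of_le_of_le' tendsto_const_nhds h3
        (Eventually.of_forall fun r => zero_le) ?_
      filter_upwards [self_mem_nhdsWithin] with r hr
      have hr' : r ≠ 0 := ne_of_gt hr
      refine ENNReal.div_le_div ?_ (measure_mono ball_subset_closedBall)
      calc volume (A ∩ closedBall x r) ≤ volume (({y | p y ∈ rbad d} ∩ ball x r) ∪ sphere x r) := by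
            apply measure_mono
            rintro y ⟨hy1, hy2⟩
            rcases (mem_closedBall.1 hy2).lt_or_eq with h | h
            · exact Or.inl ⟨hbad y hy1, mem_ball.2 h⟩
            · exact Or.inr (mem_sphere.2 h)
        _ ≤ volume ({y | p y ∈ rbad d} ∩ ball x r) + volume (sphere x r) := measure_union_le _ _
        _ = volume ({y | p y ∈ rbad d} ∩ ball x r) := by
            rw [Measure.addHaar_sphere_of_ne_zero _ x hr', add_zero]
    exact one_ne_zero (tendsto_nhds_unique ht h4)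
  have h3 := measure_mono_null h2 h1
  rwa [Measure.restrict_apply_self] at h3

/-- **Strata.** -/
theorem famC {d : ℕ} (hd : 2 ≤ d) {x : EE d} (hcop : IsCoprime (PP x) (QQ x))
    (hQd : (QQ x).natDegree = d)
    (hdense : Dense {z : ℂ | Att d (PP x) (QQ x) (z : OnePoint ℂ)})
    (hdeg : (wr (PP x) (QQ x)).natDegree = 2 * d - 2)
    (hpole : ∀ c : ℂ, (wr (PP x) (QQ x)).eval c = 0 → (QQ x).eval c ≠ 0) {r N : ℕ}
    {e : Fin r → ℂ} (he : Function.Injective e)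
    (hall : ∀ z, (wr (PP x) (QQ x)).eval z = 0 ↔ ∃ i, e i = z) {ρ : Fin N → RI r}
    (hρ : ∀ l, (rf (PP x) (QQ x))^[(ρ l).n] (e (ρ l).i) =
      (rf (PP x) (QQ x))^[(ρ l).n'] (e (ρ l).i'))
    (h5 : ∀ l, ∀ j < (ρ l).n, (QQ x).eval ((rf (PP x) (QQ x))^[j] (e (ρ l).i)) ≠ 0)
    (h6 : ∀ l, ∀ j < (ρ l).n', (QQ x).eval ((rf (PP x) (QQ x))^[j] (e (ρ l).i')) ≠ 0)
    (hind : LinearIndependent ℂ fun l => dv (PP x) (QQ x) (e (ρ l).i) (ρ l).n -
      dv (PP x) (QQ x) (e (ρ l).i') (ρ l).n') :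
    ∃ (n : ℕ) (Ψ : (Fin n → ℂ) → EE d) (c : (Fin n → ℂ) → Fin r → ℂ) (U : Set (Fin n → ℂ)),
      n + N = (Finset.univ.image fun i => rf (PP x) (QQ x) (e i)).card + 4 ∧ IsOpen U ∧ 0 ∈ U ∧
      DifferentiableOn ℂ Ψ U ∧ DifferentiableOn ℂ c U ∧ Ψ 0 = x ∧ c 0 = e ∧ InjOn Ψ U ∧
      (∀ t ∈ U, Function.Injective (fderiv ℂ Ψ t)) ∧
      (∀ t ∈ U, InS (fun i => (wr (PP x) (QQ x)).rootMultiplicity (e i))
        (fun i j => rf (PP x) (QQ x) (e i) = rf (PP x) (QQ x) (e j)) ρ (Ψ t) (c t)) ∧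
      (∃ ε > (0 : ℝ), ∀ (y : EE d) (c' : Fin r → ℂ), ‖y - x‖ < ε → ‖c' - e‖ < ε →
        InS (fun i => (wr (PP x) (QQ x)).rootMultiplicity (e i))
          (fun i j => rf (PP x) (QQ x) (e i) = rf (PP x) (QQ x) (e j)) ρ y c' →
        ∃ t ∈ U, Ψ t = y ∧ c t = c') ∧
      ∀ t ∈ U, SBase d (PP (Ψ t)) (QQ (Ψ t)) →
        (∀ l, (Att d (PP (Ψ t)) (QQ (Ψ t)) (c t (ρ l).i : OnePoint ℂ) ∨
            Function.Injective fun j => (rf (PP (Ψ t)) (QQ (Ψ t)))^[j] (c t (ρ l).i)) ∧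
          (Att d (PP (Ψ t)) (QQ (Ψ t)) (c t (ρ l).i' : OnePoint ℂ) ∨
            Function.Injective fun j => (rf (PP (Ψ t)) (QQ (Ψ t)))^[j] (c t (ρ l).i'))) →
        ∀ c : ℂ, (wr (PP (Ψ t)) (QQ (Ψ t))).eval c = 0 →
          ¬ Att d (PP (Ψ t)) (QQ (Ψ t)) (c : OnePoint ℂ) →
          ∃ v : Fin n → ℂ, ∑' j, term (PP (Ψ t)) (QQ (Ψ t))
            (varS (Ψ t) (fderiv ℂ Ψ t v)) c j ≠ 0 := by
  obtain ⟨n, Ψ, c, U, h1, h2, h3, h4, h7, h8, h9, h10, h11, h12, h13, h14⟩ := param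
    Pool.Agent.H903.TF207.LIN.t_LIN Pool.Agent.H167.TF207.SOLVE.t_SOLVE
    Pool.Agent.H788.TF207.t_PFX Pool.Agent.H650.TF207.t_INV0
    Pool.Agent.H353.TF207.GOODX.t_GOODX Pool.Agent.H356.TF207.t_ORBD
    Pool.Agent.H350.TF207.t_WRD hd hcop hQd (wr_ne_zero (by omega) hcop hQd) hdeg hpole
    ((att_open (by omega) hcop (PP_deg x) hQd).preimage OnePoint.continuous_coe) hdense
    (wandering_att hd hcop hQd) he (fun i => (hall _).2 ⟨i, rfl⟩) (fun z hz => (hall z).1 hz)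
    (m := fun i => (wr (PP x) (QQ x)).rootMultiplicity (e i)) (fun i => rfl) (ρ := ρ)
    hρ h5 h6 hind
  refine ⟨n, Ψ, c, U, h1, h2, h3, h4, h7, h8, h9, h10, h11, h12, h13, fun t ht B hor => ?_⟩
  obtain ⟨g1, g2, g3, g4, g5, g6, g7⟩ := h14 t ht
  refine famB (p := Ψ) (x := t) B (fun z hz => ?_) (R := List.ofFn fun l => (ρ l).rel (c t))
    ?_ ?_
  · obtain ⟨i, rfl⟩ := (g2 z).1 hz
    exact g4 i
  · intro σ hσ
    rw [List.mem_ofFn] at hσ
    obtain ⟨l, rfl⟩ := hσ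
    exact ⟨(g2 _).2 ⟨_, rfl⟩, (g2 _).2 ⟨_, rfl⟩, (h12 t ht).2.2 l, g5 l, g6 l, (hor l).1,
      (hor l).2⟩
  · intro S u κ hS hDf hK
    obtain ⟨v, hv⟩ := g7 S u κ B.cop B.Qd hS hDf fun l => hK _ (List.mem_ofFn.2 ⟨l, rfl⟩)
    refine ⟨v, 0, 0, 0, ?_⟩
    rw [hv]
    simp [conjS]

/-- **Relations whose targets are different critical points are independent.** -/
theorem dv_crit {P Q : ℂ[X]} {c : ℂ} (hc : (wr P Q).eval c = 0) {e : ℂ} (he : (wr P Q).eval e = 0)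
    (n : ℕ) : dv P Q c (n + 1) e = 0 := by
  classical
  induction n with
  | zero =>
    simp only [dv, Function.iterate_zero, id_eq, hc, zero_div, zero_smul, Finsupp.zero_apply]
  | succ n ih =>
    rw [dv, Finsupp.smul_apply, Finsupp.sub_apply, ih, zero_sub, Finsupp.single_apply]
    split_ifs with h
    · rw [h, he]
      simp
    · simp

theorem indep_crit {P Q : ℂ[X]} {N : ℕ} {c c' : Fin N → ℂ} {n : Fin N → ℕ}
    (hc : ∀ l, (wr P Q).eval (c l) = 0) (hc' : ∀ l, (wr P Q).eval (c' l) = 0)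
    (hn : ∀ l, 1 ≤ n l) (hinj : Function.Injective c') :
    LinearIndependent ℂ fun l => dv P Q (c l) (n l) - dv P Q (c' l) 0 := by
  classical
  rw [Fintype.linearIndependent_iff]
  intro b hb l
  have h1 := DFunLike.congr_fun hb (c' l)
  rw [Finsupp.finsetSum_apply, Finsupp.zero_apply] at h1
  have h2 : ∀ k, (b k • (dv P Q (c k) (n k) - dv P Q (c' k) 0)) (c' l) =
      if k = l then -b k else 0 := by
    intro k
    obtain ⟨j, hj⟩ : ∃ j, n k = j + 1 := ⟨n k - 1, by have := hn k; omega⟩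
    rw [Finsupp.smul_apply, Finsupp.sub_apply, hj, dv_crit (hc k) (hc' l), dv,
      Finsupp.single_apply]
    by_cases hkl : k = l
    · rw [if_pos (by rw [hkl]), if_pos hkl]
      simp
    · rw [if_neg fun h => hkl (hinj h), if_neg hkl]
      simp
  simp only [h2] at h1
  rw [Finset.sum_ite_eq' Finset.univ l fun k => -b k, if_pos (Finset.mem_univ l)] at h1
  exact neg_eq_zero.1 h1

end Pool.Agent.H207.TF
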