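import Pool.Agent.H207.TF.Stm3

/-!
# Holomorphic parametrization of the zero set of a submersion

The proof of helper236 (`Pool/Agent/H236/TF207/IFT.lean`), with two more clauses.
-/

set_option autoImplicit false

open Metric Set Filter Topology

namespace Pool.Agent.H207.TF

theorem ift_main (Y Z : Type) [NormedAddCommGroup Y] [NormedSpace ℂ Y] [FiniteDimensional ℂ Y]
    [NormedAddCommGroup Z] [NormedSpace ℂ Z] [FiniteDimensional ℂ Z] (F : Y → Z) (y₀ : Y)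
    (hF : ContDiffAt ℂ 1 F y₀) (hF0 : F y₀ = 0) (hsurj : Function.Surjective (fderiv ℂ F y₀)) :
    ∃ (n : ℕ) (ψ : (Fin n → ℂ) → Y) (U : Set (Fin n → ℂ)), n + Module.finrank ℂ Z =
        Module.finrank ℂ Y ∧ IsOpen U ∧ 0 ∈ U ∧ (∀ t ∈ U, ContDiffAt ℂ 1 ψ t) ∧ ψ 0 = y₀ ∧
      Set.InjOn ψ U ∧ (∀ t ∈ U, F (ψ t) = 0) ∧ Function.Injective (fderiv ℂ ψ 0) ∧
      (∀ t, fderiv ℂ F y₀ (fderiv ℂ ψ 0 t) = 0) ∧
      (∀ s ∈ U, ∀ y : Y, fderiv ℂ F (ψ s) y = 0 → ∃ t, fderiv ℂ ψ s t = y) ∧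
      ∀ V ∈ 𝓝 (0 : Fin n → ℂ), ∃ ε > (0 : ℝ), ∀ y, ‖y - y₀‖ < ε → F y = 0 →
        ∃ t ∈ U ∩ V, ψ t = y := by
  set L : Y →L[ℂ] Z := fderiv ℂ F y₀ with hL
  have hFd : HasFDerivAt F L y₀ := (hF.differentiableAt one_ne_zero).hasFDerivAt
  let K : Submodule ℂ Y := LinearMap.ker (L : Y →ₗ[ℂ] Z)
  let n : ℕ := Module.finrank ℂ K
  let b : Module.Basis (Fin n) ℂ K := Module.finBasis ℂ K
  obtain ⟨π, hπ⟩ := LinearMap.exists_leftInverse_of_injective K.subtype K.ker_subtype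
  have hπK : ∀ k : K, π (k : Y) = k := fun k => LinearMap.congr_fun hπ k
  let p : Y →L[ℂ] (Fin n → ℂ) := LinearMap.toContinuousLinearMap (b.equivFun.toLinearMap ∘ₗ π)
  have hpK : ∀ v : Y, L v = 0 → p v = 0 → v = 0 := by
    intro v hv hpv
    have h1 : b.equivFun (π v) = 0 := hpv
    have h2 : π v = 0 := b.equivFun.map_eq_zero_iff.1 h1
    have h3 := hπK ⟨v, hv⟩
    have h4 : (π v : K) = ⟨v, hv⟩ := h3
    rw [h2] at h4
    exact (congrArg Subtype.val h4).symm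
  have hdim : n + Module.finrank ℂ Z = Module.finrank ℂ Y := by
    have h1 := LinearMap.finrank_range_add_finrank_ker (L : Y →ₗ[ℂ] Z)
    have h2 : LinearMap.range (L : Y →ₗ[ℂ] Z) = ⊤ := LinearMap.range_eq_top.2 hsurj
    rw [h2, finrank_top] at h1
    rw [add_comm]
    exact h1
  -- the derivative of `Θ`
  have hinj : Function.Injective (L.prod p : Y →ₗ[ℂ] Z × (Fin n → ℂ)) := by
    rw [injective_iff_map_eq_zero]
    intro v hv
    have h1 : L v = 0 := congrArg Prod.fst hv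
    have h2 : p v = 0 := congrArg Prod.snd hv
    exact hpK v h1 h2
  have hfin : Module.finrank ℂ Y = Module.finrank ℂ (Z × (Fin n → ℂ)) := by
    rw [Module.finrank_prod, Module.finrank_fin_fun, ← hdim, add_comm]
  let e : Y ≃L[ℂ] Z × (Fin n → ℂ) :=
    (LinearEquiv.ofInjectiveOfFinrankEq (L.prod p : Y →ₗ[ℂ] Z × (Fin n → ℂ)) hinj hfin).toContinuousLinearEquiv
  have he : ∀ v, e v = (L v, p v) := fun v => rfl
  have heq : (e : Y →L[ℂ] Z × (Fin n → ℂ)) = L.prod p := by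
    ext v
    · rfl
    · rfl
  let Θ : Y → Z × (Fin n → ℂ) := fun y => (F y, p (y - y₀))
  have hΘ0 : Θ y₀ = (0, 0) := by
    change (F y₀, p (y₀ - y₀)) = _
    rw [hF0, sub_self, map_zero]
  have hΘc : ContDiffAt ℂ 1 Θ y₀ :=
    hF.prodMk (p.contDiff.contDiffAt.comp y₀ (contDiffAt_id.sub contDiffAt_const))
  have hpd : HasFDerivAt (fun y => p (y - y₀)) p y₀ := by
    have h1 : HasFDerivAt (fun y => y - y₀) (ContinuousLinearMap.id ℂ Y) y₀ :=
      (hasFDerivAt_id y₀).sub_const y₀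
    have h2 := p.hasFDerivAt.comp y₀ h1
    exact h2
  have hΘd : HasFDerivAt Θ (e : Y →L[ℂ] Z × (Fin n → ℂ)) y₀ := by
    rw [heq]
    exact hFd.prodMk hpd
  let Φ := hΘc.toOpenPartialHomeomorph Θ hΘd one_ne_zero
  have hΦ : ∀ y, Φ y = Θ y := fun y => rfl
  have hsrc : y₀ ∈ Φ.source := hΘc.mem_toOpenPartialHomeomorph_source hΘd one_ne_zero
  have htgt : ((0 : Z), (0 : Fin n → ℂ)) ∈ Φ.target := by
    have h1 : Θ y₀ ∈ Φ.target := hΘc.image_mem_toOpenPartialHomeomorph_target hΘd one_ne_zero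
    rwa [hΘ0] at h1
  have hsymm0 : Φ.symm ((0 : Z), (0 : Fin n → ℂ)) = y₀ := by
    rw [← hΘ0]
    exact Φ.left_inv hsrc
  have hsymmc : ContDiffAt ℂ 1 Φ.symm ((0 : Z), (0 : Fin n → ℂ)) := by
    rw [← hΘ0]
    exact hΘc.to_localInverse hΘd one_ne_zero
  have hΘe : ∀ᶠ z in 𝓝 ((0 : Z), (0 : Fin n → ℂ)), ContDiffAt ℂ 1 F (Φ.symm z) := by
    have h1 : ∀ᶠ y in 𝓝 (Φ.symm ((0 : Z), (0 : Fin n → ℂ))), ContDiffAt ℂ 1 F y := by
      rw [hsymm0]
      exact hF.eventually (by simp)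
    exact hsymmc.continuousAt.eventually h1
  obtain ⟨W, hW', hWo, hW0⟩ := _root_.eventually_nhds_iff.1
    ((hsymmc.eventually (by simp)).and hΘe)
  have hW : ∀ y ∈ W, ContDiffAt ℂ 1 Φ.symm y := fun y hy => (hW' y hy).1
  let ι : (Fin n → ℂ) → Z × (Fin n → ℂ) := fun t => (0, t)
  have hιc : Continuous ι := by fun_prop
  let U : Set (Fin n → ℂ) := ι ⁻¹' (Φ.target ∩ W)
  let ψ : (Fin n → ℂ) → Y := fun t => Φ.symm (ι t)
  have hUo : IsOpen U := (Φ.open_target.inter hWo).preimage hιc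
  have hU0 : (0 : Fin n → ℂ) ∈ U := ⟨htgt, hW0⟩
  have hψc : ∀ t ∈ U, ContDiffAt ℂ 1 ψ t := by
    intro t ht
    have h1 : ContDiffAt ℂ 1 Φ.symm (ι t) := hW _ ht.2
    exact h1.comp t ((contDiff_const.prodMk contDiff_id).contDiffAt)
  have hψd : DifferentiableOn ℂ ψ U := by
    intro t ht
    exact ((hψc t ht).differentiableAt one_ne_zero).differentiableWithinAt
  have hψ0 : ψ 0 = y₀ := hsymm0
  have hΘψ : ∀ t ∈ U, Θ (ψ t) = (0, t) := fun t ht => Φ.right_inv ht.1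
  have hFψ : ∀ t ∈ U, F (ψ t) = 0 := fun t ht => congrArg Prod.fst (hΘψ t ht)
  have hpψ : ∀ t ∈ U, p (ψ t - y₀) = t := fun t ht => congrArg Prod.snd (hΘψ t ht)
  have hψd0 : HasFDerivAt ψ (fderiv ℂ ψ 0) 0 :=
    ((hψd 0 hU0).differentiableAt (hUo.mem_nhds hU0)).hasFDerivAt
  have hp1 : ∀ t, p (fderiv ℂ ψ 0 t) = t := by
    have h1 : HasFDerivAt (fun t => p (ψ t - y₀)) (p.comp (fderiv ℂ ψ 0)) 0 :=
      p.hasFDerivAt.comp 0 (hψd0.sub_const y₀)
    have h2 : (fun t => p (ψ t - y₀)) =ᶠ[𝓝 0] fun t => t := by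
      filter_upwards [hUo.mem_nhds hU0] with t ht using hpψ t ht
    have h3 : HasFDerivAt (fun t => p (ψ t - y₀)) (ContinuousLinearMap.id ℂ (Fin n → ℂ)) 0 :=
      (hasFDerivAt_id (0 : Fin n → ℂ)).congr_of_eventuallyEq h2
    have h4 := h1.unique h3
    intro t
    exact congrArg (fun A : (Fin n → ℂ) →L[ℂ] (Fin n → ℂ) => A t) h4
  have hL1 : ∀ t, L (fderiv ℂ ψ 0 t) = 0 := by
    have h0 : HasFDerivAt F L (ψ 0) := by rw [hψ0]; exact hFd
    have h1 : HasFDerivAt (fun t => F (ψ t)) (L.comp (fderiv ℂ ψ 0)) 0 := h0.comp 0 hψd0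
    have h2 : (fun t => F (ψ t)) =ᶠ[𝓝 0] fun _ => (0 : Z) := by
      filter_upwards [hUo.mem_nhds hU0] with t ht using hFψ t ht
    have h3 : HasFDerivAt (fun t => F (ψ t)) (0 : (Fin n → ℂ) →L[ℂ] Z) 0 :=
      (hasFDerivAt_const (0 : Z) (0 : Fin n → ℂ)).congr_of_eventuallyEq h2
    have h4 := h1.unique h3
    intro t
    exact congrArg (fun A : (Fin n → ℂ) →L[ℂ] Z => A t) h4
  refine ⟨n, ψ, U, hdim, hUo, hU0, hψc, hψ0, ?_, hFψ, ?_, hL1, ?_, ?_⟩
  · intro t ht t' ht' h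
    rw [← hpψ t ht, ← hpψ t' ht', h]
  · intro t t' h
    rw [← hp1 t, ← hp1 t', h]
  · intro t ht y hy
    obtain ⟨z, hz⟩ : ∃ z, z = ι t := ⟨_, rfl⟩
    have hzW : z ∈ W := by rw [hz]; exact ht.2
    have hzT : z ∈ Φ.target := by rw [hz]; exact ht.1
    have hA : HasFDerivAt Φ.symm (fderiv ℂ Φ.symm z) z :=
      ((hW z hzW).differentiableAt one_ne_zero).hasFDerivAt
    have hB : HasFDerivAt Θ ((fderiv ℂ F (ψ t)).prod p) (Φ.symm z) := by
      have h1 : HasFDerivAt F (fderiv ℂ F (ψ t)) (Φ.symm z) := by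
        rw [hz]
        exact ((hW' _ ht.2).2.differentiableAt one_ne_zero).hasFDerivAt
      have h2 : HasFDerivAt (fun y => p (y - y₀)) p (Φ.symm z) := by
        have h3 : HasFDerivAt (fun y => y - y₀) (ContinuousLinearMap.id ℂ Y) (Φ.symm z) :=
          (hasFDerivAt_id (Φ.symm z)).sub_const y₀
        exact p.hasFDerivAt.comp (Φ.symm z) h3
      exact h1.prodMk h2
    have hid : ∀ w, ((fderiv ℂ F (ψ t)).prod p) (fderiv ℂ Φ.symm z w) = w := by
      have h1 := hB.comp z hA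
      have h2 : (Θ ∘ Φ.symm) =ᶠ[𝓝 z] fun w => w := by
        filter_upwards [Φ.open_target.mem_nhds hzT] with w hw using Φ.right_inv hw
      have h3 := h1.congr_of_eventuallyEq h2.symm
      have h4 := h3.unique (hasFDerivAt_id z)
      intro w
      exact congrArg (fun A : Z × (Fin n → ℂ) →L[ℂ] Z × (Fin n → ℂ) => A w) h4
    have hAi : Function.Injective (fderiv ℂ Φ.symm z : Z × (Fin n → ℂ) →ₗ[ℂ] Y) := by
      intro a b hab
      rw [← hid a, ← hid b]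
      congr 1
    have hAs := (LinearMap.injective_iff_surjective_of_finrank_eq_finrank hfin.symm).1 hAi
    obtain ⟨w, hw⟩ := hAs y
    have hw' : fderiv ℂ Φ.symm z w = y := hw
    have h5 := hid w
    rw [hw'] at h5
    have h6 : w = (0, p y) := by
      rw [← h5]
      exact Prod.ext hy rfl
    refine ⟨p y, ?_⟩
    have h7 : HasFDerivAt ψ ((fderiv ℂ Φ.symm z).comp
        ((0 : (Fin n → ℂ) →L[ℂ] Z).prod (ContinuousLinearMap.id ℂ (Fin n → ℂ)))) t := by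
      have h8 : HasFDerivAt ι ((0 : (Fin n → ℂ) →L[ℂ] Z).prod
          (ContinuousLinearMap.id ℂ (Fin n → ℂ))) t :=
        (hasFDerivAt_const (0 : Z) t).prodMk (hasFDerivAt_id t)
      have h9 : HasFDerivAt Φ.symm (fderiv ℂ Φ.symm z) (ι t) := by rw [← hz]; exact hA
      exact h9.comp t h8
    rw [h7.fderiv]
    change fderiv ℂ Φ.symm z (0, p y) = y
    rw [← h6, hw']
  · intro V hV
    have hΘcont : ContinuousAt Θ y₀ := hΘc.continuousAt
    have h0 : (fun y => p (y - y₀)) ⁻¹' V ∈ 𝓝 y₀ := by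
      have h1 : ContinuousAt (fun y => p (y - y₀)) y₀ := hpd.continuousAt
      exact h1.preimage_mem_nhds (by simpa using hV)
    have h1 : Θ ⁻¹' W ∈ 𝓝 y₀ := hΘcont.preimage_mem_nhds (by rw [hΘ0]; exact hWo.mem_nhds hW0)
    have h2 : Φ.source ∈ 𝓝 y₀ := Φ.open_source.mem_nhds hsrc
    obtain ⟨ε, hε, hball⟩ := Metric.mem_nhds_iff.1
      (Filter.inter_mem h0 (Filter.inter_mem h1 h2))
    refine ⟨ε, hε, fun y hy hFy => ?_⟩
    obtain ⟨h6, h3, h4⟩ := hball (mem_ball_iff_norm.2 hy)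
    have h5 : Θ y = ι (p (y - y₀)) := by
      change (F y, p (y - y₀)) = (0, p (y - y₀))
      rw [hFy]
    refine ⟨p (y - y₀), ⟨⟨?_, ?_⟩, h6⟩, ?_⟩
    · rw [← h5]
      exact Φ.map_source h4
    · rw [← h5]
      exact h3
    · change Φ.symm (ι (p (y - y₀))) = y
      rw [← h5]
      exact Φ.left_inv h4

end Pool.Agent.H207.TF
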