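import Pool.Agent.H207.TF.Stm3
import Pool.Agent.H207.TF.Fam

/-! Project TF: the strata are complex manifolds. -/

set_option autoImplicit false

open Metric Set MeasureTheory Filter Topology Polynomial
open scoped OnePoint ENNReal

namespace Pool.Agent.H207.TF

open Pool.Agent.H792R2.CE Pool.Agent.H211.LR Pool.Agent.H211.AD

/-- a relation between marked critical points -/
structure RI (r : ℕ) where
  i : Fin r
  n : ℕ
  i' : Fin r
  n' : ℕ

/-- the relation for the marked points `e` -/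
def RI.rel {r : ℕ} (ρ : RI r) (e : Fin r → ℂ) : Reln := ⟨e ρ.i, ρ.n, e ρ.i', ρ.n'⟩

/-- `x` is in the stratum, with the critical points `c`: multiplicities `m`, coincidences `J` of critical
values, relations `ρ`. -/
def InS {d r N : ℕ} (m : Fin r → ℕ) (J : Fin r → Fin r → Prop) (ρ : Fin N → RI r) (x : EE d)
    (c : Fin r → ℂ) : Prop :=
  (∀ i, (X - C (c i)) ^ m i ∣ wr (PP x) (QQ x)) ∧
  (∀ i j, J i j → rf (PP x) (QQ x) (c i) = rf (PP x) (QQ x) (c j)) ∧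
  ∀ l, (rf (PP x) (QQ x))^[(ρ l).n] (c (ρ l).i) = (rf (PP x) (QQ x))^[(ρ l).n'] (c (ρ l).i')

theorem dvd_iff_hasse (N : ℂ[X]) (z : ℂ) (m : ℕ) :
    (X - C z) ^ m ∣ N ↔ ∀ j : Fin m, (hasseDeriv (j : ℕ) N).eval z = 0 := by
  rw [Polynomial.X_sub_C_pow_dvd_iff, Polynomial.X_pow_dvd_iff]
  have h : ∀ j : ℕ, (N.comp (X + C z)).coeff j = (hasseDeriv j N).eval z := by
    intro j
    rw [← Polynomial.taylor_coeff, Polynomial.taylor_apply]
  constructor
  · intro h1 j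
    rw [← h]
    exact h1 j j.2
  · intro h1 j hj
    rw [h]
    exact h1 ⟨j, hj⟩

/-- injective derivative implies local injectivity -/
theorem locInj {E E' : Type*} [NormedAddCommGroup E] [NormedSpace ℂ E] [FiniteDimensional ℂ E]
    [NormedAddCommGroup E'] [NormedSpace ℂ E'] {f : E → E'} {A : E →L[ℂ] E'} {a : E}
    (hf : HasStrictFDerivAt f A a) (hA : Function.Injective A) : ∃ V ∈ 𝓝 a, InjOn f V := by
  obtain ⟨K, hK, hKA⟩ := (A : E →ₗ[ℂ] E').exists_antilipschitzWith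
    (LinearMap.ker_eq_bot.2 hA)
  have hK' : (0 : ℝ) < K := by exact_mod_cast hK
  obtain ⟨V, hV, hVa⟩ := hf.approximates_deriv_on_nhds (c := (K / 1)⁻¹ / 2) (Or.inr (by
    rw [div_one]
    positivity))
  refine ⟨V, hV, fun x hx y hy hxy => ?_⟩
  have h1 := hVa x hx y hy
  rw [hxy, sub_self, zero_sub, norm_neg] at h1
  have h2 := hKA.le_mul_dist x y
  have h3 : dist (A x) (A y) = ‖A (x - y)‖ := by rw [dist_eq_norm, map_sub]
  change dist x y ≤ K * dist (A x) (A y) at h2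
  rw [h3, dist_eq_norm] at h2
  by_contra hne
  have h4 : 0 < ‖x - y‖ := norm_pos_iff.2 (sub_ne_zero.2 hne)
  have h5 : (((K / 1)⁻¹ / 2 : NNReal) : ℝ) = (K : ℝ)⁻¹ / 2 := by
    rw [div_one]; push_cast; ring
  rw [h5] at h1
  have h6 : (K : ℝ) * ‖A (x - y)‖ ≤ K * ((K : ℝ)⁻¹ / 2 * ‖x - y‖) :=
    mul_le_mul_of_nonneg_left h1 hK'.le
  have h7 : (K : ℝ) * ((K : ℝ)⁻¹ / 2 * ‖x - y‖) = ‖x - y‖ / 2 := by
    field_simp
  rw [h7] at h6
  linarith

section
variable {d r N : ℕ}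

/-- the equations of the stratum -/
noncomputable def FF (m : Fin r → ℕ) (rep : Fin r → Fin r) (ρ : Fin N → RI r)
    (y : EE d × (Fin r → ℂ)) :
    ((i : Fin r) → Fin (m i) → ℂ) × ({i : Fin r // rep i ≠ i} → ℂ) × (Fin N → ℂ) :=
  (fun i j => (hasseDeriv (j : ℕ) (wr (PP y.1) (QQ y.1))).eval (y.2 i),
    fun i => (rf (PP y.1) (QQ y.1))^[1] (y.2 i) - (rf (PP y.1) (QQ y.1))^[1] (y.2 (rep i)),
    fun l => (rf (PP y.1) (QQ y.1))^[(ρ l).n] (y.2 (ρ l).i) -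
      (rf (PP y.1) (QQ y.1))^[(ρ l).n'] (y.2 (ρ l).i'))

/-- the linearized equations -/
noncomputable def LF (m : Fin r → ℕ) (rep : Fin r → Fin r) (ρ : Fin N → RI r) (x : EE d)
    (e : Fin r → ℂ) (v : EE d) (κ : Fin r → ℂ) :
    ((i : Fin r) → Fin (m i) → ℂ) × ({i : Fin r // rep i ≠ i} → ℂ) × (Fin N → ℂ) :=
  (fun i j => eqW x v (e i) (κ i) (j : ℕ),
    fun i => spd (PP x) (QQ x) (varS x v) (e i) (κ i) 1 -
      spd (PP x) (QQ x) (varS x v) (e (rep i)) (κ (rep i)) 1,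
    fun l => spd (PP x) (QQ x) (varS x v) (e (ρ l).i) (κ (ρ l).i) (ρ l).n -
      spd (PP x) (QQ x) (varS x v) (e (ρ l).i') (κ (ρ l).i') (ρ l).n')

/-- projection to the coefficients and one marked point -/
noncomputable def prj (i : Fin r) : (EE d × (Fin r → ℂ)) →L[ℂ] EE d × ℂ :=
  (ContinuousLinearMap.fst ℂ _ _).prod
    ((ContinuousLinearMap.proj i).comp (ContinuousLinearMap.snd ℂ _ _))

theorem prj_apply (i : Fin r) (y : EE d × (Fin r → ℂ)) : prj i y = (y.1, y.2 i) := rfl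

theorem FF_diff (hOR : S_ORBD) (hWR : S_WRD) {m : Fin r → ℕ} {rep : Fin r → Fin r}
    {ρ : Fin N → RI r} {x : EE d} {e : Fin r → ℂ} (hQe : ∀ i, (QQ x).eval (e i) ≠ 0)
    (h5 : ∀ l, ∀ j < (ρ l).n, (QQ x).eval ((rf (PP x) (QQ x))^[j] (e (ρ l).i)) ≠ 0)
    (h6 : ∀ l, ∀ j < (ρ l).n', (QQ x).eval ((rf (PP x) (QQ x))^[j] (e (ρ l).i')) ≠ 0) :
    ContDiffAt ℂ 1 (FF m rep ρ) (x, e) ∧ ∀ (v : EE d) (κ : Fin r → ℂ),
      fderiv ℂ (FF m rep ρ) (x, e) (v, κ) = LF m rep ρ x e v κ := by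
  -- the pieces
  have hW : ∀ (i : Fin r) (j : ℕ),
      HasStrictFDerivAt (fun y : EE d × (Fin r → ℂ) =>
        (hasseDeriv j (wr (PP y.1) (QQ y.1))).eval (y.2 i))
        ((fderiv ℂ (fun p : EE d × ℂ => (hasseDeriv j (wr (PP p.1) (QQ p.1))).eval p.2)
          (x, e i)).comp (prj i)) (x, e) ∧
      ContDiffAt ℂ 1 (fun y : EE d × (Fin r → ℂ) =>
        (hasseDeriv j (wr (PP y.1) (QQ y.1))).eval (y.2 i)) (x, e) := by
    intro i j
    obtain ⟨h1, -⟩ := hWR d x (e i) j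
    constructor
    · exact (h1.hasStrictFDerivAt (by norm_num)).comp (x, e)
        (g := fun p : EE d × ℂ => (hasseDeriv j (wr (PP p.1) (QQ p.1))).eval p.2)
        (f := prj i) ((prj i).hasStrictFDerivAt)
    · exact ContDiffAt.comp (x, e)
        (g := fun p : EE d × ℂ => (hasseDeriv j (wr (PP p.1) (QQ p.1))).eval p.2)
        (f := prj i) h1 (prj i).contDiff.contDiffAt
  have hO : ∀ (i : Fin r) (n : ℕ),
      (∀ j < n, (QQ x).eval ((rf (PP x) (QQ x))^[j] (e i)) ≠ 0) →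
      HasStrictFDerivAt (fun y : EE d × (Fin r → ℂ) =>
        (rf (PP y.1) (QQ y.1))^[n] (y.2 i))
        ((fderiv ℂ (fun p : EE d × ℂ => (rf (PP p.1) (QQ p.1))^[n] p.2)
          (x, e i)).comp (prj i)) (x, e) ∧
      ContDiffAt ℂ 1 (fun y : EE d × (Fin r → ℂ) =>
        (rf (PP y.1) (QQ y.1))^[n] (y.2 i)) (x, e) := by
    intro i n hn
    obtain ⟨h1, -⟩ := hOR d x (e i) n hn
    constructor
    · exact (h1.hasStrictFDerivAt (by norm_num)).comp (x, e)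
        (g := fun p : EE d × ℂ => (rf (PP p.1) (QQ p.1))^[n] p.2)
        (f := prj i) ((prj i).hasStrictFDerivAt)
    · exact ContDiffAt.comp (x, e)
        (g := fun p : EE d × ℂ => (rf (PP p.1) (QQ p.1))^[n] p.2)
        (f := prj i) h1 (prj i).contDiff.contDiffAt
  have h1Q : ∀ i : Fin r, ∀ j < 1, (QQ x).eval ((rf (PP x) (QQ x))^[j] (e i)) ≠ 0 := by
    intro i j hj
    have : j = 0 := by omega
    subst this
    exact hQe i
  have hC : ContDiffAt ℂ 1 (FF m rep ρ) (x, e) := by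
    unfold FF
    refine ContDiffAt.prodMk ?_ (ContDiffAt.prodMk ?_ ?_)
    · refine contDiffAt_pi.2 fun i => contDiffAt_pi.2 fun j => (hW i j).2
    · refine contDiffAt_pi.2 fun i => ?_
      exact ((hO i 1 (h1Q i)).2).sub ((hO (rep i) 1 (h1Q _)).2)
    · refine contDiffAt_pi.2 fun l => ?_
      exact ((hO _ _ (h5 l)).2).sub ((hO _ _ (h6 l)).2)
  refine ⟨hC, fun v κ => ?_⟩
  have hD : HasFDerivAt (FF m rep ρ)
      ((ContinuousLinearMap.pi fun i => ContinuousLinearMap.pi fun j : Fin (m i) =>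
        (fderiv ℂ (fun p : EE d × ℂ => (hasseDeriv (j : ℕ) (wr (PP p.1) (QQ p.1))).eval p.2)
          (x, e i)).comp (prj i)).prod
        ((ContinuousLinearMap.pi fun i : {i : Fin r // rep i ≠ i} =>
          (fderiv ℂ (fun p : EE d × ℂ => (rf (PP p.1) (QQ p.1))^[1] p.2)
            (x, e i)).comp (prj (i : Fin r)) -
          (fderiv ℂ (fun p : EE d × ℂ => (rf (PP p.1) (QQ p.1))^[1] p.2)
            (x, e (rep i))).comp (prj (rep i))).prod
        (ContinuousLinearMap.pi fun l : Fin N =>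
          (fderiv ℂ (fun p : EE d × ℂ => (rf (PP p.1) (QQ p.1))^[(ρ l).n] p.2)
            (x, e (ρ l).i)).comp (prj (ρ l).i) -
          (fderiv ℂ (fun p : EE d × ℂ => (rf (PP p.1) (QQ p.1))^[(ρ l).n'] p.2)
            (x, e (ρ l).i')).comp (prj (ρ l).i')))) (x, e) := by
    refine HasFDerivAt.prodMk ?_ (HasFDerivAt.prodMk ?_ ?_)
    · refine hasFDerivAt_pi.2 fun i => hasFDerivAt_pi.2 fun j => (hW i j).1.hasFDerivAt
    · refine hasFDerivAt_pi.2 fun i => ?_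
      exact ((hO i 1 (h1Q i)).1.hasFDerivAt).sub ((hO (rep i) 1 (h1Q _)).1.hasFDerivAt)
    · refine hasFDerivAt_pi.2 fun l => ?_
      exact ((hO _ _ (h5 l)).1.hasFDerivAt).sub ((hO _ _ (h6 l)).1.hasFDerivAt)
  rw [hD.fderiv]
  refine Prod.ext ?_ (Prod.ext ?_ ?_)
  · funext i j
    change (fderiv ℂ (fun p : EE d × ℂ => (hasseDeriv (j : ℕ) (wr (PP p.1) (QQ p.1))).eval p.2)
      (x, e i)) (v, κ i) = _
    rw [(hWR d x (e i) j).2]
    rfl
  · funext i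
    change (fderiv ℂ (fun p : EE d × ℂ => (rf (PP p.1) (QQ p.1))^[1] p.2)
        (x, e i)) (v, κ i) - (fderiv ℂ (fun p : EE d × ℂ => (rf (PP p.1) (QQ p.1))^[1] p.2)
        (x, e (rep i))) (v, κ (rep i)) = _
    rw [(hOR d x (e i) 1 (h1Q i)).2, (hOR d x (e (rep i)) 1 (h1Q _)).2]
    rfl
  · funext l
    change (fderiv ℂ (fun p : EE d × ℂ => (rf (PP p.1) (QQ p.1))^[(ρ l).n] p.2)
        (x, e (ρ l).i)) (v, κ (ρ l).i) -
      (fderiv ℂ (fun p : EE d × ℂ => (rf (PP p.1) (QQ p.1))^[(ρ l).n'] p.2)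
        (x, e (ρ l).i')) (v, κ (ρ l).i') = _
    rw [(hOR d x (e (ρ l).i) _ (h5 l)).2, (hOR d x (e (ρ l).i') _ (h6 l)).2]
    rfl

end

end Pool.Agent.H207.TF
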