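import Pool.Agent.H207.TF.Par
import Pool.Agent.H207.TF.Ift
import Pool.Agent.H207.TF.Eps
import Pool.Agent.H903.TF207.LIN

/-! Project TF: the strata are complex manifolds, surjectivity and dimension. -/

set_option autoImplicit false

open Metric Set MeasureTheory Filter Topology Polynomial
open scoped OnePoint ENNReal

namespace Pool.Agent.H207.TF

open Pool.Agent.H792R2.CE Pool.Agent.H211.LR Pool.Agent.H211.AD
open Pool.Agent.H903.TF207.LIN (S_LIN')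

section
variable {d r N : ℕ}

/-- a deformation evaluated at a critical point -/
theorem Dfm.val {P Q S : ℂ[X]} {u κ : ℂ → ℂ} (h : Dfm P Q S u κ) {e : ℂ}
    (he : (wr P Q).eval e = 0) (hQ : Q.eval e ≠ 0) : S.eval e / Q.eval e ^ 2 = u (rf P Q e) := by
  obtain ⟨g, hg⟩ := h e he
  have h1 := congrArg (Polynomial.eval e) hg
  simp only [Polynomial.eval_add, Polynomial.eval_sub, Polynomial.eval_mul, Polynomial.eval_C,
    Polynomial.eval_pow, he, mul_zero, add_zero, Polynomial.eval_X, sub_self] at h1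
  rw [zero_pow (Nat.succ_ne_zero _), zero_mul] at h1
  rw [div_eq_iff (pow_ne_zero _ hQ)]
  exact sub_eq_zero.1 h1

/-- a deformation solves the linearized equations -/
theorem LF_of_Dfm (hLI : S_LIN') {x : EE d} {e : Fin r → ℂ} {rep : Fin r → Fin r}
    {ρ : Fin N → RI r} (hN : wr (PP x) (QQ x) ≠ 0)
    (he0 : ∀ i, (wr (PP x) (QQ x)).eval (e i) = 0) (hQe : ∀ i, (QQ x).eval (e i) ≠ 0)
    (hrep : ∀ i, rf (PP x) (QQ x) (e (rep i)) = rf (PP x) (QQ x) (e i)) {m : Fin r → ℕ}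
    (hm : ∀ i, (wr (PP x) (QQ x)).rootMultiplicity (e i) = m i) {v : EE d}
    {u κ : ℂ → ℂ} (h : Dfm (PP x) (QQ x) (varS x v) u κ) :
    (LF m rep ρ x e v (fun i => κ (e i))).1 = 0 ∧
    (LF m rep ρ x e v (fun i => κ (e i))).2.1 = 0 := by
  constructor
  · funext i j
    change eqW x v (e i) (κ (e i)) (j : ℕ) = 0
    refine (hLI d x v (e i) (κ (e i)) hN (he0 i) (hQe i)).1 ?_ j (by rw [hm]; exact j.2)
    rw [h.val (he0 i) (hQe i)]
    exact h (e i) (he0 i)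
  · funext i
    change spd (PP x) (QQ x) (varS x v) (e i) (κ (e i)) 1 -
      spd (PP x) (QQ x) (varS x v) (e (rep i)) (κ (e (rep i))) 1 = 0
    simp only [spd, Function.iterate_zero, id_eq, he0, zero_div, zero_mul, add_zero]
    rw [h.val (he0 _) (hQe _), h.val (he0 _) (hQe _), hrep, sub_self]

/-- every deformation comes from a variation of the coefficients -/
theorem exists_var {x : EE d} (hd : 2 ≤ d) (hcop : IsCoprime (PP x) (QQ x))
    (hQd : (QQ x).natDegree = d) {S : ℂ[X]} (hS : S.natDegree ≤ 2 * d) :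
    ∃ v : EE d, varS x v = S := by
  obtain ⟨H, G, hH, hG, h⟩ := D9_bezout hcop (PP_deg x) hQd (by omega) hS
  obtain ⟨b, hb1, hb2⟩ := PQ_surj hH hG
  exact ⟨b, by rw [varS, hb1, hb2, h]⟩

theorem FF_surj (hLI : S_LIN') (hSO : S_SOLVE) (hPF : S_PFX) (hI : S_INV0) (hG : S_GOODX)
    (hOR : S_ORBD) (hWR : S_WRD) (hd : 2 ≤ d) {x : EE d} (hcop : IsCoprime (PP x) (QQ x))
    (hQd : (QQ x).natDegree = d) (hN : wr (PP x) (QQ x) ≠ 0)
    (hdeg : (wr (PP x) (QQ x)).natDegree = 2 * d - 2)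
    (hpole : ∀ c : ℂ, (wr (PP x) (QQ x)).eval c = 0 → (QQ x).eval c ≠ 0) {A₀ : Set ℂ}
    (hA₀o : IsOpen A₀) (hA₀d : Dense A₀)
    (hwand : ∀ᵐ y : ℂ, y ∈ A₀ → ∃ U : Set ℂ, y ∈ U ∧ IsOpen U ∧
      ∀ z ∈ U, ∀ k, 0 < k → (rf (PP x) (QQ x))^[k] z ∉ U)
    {e : Fin r → ℂ} (he : Function.Injective e) (he0 : ∀ i, (wr (PP x) (QQ x)).eval (e i) = 0)
    (hall : ∀ z, (wr (PP x) (QQ x)).eval z = 0 → ∃ i, e i = z) {rep : Fin r → Fin r}
    (hrep : ∀ i, rf (PP x) (QQ x) (e (rep i)) = rf (PP x) (QQ x) (e i))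
    (hrep2 : ∀ i, rep (rep i) = rep i) {m : Fin r → ℕ}
    (hm : ∀ i, (wr (PP x) (QQ x)).rootMultiplicity (e i) = m i) {ρ : Fin N → RI r}
    (hρ : ∀ l, (rf (PP x) (QQ x))^[(ρ l).n] (e (ρ l).i) =
      (rf (PP x) (QQ x))^[(ρ l).n'] (e (ρ l).i'))
    (h5 : ∀ l, ∀ j < (ρ l).n, (QQ x).eval ((rf (PP x) (QQ x))^[j] (e (ρ l).i)) ≠ 0)
    (h6 : ∀ l, ∀ j < (ρ l).n', (QQ x).eval ((rf (PP x) (QQ x))^[j] (e (ρ l).i')) ≠ 0)
    (hind : LinearIndependent ℂ fun l => dv (PP x) (QQ x) (e (ρ l).i) (ρ l).n -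
      dv (PP x) (QQ x) (e (ρ l).i') (ρ l).n') :
    Function.Surjective (fderiv ℂ (FF m rep ρ) (x, e)) := by
  classical
  have hQe : ∀ i, (QQ x).eval (e i) ≠ 0 := fun i => hpole _ (he0 i)
  obtain ⟨-, hD⟩ := FF_diff (m := m) (rep := rep) (ρ := ρ) hOR hWR hQe h5 h6
  have hLD := @LF_of_Dfm d r N hLI x e rep ρ hN he0 hQe hrep m hm
  obtain ⟨D, hDd⟩ : ∃ D, D = fderiv ℂ (FF m rep ρ) (x, e) := ⟨_, rfl⟩
  rw [← hDd] at hD ⊢
  -- the third component is onto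
  let D' : EE d × (Fin r → ℂ) →ₗ[ℂ]
    ((i : Fin r) → Fin (m i) → ℂ) × ({i : Fin r // rep i ≠ i} → ℂ) × (Fin N → ℂ) := D
  let K : Submodule ℂ (EE d × (Fin r → ℂ)) :=
    LinearMap.ker (LinearMap.fst ℂ _ _ ∘ₗ D') ⊓
      LinearMap.ker (LinearMap.fst ℂ _ _ ∘ₗ LinearMap.snd ℂ _ _ ∘ₗ D')
  let R : Submodule ℂ (Fin N → ℂ) :=
    K.map (LinearMap.snd ℂ _ _ ∘ₗ LinearMap.snd ℂ _ _ ∘ₗ D')
  have hKm : ∀ y, y ∈ K ↔ (D y).1 = 0 ∧ (D y).2.1 = 0 := fun y => Iff.rfl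
  have hR : R = ⊤ := by
    by_contra hne
    obtain ⟨φ, hφ0, hφ⟩ := Submodule.exists_le_ker_of_lt_top R (lt_top_iff_ne_top.2 hne)
    obtain ⟨b, hb⟩ : ∃ b : Fin N → ℂ, b = fun l => φ (Pi.single l 1) := ⟨_, rfl⟩
    have hφb : ∀ z, φ z = ∑ l, b l * z l := by
      intro z
      have h1 : z = ∑ l, z l • (Pi.single l (1 : ℂ) : Fin N → ℂ) := by
        funext k
        simp [Finset.sum_apply, Pi.single_apply]
      conv_lhs => rw [h1]
      rw [map_sum]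
      refine Finset.sum_congr rfl fun l _ => ?_
      rw [map_smul, hb, smul_eq_mul, mul_comm]
    have h0 : ∑ l, b l • (dv (PP x) (QQ x) (e (ρ l).i) (ρ l).n -
        dv (PP x) (QQ x) (e (ρ l).i') (ρ l).n') = 0 := by
      refine eps (ρ := fun l => (ρ l).rel e) hPF hI hG hd hcop (PP_deg x) hQd hN hpole hA₀o hA₀d
        hwand hρ h5 h6 ?_
      intro S u κ hS hDf
      obtain ⟨v, hv⟩ := exists_var hd hcop hQd hS
      rw [← hv] at hDf ⊢
      obtain ⟨h1, h2⟩ := hLD hDf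
      have hK : ((v, fun i => κ (e i)) : EE d × (Fin r → ℂ)) ∈ K := by
        rw [hKm, hD]
        exact ⟨h1, h2⟩
      have h3 : (D ((v, fun i => κ (e i)) : EE d × (Fin r → ℂ))).2.2 ∈ R :=
        ⟨_, hK, rfl⟩
      have h4 := hφ h3
      rw [LinearMap.mem_ker, hφb, hD] at h4
      exact h4
    have hb0 : b = 0 := by
      funext l
      exact Fintype.linearIndependent_iff.1 hind b h0 l
    apply hφ0
    ext l
    rw [LinearMap.comp_apply, hφb]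
    simp [hb0]
  -- the first two components
  rintro ⟨a, b, c⟩
  obtain ⟨v₀, κ₀, h1, h2⟩ := hSO d hd x hcop hQd hN hdeg r e he he0 hQe hall
    (fun i j => if h : j < m i then a i ⟨j, h⟩ else 0)
    (fun i => if h : rep i ≠ i then b ⟨i, h⟩ else 0)
  have h3 : (D (v₀, κ₀)).1 = a := by
    rw [hD]
    funext i j
    change eqW x v₀ (e i) (κ₀ i) (j : ℕ) = _
    have hj : (j : ℕ) < (wr (PP x) (QQ x)).rootMultiplicity (e i) := by
      rw [hm]
      exact j.2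
    rw [h1 i j hj, dif_pos j.2]
  have h4 : (D (v₀, κ₀)).2.1 = b := by
    rw [hD]
    funext i
    change spd (PP x) (QQ x) (varS x v₀) (e i) (κ₀ i) 1 -
      spd (PP x) (QQ x) (varS x v₀) (e (rep i)) (κ₀ (rep i)) 1 = _
    simp only [spd, Function.iterate_zero, id_eq, he0, zero_div, zero_mul, add_zero]
    rw [h2, h2, dif_pos i.2, dif_neg (by rw [hrep2]; simp), sub_zero]
  have h5' : c - (D (v₀, κ₀)).2.2 ∈ R := by rw [hR]; trivial
  obtain ⟨y, hy, hy2⟩ := h5'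
  obtain ⟨hy3, hy4⟩ := (hKm y).1 hy
  refine ⟨(v₀, κ₀) + y, ?_⟩
  rw [map_add]
  refine Prod.ext ?_ (Prod.ext ?_ ?_)
  · rw [Prod.fst_add, hy3, add_zero, h3]
  · rw [Prod.snd_add, Prod.fst_add, hy4, add_zero, h4]
  · rw [Prod.snd_add, Prod.snd_add]
    change (D (v₀, κ₀)).2.2 + (D y).2.2 = c
    have h7 : (D y).2.2 = c - (D (v₀, κ₀)).2.2 := hy2
    rw [h7]
    abel

end

end Pool.Agent.H207.TF
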