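import Pool.Agent.H207.TF.Par2

/-! Project TF: the strata are complex manifolds, the chart. -/

set_option autoImplicit false

open Metric Set MeasureTheory Filter Topology Polynomial
open scoped OnePoint ENNReal

namespace Pool.Agent.H207.TF

open Pool.Agent.H792R2.CE Pool.Agent.H211.LR Pool.Agent.H211.AD
open Pool.Agent.H903.TF207.LIN (S_LIN')

section
variable {d r N : ℕ}

/-- representatives of the classes of a map -/
theorem exists_rep (g : Fin r → ℂ) : ∃ rep : Fin r → Fin r, (∀ i, g (rep i) = g i) ∧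
    (∀ i, rep (rep i) = rep i) ∧ (∀ i j, g i = g j → rep i = rep j) ∧
    Fintype.card {i : Fin r // rep i ≠ i} + (Finset.univ.image g).card = r := by
  classical
  have h1 : ∀ i, ∃ j, g j = g i := fun i => ⟨i, rfl⟩
  obtain ⟨s, hs⟩ : ∃ s : ℂ → Fin r → Fin r, ∀ i, g (s (g i) i) = g i ∧
      ∀ j, g i = g j → s (g i) i = s (g j) j := by
    refine ⟨fun y i => if h : ∃ j, g j = y then h.choose else i, fun i => ?_⟩
    constructor
    · simp only
      rw [dif_pos (h1 i)]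
      exact (h1 i).choose_spec
    · intro j hij
      simp only
      rw [dif_pos (h1 i), dif_pos (h1 j)]
      congr 1
      funext k
      rw [hij]
  refine ⟨fun i => s (g i) i, fun i => (hs i).1, fun i => (hs _).2 i (hs i).1,
    fun i j hij => (hs i).2 j hij, ?_⟩
  have h2 : (Finset.univ.image g).card = Fintype.card {i : Fin r // s (g i) i = i} := by
    rw [Fintype.card_subtype]
    symm
    refine Finset.card_bij (fun i _ => g i) (fun i _ => Finset.mem_image_of_mem _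
      (Finset.mem_univ _)) ?_ ?_
    · intro i hi j hj hij
      rw [Finset.mem_filter] at hi hj
      rw [← hi.2, ← hj.2]
      exact (hs i).2 j hij
    · intro y hy
      obtain ⟨i, -, rfl⟩ := Finset.mem_image.1 hy
      refine ⟨s (g i) i, ?_, (hs i).1⟩
      rw [Finset.mem_filter]
      exact ⟨Finset.mem_univ _, (hs _).2 i (hs i).1⟩
  rw [h2]
  have h3 := Fintype.card_subtype_compl (fun i : Fin r => s (g i) i = i)
  have h4 := Fintype.card_subtype_le (fun i : Fin r => s (g i) i = i)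
  rw [Fintype.card_fin] at h3 h4
  have h5 : Fintype.card {i : Fin r // s (g i) i ≠ i} =
      Fintype.card {i : Fin r // ¬ (s (g i) i = i)} := rfl
  rw [h5, h3]
  omega

/-- the sum of the multiplicities -/
theorem sum_mult {W : ℂ[X]} (hW : W ≠ 0) {e : Fin r → ℂ} (he : Function.Injective e)
    (he0 : ∀ i, W.eval (e i) = 0) (hall : ∀ z, W.eval z = 0 → ∃ i, e i = z) :
    ∑ i, W.rootMultiplicity (e i) = W.natDegree := by
  classical
  have h1 : W.roots.card = W.natDegree :=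
    (IsAlgClosed.splits W).natDegree_eq_card_roots.symm
  rw [← h1, ← Multiset.toFinset_sum_count_eq]
  have h2 : W.roots.toFinset = Finset.univ.image e := by
    ext z
    rw [Multiset.mem_toFinset, Polynomial.mem_roots hW, Finset.mem_image]
    constructor
    · intro h
      obtain ⟨i, hi⟩ := hall z h
      exact ⟨i, Finset.mem_univ _, hi⟩
    · rintro ⟨i, -, rfl⟩
      exact he0 i
  rw [h2, Finset.sum_image fun i _ j _ h => he h]
  refine Finset.sum_congr rfl fun i _ => ?_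
  rw [Polynomial.count_roots]

theorem finrank_Z (m : Fin r → ℕ) (rep : Fin r → Fin r) :
    Module.finrank ℂ (((i : Fin r) → Fin (m i) → ℂ) × ({i : Fin r // rep i ≠ i} → ℂ) ×
      (Fin N → ℂ)) = ∑ i, m i + (Fintype.card {i : Fin r // rep i ≠ i} + N) := by
  rw [Module.finrank_prod, Module.finrank_prod, Module.finrank_pi_fintype,
    Module.finrank_fintype_fun_eq_card, Module.finrank_fin_fun]
  congr 1
  refine Finset.sum_congr rfl fun i _ => ?_
  rw [Module.finrank_fin_fun]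

theorem finrank_Y : Module.finrank ℂ (EE d × (Fin r → ℂ)) = 2 * d + 2 + r := by
  rw [Module.finrank_prod, Module.finrank_fin_fun, Module.finrank_fintype_fun_eq_card,
    Fintype.card_prod, Fintype.card_fin, Fintype.card_fin]
  ring

theorem PP_zero' : PP (0 : EE d) = 0 := by
  have h := PP_smul (0 : EE d) (0 : ℂ)
  rwa [zero_smul, C_0, zero_mul] at h

theorem QQ_zero' : QQ (0 : EE d) = 0 := by
  have h := QQ_smul (0 : EE d) (0 : ℂ)
  rwa [zero_smul, C_0, zero_mul] at h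

theorem varW_zero (x : EE d) : varW x 0 = 0 := by
  unfold varW
  rw [PP_zero', QQ_zero']
  simp [wr]

/-- the kernel of the projection to the coefficients -/
theorem LF_fst_zero {x : EE d} {e κ : Fin r → ℂ} {rep : Fin r → Fin r} {ρ : Fin N → RI r}
    (hN : wr (PP x) (QQ x) ≠ 0) (he0 : ∀ i, (wr (PP x) (QQ x)).eval (e i) = 0) {m : Fin r → ℕ}
    (hm : ∀ i, (wr (PP x) (QQ x)).rootMultiplicity (e i) = m i)
    (h : (LF m rep ρ x e 0 κ).1 = 0) : κ = 0 := by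
  funext i
  have hmi : 0 < m i := by
    rw [← hm]
    exact (rootMultiplicity_pos hN).2 (he0 i)
  have h1 := congrFun (congrFun h i) ⟨m i - 1, by omega⟩
  change eqW x 0 (e i) (κ i) (m i - 1) = 0 at h1
  unfold eqW at h1
  rw [varW_zero, map_zero, Polynomial.eval_zero, zero_add] at h1
  have h2 : m i - 1 + 1 = m i := by omega
  rw [h2] at h1
  have h3 : (hasseDeriv (m i) (wr (PP x) (QQ x))).eval (e i) ≠ 0 := by
    intro h0
    have h4 : (X - C (e i)) ^ (m i + 1) ∣ wr (PP x) (QQ x) := by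
      rw [dvd_iff_hasse]
      intro j
      rcases Nat.lt_succ_iff_lt_or_eq.1 j.2 with h5 | h5
      · have h6 := (dvd_iff_hasse (wr (PP x) (QQ x)) (e i) (m i)).1
          (by rw [← hm]; exact pow_rootMultiplicity_dvd _ _)
        exact h6 ⟨j, h5⟩
      · rw [h5]
        exact h0
    have h7 := (le_rootMultiplicity_iff hN).2 h4
    rw [hm] at h7
    omega
  have h4 : ((m i - 1 : ℕ) : ℂ) + 1 ≠ 0 := Nat.cast_add_one_ne_zero _
  rcases mul_eq_zero.1 h1 with h5 | h5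
  · exact absurd h5 (mul_ne_zero h4 h3)
  · exact h5

theorem sum_rootMult_le {W : ℂ[X]} (T : Finset ℂ) : ∑ z ∈ T, W.rootMultiplicity z ≤ W.natDegree := by
  classical
  have h1 : ∑ z ∈ T ∪ W.roots.toFinset, W.roots.count z = W.roots.card :=
    Multiset.sum_count_eq_card fun a ha => Finset.mem_union_right _ (Multiset.mem_toFinset.2 ha)
  have h2 : ∑ z ∈ T, W.roots.count z ≤ ∑ z ∈ T ∪ W.roots.toFinset, W.roots.count z :=
    Finset.sum_le_sum_of_subset Finset.subset_union_left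
  have h3 := W.card_roots'
  simp only [Polynomial.count_roots] at h1 h2
  omega

/-- multiplicities are exact if their sum is the degree -/
theorem mult_eq {W : ℂ[X]} (hW : W ≠ 0) {e : Fin r → ℂ} (he : Function.Injective e)
    {m : Fin r → ℕ} (hm : ∀ i, (X - C (e i)) ^ m i ∣ W) (hsum : ∑ i, m i = W.natDegree)
    (hpos : ∀ i, 0 < m i) :
    (∀ i, W.rootMultiplicity (e i) = m i) ∧ ∀ z, W.eval z = 0 ↔ ∃ i, e i = z := by
  classical
  have h1 : ∀ i, m i ≤ W.rootMultiplicity (e i) := fun i => (le_rootMultiplicity_iff hW).2 (hm i)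
  have h2 : ∑ i, W.rootMultiplicity (e i) ≤ W.natDegree := by
    have h3 := sum_rootMult_le (W := W) (Finset.univ.image e)
    rwa [Finset.sum_image fun i _ j _ h => he h] at h3
  have h3 : ∑ i, m i = ∑ i, W.rootMultiplicity (e i) :=
    le_antisymm (Finset.sum_le_sum fun i _ => h1 i) (by rw [hsum]; exact h2)
  have h4 : ∀ i, W.rootMultiplicity (e i) = m i := fun i =>
    ((Finset.sum_eq_sum_iff_of_le fun i _ => h1 i).1 h3 i (Finset.mem_univ i)).symm
  refine ⟨h4, fun z => ⟨fun hz => ?_, ?_⟩⟩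
  · by_contra hne
    push Not at hne
    have hzn : z ∉ Finset.univ.image e := by
      rw [Finset.mem_image]
      rintro ⟨i, -, hi⟩
      exact hne i hi
    have h5 := sum_rootMult_le (W := W) (insert z (Finset.univ.image e))
    rw [Finset.sum_insert hzn, Finset.sum_image fun i _ j _ h => he h, ← h3, hsum] at h5
    have h6 := (rootMultiplicity_pos hW).2 hz
    omega
  · rintro ⟨i, rfl⟩
    have := hpos i
    rw [← h4] at this
    exact (rootMultiplicity_pos hW).1 this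

/-- **The strata are complex manifolds.** -/
theorem param (hLI : S_LIN') (hSO : S_SOLVE) (hPF : S_PFX) (hI : S_INV0) (hG : S_GOODX)
    (hOR : S_ORBD) (hWR : S_WRD) (hd : 2 ≤ d) {x : EE d} (hcop : IsCoprime (PP x) (QQ x))
    (hQd : (QQ x).natDegree = d) (hN : wr (PP x) (QQ x) ≠ 0)
    (hdeg : (wr (PP x) (QQ x)).natDegree = 2 * d - 2)
    (hpole : ∀ c : ℂ, (wr (PP x) (QQ x)).eval c = 0 → (QQ x).eval c ≠ 0) {A₀ : Set ℂ}
    (hA₀o : IsOpen A₀) (hA₀d : Dense A₀)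
    (hwand : ∀ᵐ y : ℂ, y ∈ A₀ → ∃ U : Set ℂ, y ∈ U ∧ IsOpen U ∧
      ∀ z ∈ U, ∀ k, 0 < k → (rf (PP x) (QQ x))^[k] z ∉ U)
    {e : Fin r → ℂ} (he : Function.Injective e) (he0 : ∀ i, (wr (PP x) (QQ x)).eval (e i) = 0)
    (hall : ∀ z, (wr (PP x) (QQ x)).eval z = 0 → ∃ i, e i = z) {m : Fin r → ℕ}
    (hm : ∀ i, (wr (PP x) (QQ x)).rootMultiplicity (e i) = m i) {ρ : Fin N → RI r}
    (hρ : ∀ l, (rf (PP x) (QQ x))^[(ρ l).n] (e (ρ l).i) =
      (rf (PP x) (QQ x))^[(ρ l).n'] (e (ρ l).i'))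
    (h5 : ∀ l, ∀ j < (ρ l).n, (QQ x).eval ((rf (PP x) (QQ x))^[j] (e (ρ l).i)) ≠ 0)
    (h6 : ∀ l, ∀ j < (ρ l).n', (QQ x).eval ((rf (PP x) (QQ x))^[j] (e (ρ l).i')) ≠ 0)
    (hind : LinearIndependent ℂ fun l => dv (PP x) (QQ x) (e (ρ l).i) (ρ l).n -
      dv (PP x) (QQ x) (e (ρ l).i') (ρ l).n') :
    ∃ (n : ℕ) (Ψ : (Fin n → ℂ) → EE d) (c : (Fin n → ℂ) → Fin r → ℂ) (U : Set (Fin n → ℂ)),
      n + N = (Finset.univ.image fun i => rf (PP x) (QQ x) (e i)).card + 4 ∧ IsOpen U ∧ 0 ∈ U ∧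
      DifferentiableOn ℂ Ψ U ∧ DifferentiableOn ℂ c U ∧ Ψ 0 = x ∧ c 0 = e ∧ InjOn Ψ U ∧
      (∀ t ∈ U, Function.Injective (fderiv ℂ Ψ t)) ∧
      (∀ t ∈ U, InS m (fun i j => rf (PP x) (QQ x) (e i) = rf (PP x) (QQ x) (e j)) ρ
        (Ψ t) (c t)) ∧
      (∃ ε > (0 : ℝ), ∀ (y : EE d) (c' : Fin r → ℂ), ‖y - x‖ < ε → ‖c' - e‖ < ε →
        InS m (fun i j => rf (PP x) (QQ x) (e i) = rf (PP x) (QQ x) (e j)) ρ y c' →
        ∃ t ∈ U, Ψ t = y ∧ c t = c') ∧
      ∀ t ∈ U, Function.Injective (c t) ∧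
        (∀ z, (wr (PP (Ψ t)) (QQ (Ψ t))).eval z = 0 ↔ ∃ i, c t i = z) ∧
        (∀ i, (wr (PP (Ψ t)) (QQ (Ψ t))).rootMultiplicity (c t i) = m i) ∧
        (∀ i, (QQ (Ψ t)).eval (c t i) ≠ 0) ∧
        (∀ l, ∀ j < (ρ l).n,
          (QQ (Ψ t)).eval ((rf (PP (Ψ t)) (QQ (Ψ t)))^[j] (c t (ρ l).i)) ≠ 0) ∧
        (∀ l, ∀ j < (ρ l).n',
          (QQ (Ψ t)).eval ((rf (PP (Ψ t)) (QQ (Ψ t)))^[j] (c t (ρ l).i')) ≠ 0) ∧
        ∀ (S : ℂ[X]) (u κ : ℂ → ℂ), IsCoprime (PP (Ψ t)) (QQ (Ψ t)) → (QQ (Ψ t)).natDegree = d →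
          S.natDegree ≤ 2 * d → Dfm (PP (Ψ t)) (QQ (Ψ t)) S u κ →
          (∀ l, ((ρ l).rel (c t)).Keep (PP (Ψ t)) (QQ (Ψ t)) S κ) →
          ∃ v, varS (Ψ t) (fderiv ℂ Ψ t v) = S := by
  classical
  have hQe : ∀ i, (QQ x).eval (e i) ≠ 0 := fun i => hpole _ (he0 i)
  obtain ⟨rep, hrep, hrep2, hrep3, hcard⟩ := exists_rep fun i => rf (PP x) (QQ x) (e i)
  have hFB : ∀ {y : EE d} {c' : Fin r → ℂ}, FF m rep ρ (y, c') = 0 →
      ∀ i, rf (PP y) (QQ y) (c' (rep i)) = rf (PP y) (QQ y) (c' i) := by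
    intro y c' h i
    have hB : ∀ i : {i : Fin r // rep i ≠ i}, (rf (PP y) (QQ y))^[1] (c' i) -
        (rf (PP y) (QQ y))^[1] (c' (rep i)) = 0 :=
      fun i => congrFun (congrArg (fun z => z.2.1) h) i
    by_cases hi : rep i = i
    · rw [hi]
    · exact (sub_eq_zero.1 (hB ⟨i, hi⟩)).symm
  -- the equations describe the stratum
  have hFS : ∀ (y : EE d) (c' : Fin r → ℂ), FF m rep ρ (y, c') = 0 ↔
      InS m (fun i j => rf (PP x) (QQ x) (e i) = rf (PP x) (QQ x) (e j)) ρ y c' := by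
    intro y c'
    constructor
    · intro h
      have hA : ∀ i (j : Fin (m i)), (hasseDeriv (j : ℕ) (wr (PP y) (QQ y))).eval (c' i) = 0 :=
        fun i j => congrFun (congrFun (congrArg Prod.fst h) i) j
      have hC : ∀ l, (rf (PP y) (QQ y))^[(ρ l).n] (c' (ρ l).i) -
          (rf (PP y) (QQ y))^[(ρ l).n'] (c' (ρ l).i') = 0 :=
        fun l => congrFun (congrArg (fun z => z.2.2) h) l
      refine ⟨fun i => (dvd_iff_hasse _ _ _).2 (hA i), fun i j hij => ?_,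
        fun l => sub_eq_zero.1 (hC l)⟩
      rw [← hFB h i, ← hFB h j, hrep3 i j hij]
    · rintro ⟨h1, h2, h3⟩
      refine Prod.ext ?_ (Prod.ext ?_ ?_)
      · funext i j
        exact (dvd_iff_hasse _ _ _).1 (h1 i) j
      · funext i
        change rf (PP y) (QQ y) (c' i) - rf (PP y) (QQ y) (c' (rep i)) = 0
        rw [sub_eq_zero]
        exact h2 i (rep i) (hrep i).symm
      · funext l
        exact sub_eq_zero.2 (h3 l)
  obtain ⟨hC1, hD⟩ := FF_diff (m := m) (rep := rep) (ρ := ρ) hOR hWR hQe h5 h6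
  have hF0 : FF m rep ρ (x, e) = 0 := by
    rw [hFS]
    exact ⟨fun i => by rw [← hm]; exact pow_rootMultiplicity_dvd _ _, fun i j hij => hij, hρ⟩
  have hsurj := FF_surj hLI hSO hPF hI hG hOR hWR hd hcop hQd hN hdeg hpole hA₀o hA₀d hwand he he0
    hall hrep hrep2 hm hρ h5 h6 hind
  obtain ⟨n, ψ, U, hdim, hUo, hU0, hψ, hψ0, hinj, hFψ, hψinj, hFd, htan, hloc⟩ :=
    ift_main (EE d × (Fin r → ℂ)) _ (FF m rep ρ) (x, e) hC1 hF0 hsurj
  have hsm : ∑ i, m i = 2 * d - 2 := by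
    rw [← hdeg, ← sum_mult hN he he0 hall]
    exact Finset.sum_congr rfl fun i _ => (hm i).symm
  have hmpos : ∀ i, 0 < m i := fun i => by
    rw [← hm]
    exact (rootMultiplicity_pos hN).2 (he0 i)
  -- the dimension
  have hn : n + N = (Finset.univ.image fun i => rf (PP x) (QQ x) (e i)).card + 4 := by
    rw [finrank_Z, finrank_Y] at hdim
    rw [hsm] at hdim
    omega
  -- the projections
  have hψd : ∀ t ∈ U, HasFDerivAt ψ (fderiv ℂ ψ t) t := fun t ht =>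
    ((hψ t ht).differentiableAt one_ne_zero).hasFDerivAt
  have hΨd : ∀ t ∈ U, HasFDerivAt (fun t => (ψ t).1)
      ((ContinuousLinearMap.fst ℂ _ _).comp (fderiv ℂ ψ t)) t := fun t ht => (hψd t ht).fst
  have hcd : ∀ t ∈ U, HasFDerivAt (fun t => (ψ t).2)
      ((ContinuousLinearMap.snd ℂ _ _).comp (fderiv ℂ ψ t)) t := fun t ht => (hψd t ht).snd
  have hΨt : ∀ s ∈ U, ∀ t, fderiv ℂ (fun t => (ψ t).1) s t = (fderiv ℂ ψ s t).1 := by
    intro s hs t
    rw [(hΨd s hs).fderiv]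
    rfl
  have hΨinj : Function.Injective (fderiv ℂ (fun t => (ψ t).1) 0) := by
    rw [injective_iff_map_eq_zero]
    intro t ht
    rw [hΨt 0 hU0] at ht
    have h1 := hFd t
    obtain ⟨κ, hκ⟩ : ∃ κ, κ = (fderiv ℂ ψ 0 t).2 := ⟨_, rfl⟩
    have h2 : fderiv ℂ ψ 0 t = (0, κ) := by
      rw [hκ]
      exact Prod.ext ht rfl
    rw [h2, hD] at h1
    have h3 := LF_fst_zero hN he0 hm (congrArg Prod.fst h1)
    rw [h3] at h2
    have h4 : fderiv ℂ ψ 0 t = fderiv ℂ ψ 0 0 := by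
      rw [h2, map_zero]
      rfl
    exact hψinj h4
  have hΨc : ContDiffAt ℂ 1 (fun t => (ψ t).1) 0 := (hψ 0 hU0).fst
  obtain ⟨V₁, hV₁, hV₁i⟩ := locInj (hΨc.hasStrictFDerivAt (by norm_num)) hΨinj
  have hV₂ : (fderiv ℂ fun t => (ψ t).1) ⁻¹' {L | Function.Injective L} ∈ 𝓝 0 := by
    have h1 : ContinuousAt (fderiv ℂ fun t => (ψ t).1) 0 :=
      (hΨc.fderiv_right (m := 0) (by norm_num)).continuousAt
    exact h1.preimage_mem_nhds (ContinuousLinearMap.isOpen_injective.mem_nhds hΨinj)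
  -- the open conditions
  have hpr : ∀ i : Fin r, ContinuousAt (fun y : EE d × (Fin r → ℂ) => (y.1, y.2 i)) (x, e) :=
    fun i => (prj (d := d) i).continuous.continuousAt
  have hO : ∀ (i : Fin r) (j : ℕ), (∀ k ≤ j, (QQ x).eval ((rf (PP x) (QQ x))^[k] (e i)) ≠ 0) →
      ∀ᶠ y : EE d × (Fin r → ℂ) in 𝓝 (x, e),
        (QQ y.1).eval ((rf (PP y.1) (QQ y.1))^[j] (y.2 i)) ≠ 0 := by
    intro i j hj
    have h1 : ContinuousAt (fun p : EE d × ℂ => (rf (PP p.1) (QQ p.1))^[j] p.2) (x, e i) :=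
      (hOR d x (e i) j fun k hk => hj k hk.le).1.continuousAt
    have h2 : ContinuousAt (fun y : EE d × (Fin r → ℂ) =>
        (rf (PP y.1) (QQ y.1))^[j] (y.2 i)) (x, e) :=
      ContinuousAt.comp (x := (x, e))
        (g := fun p : EE d × ℂ => (rf (PP p.1) (QQ p.1))^[j] p.2) (f := prj i) h1 (hpr i)
    have h3 : ContinuousAt (fun y : EE d × (Fin r → ℂ) =>
        (QQ y.1).eval ((rf (PP y.1) (QQ y.1))^[j] (y.2 i))) (x, e) :=
      ContinuousAt.comp (x := (x, e))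
        (g := fun p : EE d × ℂ => (QQ p.1).eval p.2)
        (f := fun y : EE d × (Fin r → ℂ) => (y.1, (rf (PP y.1) (QQ y.1))^[j] (y.2 i)))
        QQ_cd.continuous.continuousAt (continuousAt_fst.prodMk h2)
    exact h3.eventually_ne (hj j le_rfl)
  have hG1 : ∀ᶠ y : EE d × (Fin r → ℂ) in 𝓝 (x, e), ∀ i, (QQ y.1).eval (y.2 i) ≠ 0 := by
    rw [eventually_all]
    intro i
    refine hO i 0 fun k hk => ?_
    rw [Nat.le_zero.1 hk]
    exact hQe i
  have hG2 : ∀ᶠ y : EE d × (Fin r → ℂ) in 𝓝 (x, e), ∀ l, ∀ j < (ρ l).n,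
      (QQ y.1).eval ((rf (PP y.1) (QQ y.1))^[j] (y.2 (ρ l).i)) ≠ 0 := by
    rw [eventually_all]
    intro l
    have h1 : ∀ᶠ y : EE d × (Fin r → ℂ) in 𝓝 (x, e), ∀ j ∈ Finset.range (ρ l).n,
        (QQ y.1).eval ((rf (PP y.1) (QQ y.1))^[j] (y.2 (ρ l).i)) ≠ 0 := by
      rw [Filter.eventually_all_finset]
      intro j hj
      exact hO _ j fun k hk => h5 l k (by have := Finset.mem_range.1 hj; omega)
    exact h1.mono fun y hy j hj => hy j (Finset.mem_range.2 hj)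
  have hG3 : ∀ᶠ y : EE d × (Fin r → ℂ) in 𝓝 (x, e), ∀ l, ∀ j < (ρ l).n',
      (QQ y.1).eval ((rf (PP y.1) (QQ y.1))^[j] (y.2 (ρ l).i')) ≠ 0 := by
    rw [eventually_all]
    intro l
    have h1 : ∀ᶠ y : EE d × (Fin r → ℂ) in 𝓝 (x, e), ∀ j ∈ Finset.range (ρ l).n',
        (QQ y.1).eval ((rf (PP y.1) (QQ y.1))^[j] (y.2 (ρ l).i')) ≠ 0 := by
      rw [Filter.eventually_all_finset]
      intro j hj
      exact hO _ j fun k hk => h6 l k (by have := Finset.mem_range.1 hj; omega)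
    exact h1.mono fun y hy j hj => hy j (Finset.mem_range.2 hj)
  have hG4 : ∀ᶠ y : EE d × (Fin r → ℂ) in 𝓝 (x, e),
      (wr (PP y.1) (QQ y.1)).natDegree = 2 * d - 2 ∧ wr (PP y.1) (QQ y.1) ≠ 0 := by
    have h1 : ContinuousAt (fun p : EE d × ℂ =>
        (hasseDeriv (2 * d - 2) (wr (PP p.1) (QQ p.1))).eval p.2) (x, 0) :=
      (hWR d x 0 (2 * d - 2)).1.continuousAt
    have h2 : ContinuousAt (fun y : EE d × (Fin r → ℂ) => ((y.1, (0 : ℂ)) : EE d × ℂ)) (x, e) :=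
      continuousAt_fst.prodMk continuousAt_const
    have h3 : ContinuousAt (fun y : EE d × (Fin r → ℂ) =>
        (hasseDeriv (2 * d - 2) (wr (PP y.1) (QQ y.1))).eval 0) (x, e) :=
      ContinuousAt.comp (x := (x, e))
        (g := fun p : EE d × ℂ => (hasseDeriv (2 * d - 2) (wr (PP p.1) (QQ p.1))).eval p.2)
        (f := fun y : EE d × (Fin r → ℂ) => ((y.1, (0 : ℂ)) : EE d × ℂ)) h1 h2
    have h4 : ∀ W : ℂ[X], (hasseDeriv (2 * d - 2) W).eval 0 = W.coeff (2 * d - 2) := by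
      intro W
      rw [← Polynomial.taylor_coeff, Polynomial.taylor_zero]
    simp only [h4] at h3
    have h5 : (wr (PP x) (QQ x)).coeff (2 * d - 2) ≠ 0 := by
      rw [← hdeg]
      exact Polynomial.leadingCoeff_ne_zero.2 hN
    filter_upwards [h3.eventually_ne h5] with y hy
    refine ⟨le_antisymm (wr_natDegree (by omega) (PP_deg _) (QQ_deg _))
      (Polynomial.le_natDegree_of_ne_zero hy), fun h0 => hy ?_⟩
    rw [h0, Polynomial.coeff_zero]
  have hG5 : ∀ᶠ y : EE d × (Fin r → ℂ) in 𝓝 (x, e), Function.Injective y.2 := by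
    have h1 : ∀ᶠ y : EE d × (Fin r → ℂ) in 𝓝 (x, e), ∀ i j, i ≠ j → y.2 i ≠ y.2 j := by
      rw [eventually_all]
      intro i
      rw [eventually_all]
      intro j
      by_cases hij : i = j
      · exact Eventually.of_forall fun y h => absurd hij h
      · have h2 : ∀ᶠ y : EE d × (Fin r → ℂ) in 𝓝 (x, e), y.2 i ≠ y.2 j := by
          have h3 : Continuous fun y : EE d × (Fin r → ℂ) => y.2 i := by fun_prop
          have h4 : Continuous fun y : EE d × (Fin r → ℂ) => y.2 j := by fun_prop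
          exact (h3.continuousAt.ne_iff_eventually_ne h4.continuousAt).1 fun h => hij (he h)
        exact h2.mono fun y hy _ => hy
    refine h1.mono fun y hy i j hij => ?_
    by_contra h
    exact hy i j h hij
  have hGt : ∀ᶠ t in 𝓝 (0 : Fin n → ℂ), (∀ i, (QQ (ψ t).1).eval ((ψ t).2 i) ≠ 0) ∧
      (∀ l, ∀ j < (ρ l).n,
        (QQ (ψ t).1).eval ((rf (PP (ψ t).1) (QQ (ψ t).1))^[j] ((ψ t).2 (ρ l).i)) ≠ 0) ∧
      (∀ l, ∀ j < (ρ l).n',
        (QQ (ψ t).1).eval ((rf (PP (ψ t).1) (QQ (ψ t).1))^[j] ((ψ t).2 (ρ l).i')) ≠ 0) ∧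
      ((wr (PP (ψ t).1) (QQ (ψ t).1)).natDegree = 2 * d - 2 ∧
        wr (PP (ψ t).1) (QQ (ψ t).1) ≠ 0) ∧ Function.Injective (ψ t).2 := by
    have h1 : Tendsto ψ (𝓝 0) (𝓝 (x, e)) := by
      rw [← hψ0]
      exact (hψ 0 hU0).continuousAt
    exact h1.eventually (hG1.and (hG2.and (hG3.and (hG4.and hG5))))
  obtain ⟨V, hV, hVo, hV0⟩ :=
    _root_.mem_nhds_iff.1 (Filter.inter_mem (Filter.inter_mem hV₁ hV₂) hGt)
  obtain ⟨ε, hε, hloc⟩ := hloc V (hVo.mem_nhds hV0)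
  refine ⟨n, fun t => (ψ t).1, fun t => (ψ t).2, U ∩ V, hn, hUo.inter hVo, ⟨hU0, hV0⟩,
    fun t ht => (hΨd t ht.1).differentiableAt.differentiableWithinAt,
    fun t ht => (hcd t ht.1).differentiableAt.differentiableWithinAt, congrArg Prod.fst hψ0,
    congrArg Prod.snd hψ0,
    hV₁i.mono fun t ht => (hV ht.2).1.1, fun t ht => (hV ht.2).1.2, fun t ht => ?_,
    ⟨ε, hε, fun y c' hy hc' hS => ?_⟩, fun t ht => ?_⟩
  · rw [← hFS]
    exact hFψ t ht.1
  · have h1 : ‖((y, c') : EE d × (Fin r → ℂ)) - (x, e)‖ < ε := by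
      rw [Prod.mk_sub_mk, Prod.norm_mk]
      exact max_lt hy hc'
    obtain ⟨t, ht, ht2⟩ := hloc (y, c') h1 ((hFS y c').2 hS)
    exact ⟨t, ht, congrArg Prod.fst ht2, congrArg Prod.snd ht2⟩
  · obtain ⟨g1, g2, g3, ⟨g4, g4'⟩, g5⟩ := (hV ht.2).2
    have hIS := (hFS (ψ t).1 (ψ t).2).1 (hFψ t ht.1)
    obtain ⟨g6, g7⟩ := mult_eq g4' g5 hIS.1 (by rw [hsm, g4]) hmpos
    refine ⟨g5, g7, g6, g1, g2, g3, fun S u κ hcop' hQd' hS hDf hK => ?_⟩
    obtain ⟨v, hv⟩ := exists_var hd hcop' hQd' hS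
    rw [← hv] at hDf hK
    obtain ⟨h1, h2⟩ := LF_of_Dfm (ρ := ρ) hLI g4' (fun i => (g7 _).2 ⟨i, rfl⟩) g1
      (hFB (hFψ t ht.1)) g6 hDf
    obtain ⟨-, hD'⟩ := FF_diff (m := m) (rep := rep) (ρ := ρ) hOR hWR g1 g2 g3
    have h3 : fderiv ℂ (FF m rep ρ) (ψ t) (v, fun i => κ ((ψ t).2 i)) = 0 := by
      have h4 := hD' v fun i => κ ((ψ t).2 i)
      refine h4.trans (Prod.ext h1 (Prod.ext h2 ?_))
      funext l
      exact sub_eq_zero.2 (hK l)
    obtain ⟨s, hs⟩ := htan t ht.1 _ h3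
    refine ⟨s, ?_⟩
    rw [hΨt t ht.1, hs]
    exact hv

end

end Pool.Agent.H207.TF
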