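import Pool.Agent.H207.TF.Stm2

/-! Project TF: transversality in the strata of critical orbit relations. -/

set_option autoImplicit false

open Metric Set MeasureTheory Filter Topology Polynomial
open scoped OnePoint ENNReal

namespace Pool.Agent.H207.TF

open Pool.Agent.H792R2.CE

/-! ### prepending finitely many terms -/

/-- a sequence of pairs, with a finite list in front of it -/
def pre (F : ℕ → ℂ × ℂ) : List (ℂ × ℂ) → ℕ → ℂ × ℂ
  | [] => F
  | q :: L => fun j => match j with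
    | 0 => q
    | j + 1 => pre F L j

theorem pre_zero (F : ℕ → ℂ × ℂ) (q : ℂ × ℂ) (L : List (ℂ × ℂ)) : pre F (q :: L) 0 = q := rfl

theorem pre_succ (F : ℕ → ℂ × ℂ) (q : ℂ × ℂ) (L : List (ℂ × ℂ)) (j : ℕ) :
    pre F (q :: L) (j + 1) = pre F L j := rfl

theorem pre_summable {F : ℕ → ℂ × ℂ} {E : Type*} [NormedAddCommGroup E] (H : ℂ × ℂ → E)
    (hF : Summable fun j => H (F j)) (L : List (ℂ × ℂ)) : Summable fun j => H (pre F L j) := by
  induction L with
  | nil => exact hF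
  | cons q L ih =>
    rw [← summable_nat_add_iff 1]
    exact ih

theorem pre_tsum {F : ℕ → ℂ × ℂ} (H : ℂ × ℂ → ℂ) (hF : Summable fun j => H (F j))
    (L : List (ℂ × ℂ)) : ∑' j, H (pre F L j) = (L.map H).sum + ∑' j, H (F j) := by
  induction L with
  | nil => simp [pre]
  | cons q L ih =>
    rw [(pre_summable H hF (q :: L)).tsum_eq_zero_add]
    simp only [pre_zero, pre_succ]
    rw [ih, List.map_cons, List.sum_cons, add_assoc]

theorem pre_range {F : ℕ → ℂ × ℂ} (L : List (ℂ × ℂ)) (j : ℕ) :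
    pre F L j ∈ L ∨ ∃ i, pre F L j = F i := by
  induction L generalizing j with
  | nil => exact Or.inr ⟨j, rfl⟩
  | cons q L ih =>
    cases j with
    | zero => left; rw [pre_zero]; exact List.mem_cons_self
    | succ j =>
      rw [pre_succ]
      rcases ih j with h | h
      · exact Or.inl (List.mem_cons_of_mem _ h)
      · exact Or.inr h

/-! ### finite Cauchy sums of the relations -/

/-- poles and residues of the orbit `c, f c, …, f^n c` -/
noncomputable def cl (P Q : ℂ[X]) (c : ℂ) : ℕ → List (ℂ × ℂ)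
  | 0 => [(1, c)]
  | n + 1 => (-((wr P Q).eval ((rf P Q)^[n] c) / Q.eval ((rf P Q)^[n] c) ^ 2), (rf P Q)^[n] c) ::
      (cl P Q c n).map fun q =>
        ((wr P Q).eval ((rf P Q)^[n] c) / Q.eval ((rf P Q)^[n] c) ^ 2 * q.1, q.2)

/-- a weighted sum over a list of pairs -/
def ws (h : ℂ → ℂ) (L : List (ℂ × ℂ)) : ℂ := (L.map fun q => q.1 * h q.2).sum

theorem ws_nil (h : ℂ → ℂ) : ws h [] = 0 := rfl

theorem ws_cons (h : ℂ → ℂ) (q : ℂ × ℂ) (L : List (ℂ × ℂ)) :
    ws h (q :: L) = q.1 * h q.2 + ws h L := by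
  simp [ws]

theorem ws_append (h : ℂ → ℂ) (L M : List (ℂ × ℂ)) : ws h (L ++ M) = ws h L + ws h M := by
  simp [ws]

theorem ws_scale (h : ℂ → ℂ) (b : ℂ) (L : List (ℂ × ℂ)) :
    ws h (L.map fun q => (b * q.1, q.2)) = b * ws h L := by
  induction L with
  | nil => simp [ws]
  | cons q L ih =>
    rw [List.map_cons, ws_cons, ws_cons, ih]
    ring

theorem cl_mem {P Q : ℂ[X]} {c : ℂ} {n : ℕ} {q : ℂ × ℂ} (hq : q ∈ cl P Q c n) :
    ∃ j ≤ n, q.2 = (rf P Q)^[j] c := by
  induction n generalizing q with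
  | zero =>
    simp only [cl, List.mem_singleton] at hq
    exact ⟨0, le_rfl, by rw [hq]; rfl⟩
  | succ n ih =>
    simp only [cl, List.mem_cons, List.mem_map] at hq
    rcases hq with h | ⟨q', h, h'⟩
    · exact ⟨n, Nat.le_succ n, by rw [h]⟩
    · obtain ⟨j, hj, hj2⟩ := ih h
      exact ⟨j, by omega, by rw [← h']; exact hj2⟩

/-- the speeds for the Moebius directions -/
theorem spd_moebius {P Q h : ℂ[X]} {c : ℂ} (n : ℕ) :
    spd P Q (wr P Q * h) c (-h.eval c) n = -ws (fun z => h.eval z) (cl P Q c n) := by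
  induction n with
  | zero => simp [spd, cl, ws]
  | succ n ih =>
    simp only [spd, cl]
    rw [ih, ws_cons, ws_scale, Polynomial.eval_mul]
    ring

/-- the speeds for the deformations of `S_PFX` -/
theorem spd_pf {P Q S : ℂ[X]} {W : Finset ℂ} {β : ℂ → ℂ} {x c : ℂ} {n : ℕ}
    (hS : ∀ j < n, S.eval ((rf P Q)^[j] c) / Q.eval ((rf P Q)^[j] c) ^ 2 =
      1 / ((rf P Q)^[j + 1] c - x) - (wr P Q).eval ((rf P Q)^[j] c) /
        Q.eval ((rf P Q)^[j] c) ^ 2 * ∑ w ∈ W, β w / ((rf P Q)^[j] c - w)) :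
    spd P Q S c (∑ w ∈ W, β w / (c - w)) n = 1 / ((rf P Q)^[n] c - x) +
      (ws (fun z => 1 / (x - z)) (cl P Q c n) -
        ∑ w ∈ W, β w * ws (fun z => 1 / (w - z)) (cl P Q c n)) := by
  induction n with
  | zero =>
    simp only [spd, cl, ws, List.map_cons, List.map_nil, List.sum_cons, List.sum_nil, add_zero,
      one_mul, Function.iterate_zero, id_eq]
    have h1 : ∀ w ∈ W, β w * (1 / (w - c)) = -(β w / (c - w)) := by
      intro w _
      rw [← neg_sub c w, one_div, inv_neg]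
      ring
    rw [Finset.sum_congr rfl h1, Finset.sum_neg_distrib]
    have h2 : 1 / (c - x) = -(1 / (x - c)) := by
      rw [← neg_sub x c, one_div, one_div, inv_neg]
    rw [h2]
    ring
  | succ n ih =>
    have ih' := ih fun j hj => hS j (by omega)
    simp only [spd, cl]
    rw [ih', hS n (Nat.lt_succ_self n), ws_cons, ws_scale]
    simp only [ws_cons, ws_scale]
    obtain ⟨D, hD⟩ : ∃ D, D = (wr P Q).eval ((rf P Q)^[n] c) / Q.eval ((rf P Q)^[n] c) ^ 2 :=
      ⟨_, rfl⟩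
    obtain ⟨z, hz⟩ : ∃ z, z = (rf P Q)^[n] c := ⟨_, rfl⟩
    rw [← hz] at hD ⊢
    rw [← hD]
    have h1 : ∑ w ∈ W, β w * (-D * (1 / (w - z)) + D * ws (fun z => 1 / (w - z)) (cl P Q c n)) =
        D * ∑ w ∈ W, β w / (z - w) +
          D * ∑ w ∈ W, β w * ws (fun z => 1 / (w - z)) (cl P Q c n) := by
      rw [Finset.mul_sum, Finset.mul_sum, ← Finset.sum_add_distrib]
      refine Finset.sum_congr rfl fun w _ => ?_
      have h2 : (1 : ℂ) / (w - z) = -(1 / (z - w)) := by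
        rw [← neg_sub z w, one_div, one_div, inv_neg]
      rw [h2]
      ring
    rw [h1]
    have h2 : (1 : ℂ) / (x - z) = -(1 / (z - x)) := by
      rw [← neg_sub z x, one_div, one_div, inv_neg]
    rw [h2]
    ring

/-! ### the space of deformations with their speeds -/

theorem Dfm.add {P Q S S' : ℂ[X]} {u u' κ κ' : ℂ → ℂ} (h : Dfm P Q S u κ)
    (h' : Dfm P Q S' u' κ') : Dfm P Q (S + S') (u + u') (κ + κ') := by
  intro c hc
  have e : S + S' - C ((u + u') (rf P Q c)) * Q ^ 2 + C ((κ + κ') c) * wr P Q =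
      (S - C (u (rf P Q c)) * Q ^ 2 + C (κ c) * wr P Q) +
        (S' - C (u' (rf P Q c)) * Q ^ 2 + C (κ' c) * wr P Q) := by
    simp only [Pi.add_apply, C_add]
    ring
  rw [e]
  exact dvd_add (h c hc) (h' c hc)

theorem Dfm.smul {P Q S : ℂ[X]} {u κ : ℂ → ℂ} (t : ℂ) (h : Dfm P Q S u κ) :
    Dfm P Q (t • S) (t • u) (t • κ) := by
  intro c hc
  have e : t • S - C ((t • u) (rf P Q c)) * Q ^ 2 + C ((t • κ) c) * wr P Q =
      C t * (S - C (u (rf P Q c)) * Q ^ 2 + C (κ c) * wr P Q) := by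
    simp only [Pi.smul_apply, smul_eq_mul, C_mul, Polynomial.smul_eq_C_mul]
    ring
  rw [e]
  exact dvd_mul_of_dvd_right (h c hc) _

theorem Dfm.zero (P Q : ℂ[X]) : Dfm P Q 0 0 0 := by
  intro c _
  simp

/-- the deformations of degree at most `2 d`, with their speeds -/
def WW (P Q : ℂ[X]) (d : ℕ) : Submodule ℂ (ℂ[X] × (ℂ → ℂ) × (ℂ → ℂ)) where
  carrier := {w | w.1.natDegree ≤ 2 * d ∧ Dfm P Q w.1 w.2.1 w.2.2}
  zero_mem' := ⟨by simp, Dfm.zero P Q⟩
  add_mem' := by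
    rintro a b ⟨h1, h2⟩ ⟨h3, h4⟩
    exact ⟨(natDegree_add_le _ _).trans (max_le h1 h3), h2.add h4⟩
  smul_mem' := by
    rintro t a ⟨h1, h2⟩
    exact ⟨(natDegree_smul_le _ _).trans h1, h2.smul t⟩

theorem spd_add {P Q S S' : ℂ[X]} {c w w' : ℂ} (n : ℕ) :
    spd P Q (S + S') c (w + w') n = spd P Q S c w n + spd P Q S' c w' n := by
  induction n with
  | zero => rfl
  | succ n ih =>
    simp only [spd]
    rw [ih, Polynomial.eval_add]
    ring

theorem spd_smul {P Q S : ℂ[X]} {c w t : ℂ} (n : ℕ) :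
    spd P Q (t • S) c (t * w) n = t * spd P Q S c w n := by
  induction n with
  | zero => rfl
  | succ n ih =>
    simp only [spd]
    rw [ih, Polynomial.eval_smul, smul_eq_mul]
    ring

/-- the linear form of a relation -/
noncomputable def rform (P Q : ℂ[X]) (d : ℕ) (ρ : Reln) : WW P Q d →ₗ[ℂ] ℂ where
  toFun w := spd P Q w.1.1 ρ.c (w.1.2.2 ρ.c) ρ.n - spd P Q w.1.1 ρ.c' (w.1.2.2 ρ.c') ρ.n'
  map_add' a b := by
    change spd P Q (a.1.1 + b.1.1) ρ.c (a.1.2.2 ρ.c + b.1.2.2 ρ.c) ρ.n -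
      spd P Q (a.1.1 + b.1.1) ρ.c' (a.1.2.2 ρ.c' + b.1.2.2 ρ.c') ρ.n' = _
    rw [spd_add, spd_add]
    ring
  map_smul' t a := by
    change spd P Q (t • a.1.1) ρ.c (t * a.1.2.2 ρ.c) ρ.n -
      spd P Q (t • a.1.1) ρ.c' (t * a.1.2.2 ρ.c') ρ.n' = _
    rw [spd_smul, spd_smul, RingHom.id_apply, smul_eq_mul]
    ring

end Pool.Agent.H207.TF
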