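import Pool.Agent.H207.TF.Rel

/-! Project TF: transversality in the strata of critical orbit relations, assembly. -/

set_option autoImplicit false

open Metric Set MeasureTheory Filter Topology Polynomial
open scoped OnePoint ENNReal

namespace Pool.Agent.H207.TF

open Pool.Agent.H792R2.CE

theorem ws_flatMap {ι : Type*} (h : ℂ → ℂ) (l : List ι) (f : ι → List (ℂ × ℂ)) :
    ws h (l.flatMap f) = (l.map fun i => ws h (f i)).sum := by
  induction l with
  | nil => simp [ws]
  | cons a l ih =>
    rw [List.flatMap_cons, ws_append, ih, List.map_cons, List.sum_cons]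

/-- the poles and residues of a combination of relations -/
noncomputable def LL (P Q : ℂ[X]) {m : ℕ} (ρ : Fin m → Reln) (b : Fin m → ℂ) : List (ℂ × ℂ) :=
  (List.finRange m).flatMap fun i =>
    ((cl P Q (ρ i).c (ρ i).n).map fun q => (b i * q.1, q.2)) ++
      ((cl P Q (ρ i).c' (ρ i).n').map fun q => (-b i * q.1, q.2))

theorem ws_LL {P Q : ℂ[X]} {m : ℕ} (ρ : Fin m → Reln) (b : Fin m → ℂ) (h : ℂ → ℂ) :
    ws h (LL P Q ρ b) = ∑ i, b i * (ws h (cl P Q (ρ i).c (ρ i).n) -
      ws h (cl P Q (ρ i).c' (ρ i).n')) := by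
  unfold LL
  rw [ws_flatMap, Fin.sum_univ_def]
  congr 1
  refine List.map_congr_left fun i _ => ?_
  rw [ws_append, ws_scale, ws_scale]
  ring

theorem inj_orbit {g : ℂ → ℂ} {c : ℂ} (h : Function.Injective fun j => g^[j] c) (i : ℕ) :
    Function.Injective fun j => g^[j] (g^[i] c) := by
  intro a b hab
  have h1 : g^[a + i] c = g^[b + i] c := by
    rw [Function.iterate_add_apply, Function.iterate_add_apply]
    exact hab
  have := h h1
  omega

theorem LL_mem {P Q : ℂ[X]} {m : ℕ} {ρ : Fin m → Reln} {b : Fin m → ℂ} {A₀ : Set ℂ}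
    (hρ : ∀ i, (ρ i).Ok P Q A₀) {q : ℂ × ℂ} (hq : q ∈ LL P Q ρ b) :
    q.2 ∈ A₀ ∨ Function.Injective fun j => (rf P Q)^[j] q.2 := by
  unfold LL at hq
  rw [List.mem_flatMap] at hq
  obtain ⟨i, -, hi⟩ := hq
  obtain ⟨-, -, -, -, -, h1, h2⟩ := hρ i
  rcases List.mem_append.1 hi with h | h
  · obtain ⟨q', hq', rfl⟩ := List.mem_map.1 h
    obtain ⟨j, hj, hj2⟩ := cl_mem hq'
    change q'.2 ∈ A₀ ∨ Function.Injective fun j => (rf P Q)^[j] q'.2
    rw [hj2]
    exact h1.imp (fun h => h j hj) fun h => inj_orbit h j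
  · obtain ⟨q', hq', rfl⟩ := List.mem_map.1 h
    obtain ⟨j, hj, hj2⟩ := cl_mem hq'
    change q'.2 ∈ A₀ ∨ Function.Injective fun j => (rf P Q)^[j] q'.2
    rw [hj2]
    exact h2.imp (fun h => h j hj) fun h => inj_orbit h j

/-- the last step of `transversal` -/
theorem last_step {P Q : ℂ[X]} {c : ℂ} (hQv : ∀ j, Q.eval ((rf P Q)^[j] (rf P Q c)) ≠ 0)
    {α v : ℕ → ℂ} (hv : ∀ j, v j = (rf P Q)^[j] (rf P Q c))
    (hα : ∀ j, α j = (deriv ((rf P Q)^[j]) (rf P Q c))⁻¹) (hαn : Summable fun j => ‖α j‖)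
    (hu : ∑' j, (if v j = v 0 then α j else 0) = 0) : False := by
  classical
  have hα0 : α 0 = 1 := by rw [hα]; simp
  have hsj : Summable fun j => (if v j = v 0 then α j else 0) := by
    refine Summable.of_norm_bounded hαn fun j => ?_
    split_ifs
    · exact le_rfl
    · simp
  by_cases hper : ∃ p, 0 < p ∧ v p = v 0
  · set p := Nat.find hper with hp
    obtain ⟨hp0, hpv⟩ := Nat.find_spec hper
    rw [← hp] at hp0 hpv
    have hfix : (rf P Q)^[p] (rf P Q c) = rf P Q c := by
      have := hpv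
      rw [hv, hv] at this
      simpa using this
    have hvp : ∀ j, v (j + p) = v j := by
      intro j
      rw [hv, hv, Function.iterate_add_apply, hfix]
    have hαp : ∀ j, α (j + p) = α p * α j := by
      intro j
      rw [hα, hα, hα]
      have h1 := rf_iter_deriv_add (P := P) (Q := Q) (z := rf P Q c) j p (fun i _ => hQv i)
      rw [h1, hfix, mul_inv, mul_comm]
    have h3 : (∑ j ∈ Finset.range p, (if v j = v 0 then α j else 0)) = 1 := by
      rw [Finset.sum_eq_single 0]
      · rw [if_pos rfl, hα0]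
      · intro j hj hj0
        rw [if_neg]
        intro h4
        exact Nat.find_min hper (Finset.mem_range.1 hj) ⟨Nat.pos_of_ne_zero hj0, h4⟩
      · intro h4
        exact absurd (Finset.mem_range.2 hp0) h4
    have h5 := hsj.sum_add_tsum_nat_add p
    rw [h3, hu] at h5
    have h6 : ∑' j, (if v (j + p) = v 0 then α (j + p) else 0) =
        α p * ∑' j, (if v j = v 0 then α j else 0) := by
      rw [← tsum_mul_left]
      refine tsum_congr fun j => ?_
      rw [hvp, hαp, mul_ite, mul_zero]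
    rw [h6, hu, mul_zero, add_zero] at h5
    exact one_ne_zero h5
  · push Not at hper
    have h1 : ∑' j, (if v j = v 0 then α j else 0) = α 0 := by
      rw [tsum_eq_single 0]
      · rw [if_pos rfl]
      · intro j hj
        rw [if_neg (hper j (Nat.pos_of_ne_zero hj))]
    rw [hu, hα0] at h1
    exact zero_ne_one h1

theorem t_TRREL (hPF : S_PFX) (hI : S_INV0) (hG : S_GOODX) : S_TRREL := by
  intro P Q d hd hPQ hPd hQd hpole c hc hN K hK hKc hKQ hne hsum A₀ hA₀o hA₀d hA₀K hwand hvol R hR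
  classical
  by_contra hcon
  push Not at hcon
  obtain ⟨v, hv⟩ : ∃ v : ℕ → ℂ, ∀ j, v j = (rf P Q)^[j] (rf P Q c) := ⟨_, fun _ => rfl⟩
  obtain ⟨α, hα⟩ : ∃ α : ℕ → ℂ, ∀ j, α j = (deriv ((rf P Q)^[j]) (rf P Q c))⁻¹ :=
    ⟨_, fun _ => rfl⟩
  have hvc : ∀ j, v j = (rf P Q)^[j + 1] c := fun j => by
    rw [hv, Function.iterate_succ_apply]
  have hvK : ∀ j, v j ∈ K := fun j => by rw [hvc]; exact hKc _
  have hQv : ∀ j, Q.eval (v j) ≠ 0 := fun j => hKQ _ (hvK j)
  have hQv' : ∀ j, Q.eval ((rf P Q)^[j] (rf P Q c)) ≠ 0 := fun j => by rw [← hv]; exact hQv j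
  have hQc : Q.eval c ≠ 0 := by
    have := hKQ _ (hKc 0)
    simpa using this
  have hvs : ∀ j, v (j + 1) = rf P Q (v j) := by
    intro j
    rw [hv, hv, Function.iterate_succ_apply']
  have hderiv : ∀ j, deriv ((rf P Q)^[j + 1]) (rf P Q c) =
      (wr P Q).eval (v j) / Q.eval (v j) ^ 2 * deriv ((rf P Q)^[j]) (rf P Q c) := by
    intro j
    have h1 := rf_iter_deriv_succ (P := P) (Q := Q) (z := rf P Q c) j (fun i _ => hQv' i)
    rw [← hv] at h1
    exact h1
  have hNv : ∀ j, (wr P Q).eval (v j) ≠ 0 := by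
    intro j h0
    have h1 := hderiv j
    rw [h0, zero_div, zero_mul] at h1
    exact hne _ h1
  have hα0 : α 0 = 1 := by rw [hα]; simp
  have hαs : ∀ j, α (j + 1) = α j * (Q.eval (v j) ^ 2 / (wr P Q).eval (v j)) := by
    intro j
    rw [hα, hα, hderiv j, mul_inv, inv_div, mul_comm]
  have hαn : Summable fun j => ‖α j‖ := by
    simp only [hα, norm_inv]
    exact hsum
  -- the terms
  have ht0 : ∀ S : ℂ[X], term P Q S c 0 = S.eval c / Q.eval c ^ 2 := by
    intro S
    simp [term]
  have ht1 : ∀ (S : ℂ[X]) (j : ℕ), term P Q S c (j + 1) =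
      S.eval (v j) / Q.eval (v j) ^ 2 * α (j + 1) := by
    intro S j
    unfold TF.term
    rw [← hvc, hα, div_eq_mul_inv]
  have htS : ∀ S : ℂ[X], Summable (term P Q S c) := by
    intro S
    obtain ⟨B, hB⟩ := hK.exists_bound_of_continuousOn
      (f := fun z => S.eval z / Q.eval z ^ 2)
      (S.continuous.continuousOn.div (Q.continuous.continuousOn.pow 2)
        fun z hz => pow_ne_zero _ (hKQ z hz))
    rw [← summable_nat_add_iff 1]
    have h1 : Summable fun j => B * ‖α (j + 1)‖ :=
      ((summable_nat_add_iff 1).2 hαn).mul_left B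
    refine Summable.of_norm_bounded h1 fun j => ?_
    rw [ht1, norm_mul]
    exact mul_le_mul_of_nonneg_right (hB _ (hvK j)) (norm_nonneg _)
  -- the linear form
  let Lc : WW P Q d →ₗ[ℂ] ℂ :=
    { toFun := fun w => ∑' j, term P Q w.1.1 c j
      map_add' := fun a b => by
        change ∑' j, term P Q (a.1.1 + b.1.1) c j = _
        rw [← (htS _).tsum_add (htS _)]
        refine tsum_congr fun j => ?_
        unfold TF.term
        rw [Polynomial.eval_add]
        ring
      map_smul' := fun t a => by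
        change ∑' j, term P Q (t • a.1.1) c j = _
        rw [RingHom.id_apply, smul_eq_mul, ← tsum_mul_left]
        refine tsum_congr fun j => ?_
        unfold TF.term
        rw [Polynomial.eval_smul, smul_eq_mul]
        ring }
  have hLc : ∀ w : WW P Q d, Lc w = ∑' j, term P Q w.1.1 c j := fun w => rfl
  obtain ⟨m, hm⟩ : ∃ m, m = R.length := ⟨_, rfl⟩
  subst hm
  obtain ⟨ρ, hρ⟩ : ∃ ρ : Fin R.length → Reln, ρ = fun i => R.get i := ⟨_, rfl⟩
  have hρok : ∀ i, (ρ i).Ok P Q A₀ := fun i => by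
    rw [hρ]; exact hR _ (List.get_mem _ _)
  have hρR : ∀ r ∈ R, ∃ i, ρ i = r := by
    intro r hr
    obtain ⟨i, hi⟩ := List.get_of_mem hr
    exact ⟨i, by rw [hρ]; exact hi⟩
  have hspan : Lc ∈ Submodule.span ℂ (Set.range fun i => rform P Q d (ρ i)) := by
    refine mem_span_of_iInf_ker_le_ker fun w hw => ?_
    rw [Submodule.mem_iInf] at hw
    rw [LinearMap.mem_ker, hLc]
    refine hcon w.1.1 w.1.2.1 w.1.2.2 w.2.1 w.2.2 fun r hr => ?_
    obtain ⟨i, rfl⟩ := hρR r hr
    have h1 := hw i
    rw [LinearMap.mem_ker] at h1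
    exact sub_eq_zero.1 h1
  obtain ⟨b, hb⟩ := (Submodule.mem_span_range_iff_exists_fun ℂ).1 hspan
  have hb' : ∀ w : WW P Q d, ∑ i, b i * (spd P Q w.1.1 (ρ i).c (w.1.2.2 (ρ i).c) (ρ i).n -
      spd P Q w.1.1 (ρ i).c' (w.1.2.2 (ρ i).c') (ρ i).n') = ∑' j, term P Q w.1.1 c j := by
    intro w
    rw [← hLc, ← hb, LinearMap.sum_apply]
    refine Finset.sum_congr rfl fun i _ => ?_
    rw [LinearMap.smul_apply, smul_eq_mul]
    rfl
  -- the new series
  obtain ⟨L, hL⟩ : ∃ L, L = LL P Q ρ b := ⟨_, rfl⟩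
  obtain ⟨F, hF⟩ : ∃ F : ℕ → ℂ × ℂ, F = fun j => (α j, v j) := ⟨_, rfl⟩
  have hF1 : ∀ j, (F j).1 = α j := fun j => by rw [hF]
  have hF2 : ∀ j, (F j).2 = v j := fun j => by rw [hF]
  have hLA : ∀ q ∈ L, q.2 ∈ A₀ ∨ Function.Injective fun j => (rf P Q)^[j] q.2 :=
    fun q hq => LL_mem hρok (hL ▸ hq)
  -- moments
  have hmom : ∀ h : ℂ[X], h.natDegree ≤ 2 →
      ∑' j, (pre F L j).1 * h.eval (pre F L j).2 = 0 := by
    intro h hh
    have hdeg : (wr P Q * h).natDegree ≤ 2 * d := by
      refine Polynomial.natDegree_mul_le.trans ?_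
      have := wr_natDegree (P := P) (Q := Q) (d := d) (by omega) hPd hQd.le
      omega
    have hD : Dfm P Q (wr P Q * h) 0 (fun z => -h.eval z) := by
      intro e he
      have e1 : wr P Q * h - C ((0 : ℂ → ℂ) (rf P Q e)) * Q ^ 2 + C (-h.eval e) * wr P Q =
          wr P Q * (h - C (h.eval e)) := by
        simp only [Pi.zero_apply, C_0, zero_mul, sub_zero, C_neg]
        ring
      rw [e1, pow_succ]
      refine mul_dvd_mul (Polynomial.pow_rootMultiplicity_dvd _ _) ?_
      exact Polynomial.X_sub_C_dvd_sub_C_eval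
    have h1 := hb' ⟨(wr P Q * h, 0, fun z => -h.eval z), hdeg, hD⟩
    have h2 : ∑ i, b i * (spd P Q (wr P Q * h) (ρ i).c (-h.eval (ρ i).c) (ρ i).n -
        spd P Q (wr P Q * h) (ρ i).c' (-h.eval (ρ i).c') (ρ i).n') =
        -ws (fun z => h.eval z) L := by
      rw [hL, ws_LL, ← Finset.sum_neg_distrib]
      refine Finset.sum_congr rfl fun i _ => ?_
      rw [spd_moebius, spd_moebius]
      ring
    have h3 : ∑' j, term P Q (wr P Q * h) c j = ∑' j, α j * h.eval (v j) := by
      rw [(htS _).tsum_eq_zero_add, ht0, Polynomial.eval_mul, hc, zero_mul, zero_div, zero_add]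
      refine tsum_congr fun j => ?_
      rw [ht1, hαs, Polynomial.eval_mul]
      have := hNv j
      have := hQv j
      field_simp
    have h4 : -ws (fun z => h.eval z) L = ∑' j, α j * h.eval (v j) := by
      rw [← h2, ← h3]
      exact h1
    have h5 : Summable fun j => (F j).1 * h.eval (F j).2 := by
      simp only [hF1, hF2]
      obtain ⟨B, hB⟩ := hK.exists_bound_of_continuousOn (f := fun z => h.eval z)
        h.continuous.continuousOn
      refine Summable.of_norm_bounded (hαn.mul_right B) fun j => ?_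
      rw [norm_mul]
      exact mul_le_mul_of_nonneg_left (hB _ (hvK j)) (norm_nonneg _)
    have h6 := pre_tsum (fun q => q.1 * h.eval q.2) h5 L
    rw [h6]
    simp only [hF1, hF2]
    rw [← h4]
    unfold ws
    ring
  have hsm : Summable fun j => ‖(pre F L j).1‖ :=
    pre_summable (fun q : ℂ × ℂ => ‖q.1‖) (by simpa only [hF1] using hαn) L
  have hm0 : ∑' j, (pre F L j).1 = 0 := by
    have := hmom 1 (by simp)
    simpa using this
  have hm1 : ∑' j, (pre F L j).1 * (pre F L j).2 = 0 := by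
    have := hmom X (by simp)
    simpa using this
  have hm2 : ∑' j, (pre F L j).1 * (pre F L j).2 ^ 2 = 0 := by
    have := hmom (X ^ 2) (by simp)
    simpa using this
  have hfin : ({z | ∃ q ∈ L, q.2 = z} : Set ℂ).Finite := by
    have h1 : ({z | ∃ q ∈ L, q.2 = z} : Set ℂ) = Prod.snd '' {q | q ∈ L} := by
      ext z
      simp
    rw [h1]
    exact (List.finite_toSet L).image _
  obtain ⟨M, hM⟩ := (hK.isBounded.union hfin.isBounded).exists_norm_le
  have hpre : ∀ j, (pre F L j).2 ∈ K ∪ {z | ∃ q ∈ L, q.2 = z} := by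
    intro j
    rcases pre_range (F := F) L j with h | ⟨i, h⟩
    · exact Or.inr ⟨_, h, rfl⟩
    · left
      rw [h, hF2]
      exact hvK i
  -- invariance
  have hcount : ∀ᵐ x : ℂ, ∀ (i : Fin R.length) (j : ℕ), x ≠ (rf P Q)^[j] (ρ i).c ∧
      x ≠ (rf P Q)^[j] (ρ i).c' := by
    rw [ae_all_iff]
    intro i
    rw [ae_all_iff]
    intro j
    have h1 : ∀ᵐ x : ℂ, x ∉ ({(rf P Q)^[j] (ρ i).c, (rf P Q)^[j] (ρ i).c'} : Set ℂ) :=
      (Set.toFinite _).countable.ae_notMem volume
    filter_upwards [h1] with x hx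
    simp only [Set.mem_insert_iff, Set.mem_singleton_iff, not_or] at hx
    exact hx
  have hinv : ∀ᵐ x : ℂ, phi (fun j => (pre F L j).1) (fun j => (pre F L j).2) x =
      ∑ w ∈ (P - C x * Q).roots.toFinset, Q.eval w ^ 4 / (wr P Q).eval w ^ 2 *
        phi (fun j => (pre F L j).1) (fun j => (pre F L j).2) w := by
    filter_upwards [hG P Q d hd hPQ hPd hQd hN α v hαn, hcount] with x hx hxc
    obtain ⟨hx1, hx2, hx3, hx4, hx5, hx6⟩ := hx
    obtain ⟨S, hS1, hS2, hS3⟩ := hPF P Q d hPd hQd.le hN hpole x hx1 hx2 fun w hw => (hx3 w hw).1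
    obtain ⟨W, hW⟩ : ∃ W, W = (P - C x * Q).roots.toFinset := ⟨_, rfl⟩
    rw [← hW] at hS2 hS3 ⊢
    obtain ⟨β, hβ⟩ : ∃ β : ℂ → ℂ, β = fun w => Q.eval w ^ 4 / (wr P Q).eval w ^ 2 := ⟨_, rfl⟩
    have hβ' : ∀ w, Q.eval w ^ 4 / (wr P Q).eval w ^ 2 = β w := fun w => by rw [hβ]
    simp only [hβ'] at hS2 hS3 ⊢
    have hWr : ∀ w ∈ W, (P - C x * Q).eval w = 0 := by
      intro w hw
      rw [hW, Multiset.mem_toFinset] at hw
      exact (mem_roots'.1 hw).2
    have hDz : ∀ z : ℂ, Q.eval z ≠ 0 → rf P Q z ≠ x → (P - C x * Q).eval z ≠ 0 := by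
      intro z hz hzx h0
      apply hzx
      simp only [Polynomial.eval_sub, Polynomial.eval_mul, Polynomial.eval_C] at h0
      rw [rf, div_eq_iff hz]
      exact sub_eq_zero.1 h0
    have h1 := hb' ⟨(S, fun y => 1 / (y - x), fun c => ∑ w ∈ W, β w / (c - w)), hS1, hS2⟩
    have h2 : ∑ i, b i * (spd P Q S (ρ i).c (∑ w ∈ W, β w / ((ρ i).c - w)) (ρ i).n -
        spd P Q S (ρ i).c' (∑ w ∈ W, β w / ((ρ i).c' - w)) (ρ i).n') =
        ws (fun z => 1 / (x - z)) L - ∑ w ∈ W, β w * ws (fun z => 1 / (w - z)) L := by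
      have h3 : ∀ i, spd P Q S (ρ i).c (∑ w ∈ W, β w / ((ρ i).c - w)) (ρ i).n -
          spd P Q S (ρ i).c' (∑ w ∈ W, β w / ((ρ i).c' - w)) (ρ i).n' =
          (ws (fun z => 1 / (x - z)) (cl P Q (ρ i).c (ρ i).n) -
            ws (fun z => 1 / (x - z)) (cl P Q (ρ i).c' (ρ i).n')) -
          ∑ w ∈ W, β w * (ws (fun z => 1 / (w - z)) (cl P Q (ρ i).c (ρ i).n) -
            ws (fun z => 1 / (w - z)) (cl P Q (ρ i).c' (ρ i).n')) := by
        intro i
        obtain ⟨-, -, h4, h5, h6, -, -⟩ := hρok i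
        rw [spd_pf (β := β) (W := W) (x := x) (c := (ρ i).c) (n := (ρ i).n) (by
            intro j hj
            have h7 := hS3 ((rf P Q)^[j] (ρ i).c) (hDz _ (h5 j hj) (by
              have e := (hxc i (j + 1)).1
              rw [Function.iterate_succ_apply'] at e
              exact e.symm)) (h5 j hj)
            rw [h7, Function.iterate_succ_apply']),
          spd_pf (β := β) (W := W) (x := x) (c := (ρ i).c') (n := (ρ i).n') (by
            intro j hj
            have h7 := hS3 ((rf P Q)^[j] (ρ i).c') (hDz _ (h6 j hj) (by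
              have e := (hxc i (j + 1)).2
              rw [Function.iterate_succ_apply'] at e
              exact e.symm)) (h6 j hj)
            rw [h7, Function.iterate_succ_apply']), h4]
        simp only [mul_sub, Finset.sum_sub_distrib]
        ring
      simp only [h3]
      rw [hL, ws_LL]
      simp only [ws_LL]
      simp only [mul_sub, Finset.sum_sub_distrib, Finset.mul_sum]
      have e1 : ∀ G : Fin R.length → ℂ → ℂ, ∑ i, ∑ w ∈ W, b i * (β w * G i w) =
          ∑ w ∈ W, ∑ i, β w * (b i * G i w) := by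
        intro G
        rw [Finset.sum_comm]
        refine Finset.sum_congr rfl fun w _ => Finset.sum_congr rfl fun i _ => ?_
        ring
      rw [e1, e1]
    have hsx : Summable fun j => (F j).1 / (x - (F j).2) := by
      simp only [hF1, hF2]
      exact hx5.of_norm
    have hsw : ∀ w ∈ W, Summable fun j => (F j).1 / (w - (F j).2) := by
      intro w hw
      simp only [hF1, hF2]
      exact (hx6 w (hWr w hw)).2.of_norm
    have h3 : ∑' j, term P Q S c j = -phi α v x + ∑ w ∈ W, β w * phi α v w := by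
      have hx0 : ∀ j, v j - x ≠ 0 := fun j => sub_ne_zero.2 (hx4 j).symm
      rw [(htS _).tsum_eq_zero_add, ht0]
      have a0 : S.eval c / Q.eval c ^ 2 = 1 / (v 0 - x) := by
        rw [hS3 c (hDz c hQc (by
          have := hx4 0
          rw [hv] at this
          exact this.symm)) hQc, hc, zero_div, zero_mul, sub_zero]
        rw [hv]
        rfl
      have a1 : ∀ j, term P Q S c (j + 1) = α (j + 1) / (v (j + 1) - x) +
          ∑ w ∈ W, β w * (α j / (w - v j)) := by
        intro j
        rw [ht1, hS3 (v j) (hDz _ (hQv j) (by rw [← hvs]; exact (hx4 (j + 1)).symm)) (hQv j), ← hvs]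
        have b1 : ∑ w ∈ W, β w * (α j / (w - v j)) = -(α j * ∑ w ∈ W, β w / (v j - w)) := by
          rw [Finset.mul_sum, ← Finset.sum_neg_distrib]
          refine Finset.sum_congr rfl fun w _ => ?_
          rw [← neg_sub (v j) w, div_neg]
          ring
        rw [b1]
        have b2 : (wr P Q).eval (v j) / Q.eval (v j) ^ 2 * α (j + 1) = α j := by
          rw [hαs]
          have := hNv j
          have := hQv j
          field_simp
        linear_combination (-(∑ w ∈ W, β w / (v j - w))) * b2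
      have s1 : Summable fun j => α j / (v j - x) := by
        have h := hx5.of_norm.neg
        refine h.congr fun j => ?_
        rw [← div_neg, neg_sub]
      have s2 : ∀ w ∈ W, Summable fun j => β w * (α j / (w - v j)) := fun w hw =>
        ((hx6 w (hWr w hw)).2.of_norm).mul_left _
      have s3 : Summable fun j => ∑ w ∈ W, β w * (α j / (w - v j)) :=
        summable_sum fun w hw => s2 w hw
      rw [tsum_congr a1, ((summable_nat_add_iff 1).2 s1).tsum_add s3]
      have t1 : 1 / (v 0 - x) + ∑' j, α (j + 1) / (v (j + 1) - x) = -phi α v x := by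
        have t2 := s1.tsum_eq_zero_add
        rw [hα0] at t2
        rw [← t2]
        unfold phi
        rw [← tsum_neg]
        refine tsum_congr fun j => ?_
        rw [← div_neg, neg_sub]
      have t3 : ∑' j, ∑ w ∈ W, β w * (α j / (w - v j)) = ∑ w ∈ W, β w * phi α v w := by
        rw [Summable.tsum_finsetSum s2]
        refine Finset.sum_congr rfl fun w _ => ?_
        rw [tsum_mul_left]
        rfl
      rw [a0, t3, ← add_assoc, t1]
    have h4 : ws (fun z => 1 / (x - z)) L - ∑ w ∈ W, β w * ws (fun z => 1 / (w - z)) L =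
        -phi α v x + ∑ w ∈ W, β w * phi α v w := by
      rw [← h2, ← h3]
      exact h1
    have h5 : phi (fun j => (pre F L j).1) (fun j => (pre F L j).2) x =
        ws (fun z => 1 / (x - z)) L + phi α v x := by
      unfold phi
      rw [pre_tsum (fun q => q.1 / (x - q.2)) hsx L]
      simp only [hF1, hF2]
      congr 1
      unfold ws
      congr 1
      refine List.map_congr_left fun q _ => ?_
      rw [mul_one_div]
    have h6 : ∀ w ∈ W, phi (fun j => (pre F L j).1) (fun j => (pre F L j).2) w =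
        ws (fun z => 1 / (w - z)) L + phi α v w := by
      intro w hw
      unfold phi
      rw [pre_tsum (fun q => q.1 / (w - q.2)) (hsw w hw) L]
      simp only [hF1, hF2]
      congr 1
      unfold ws
      congr 1
      refine List.map_congr_left fun q _ => ?_
      rw [mul_one_div]
    have h7 : ∑ w ∈ W, β w * phi (fun j => (pre F L j).1) (fun j => (pre F L j).2) w =
        ∑ w ∈ W, β w * ws (fun z => 1 / (w - z)) L + ∑ w ∈ W, β w * phi α v w := by
      rw [← Finset.sum_add_distrib]
      refine Finset.sum_congr rfl fun w hw => ?_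
      rw [h6 w hw]
      ring
    rw [h5, h7]
    linear_combination h4
  -- the closure of the poles is a null set
  have hvol' : volume (closure (Set.range fun j => (pre F L j).2)) = 0 := by
    have h1 : (Set.range fun j => (pre F L j).2) ⊆
        (Set.range fun j => (rf P Q)^[j] (rf P Q c)) ∪ {z | ∃ q ∈ L, q.2 = z} := by
      rintro _ ⟨j, rfl⟩
      rcases pre_range (F := F) L j with h | ⟨i, h⟩
      · exact Or.inr ⟨_, h, rfl⟩
      · left
        refine ⟨i, ?_⟩
        change (rf P Q)^[i] (rf P Q c) = (pre F L j).2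
        rw [h, hF2, hv]
    refine measure_mono_null (closure_mono h1) ?_
    rw [closure_union, hfin.isClosed.closure_eq]
    exact measure_union_null hvol (hfin.countable.measure_zero volume)
  have hu := hI P Q d hd hPQ hPd hQd hN (fun j => (pre F L j).1) (fun j => (pre F L j).2) M hsm
    (fun j => hM _ (hpre j)) hm0 hm1 hm2 hinv A₀ hA₀o hA₀d hwand hvol'
  have hs0 : ∀ p, Summable fun j => (if (F j).2 = p then (F j).1 else 0) := by
    intro p
    simp only [hF1, hF2]
    refine Summable.of_norm_bounded hαn fun j => ?_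
    split_ifs
    · exact le_rfl
    · simp
  have h8 : ∀ p, (∀ q ∈ L, q.2 ≠ p) → ∑' j, (if v j = p then α j else 0) = 0 := by
    intro p hp
    have h8 := pre_tsum (fun q : ℂ × ℂ => if q.2 = p then q.1 else 0) (hs0 p) L
    rw [hu p] at h8
    have h9 : (L.map fun q : ℂ × ℂ => if q.2 = p then q.1 else 0).sum = 0 := by
      refine List.sum_eq_zero fun z hz => ?_
      obtain ⟨q, hq, rfl⟩ := List.mem_map.1 hz
      rw [if_neg (hp q hq)]
    rw [h9, zero_add] at h8
    simp only [hF1, hF2] at h8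
    exact h8.symm
  by_cases hvi : Function.Injective v
  · -- infinite orbit
    obtain ⟨_, ⟨j, rfl⟩, hj⟩ := (Set.infinite_range_of_injective hvi).exists_notMem_finite hfin
    have h9 := h8 (v j) fun q hq h => hj ⟨q, hq, h⟩
    rw [tsum_eq_single j] at h9
    · rw [if_pos rfl, hα] at h9
      exact hne j (inv_eq_zero.1 h9)
    · intro i hi
      rw [if_neg fun h => hi (hvi h)]
  · -- finite orbit
    refine last_step hQv' hv hα hαn (h8 (v 0) fun q hq h => ?_)
    rcases hLA q hq with h1 | h1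
    · exact hA₀K _ h1 (h ▸ hvK 0)
    · apply hvi
      intro a b hab
      rw [h] at h1
      refine h1 ?_
      change (rf P Q)^[a] (v 0) = (rf P Q)^[b] (v 0)
      rw [hv a, hv b] at hab
      rw [hv 0]
      exact hab

end Pool.Agent.H207.TF
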