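import Pool.Agent.H211.AD.Stm4
import Pool.Agent.H211.LR.Final

/-!
# Project TF: Collet-Eckmann maps in transversal analytic families; statements

A holomorphic family is given by a map `p` into the space `EE d` of the coefficients; its members
are the rational maps `rf (PP (p s)) (QQ (p s))` (`PP`, `QQ`: numerator and denominator,
`wr P Q = P' Q - P Q'`, whose zeros are the critical points).
-/

set_option autoImplicit false

open Metric Set MeasureTheory Filter Topology Polynomial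
open scoped OnePoint ENNReal

namespace Pool.Agent.H207.TF

open Pool.Agent.H792R2.CE Pool.Agent.H211.LR Pool.Agent.H211.AD

/-- **Analytic Hensel lemma.** A factorization of `w 0` into coprime monic factors extends to a
factorization of `w s` with holomorphic coefficients.

Proof. Let `m₁ = natDegree g`, `m₂ = natDegree h`. Consider the map
`M : (Fin m₁ → ℂ) × (Fin m₂ → ℂ) → (Fin (m₁ + m₂) → ℂ)`, `(a, b) ↦` the lower coefficients of
`(X ^ m₁ + ∑ a i X ^ i) * (X ^ m₂ + ∑ b j X ^ j)`. It is polynomial, its derivative at `(g, h)` is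
`(a, b) ↦ a h + g b` (`deg a < m₁`, `deg b < m₂`), which is injective since `g`, `h` are coprime
(`a h + g b = 0` implies `g ∣ a`, `a = 0`, `b = 0`), so bijective (equal dimensions). By the inverse function
theorem (`HasStrictFDerivAt.toOpenPartialHomeomorph` / `ContDiffAt.toOpenPartialHomeomorph`, the inverse is
`ContDiffAt ℂ 1`, so differentiable near the point) put `(G s, H s) = M⁻¹ (coefficients of w s)`. -/
def S_HENS : Prop :=
  ∀ (w : ℂ → ℂ[X]) (ρ : ℝ) (m : ℕ), 0 < ρ → (∀ s, ‖s‖ < ρ → (w s).Monic ∧ (w s).natDegree = m) →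
    (∀ (i : ℕ) (s : ℂ), ‖s‖ < ρ → DifferentiableAt ℂ (fun t => (w t).coeff i) s) →
    ∀ g h : ℂ[X], g.Monic → h.Monic → IsCoprime g h → w 0 = g * h →
      ∃ (G H : ℂ → ℂ[X]) (ε : ℝ), 0 < ε ∧ ε ≤ ρ ∧ ∀ s, ‖s‖ < ε → (G s).Monic ∧
        (G s).natDegree = g.natDegree ∧ (H s).Monic ∧ (H s).natDegree = h.natDegree ∧
        w s = G s * H s ∧ ∀ i : ℕ, DifferentiableAt ℂ (fun t => (G t).coeff i) s ∧
          DifferentiableAt ℂ (fun t => (H t).coeff i) s

/-- **Puiseux, monic polynomials with holomorphic coefficients.** (Uses `S_HENS`.)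

Proof. Strong induction on `m`. `m = 0`: trivial, `m = 1`: `w s = X + C (w s).coeff 0`. For `m ≥ 2`, replace
`w s` by `w s` composed with `X - C (coeff (m-1) / m)` (this shifts the `ζ i`), so that the coefficient of
`X ^ (m-1)` is zero. If all the coefficients `A j s = (w s).coeff j`, `j < m`, vanish near `0`, then `w s = X ^ m`,
`K = 1`, `ζ i = 0`. Otherwise let `e j` be the order of vanishing of `A j` at `0` (for those which do
not vanish near `0`) and choose `j₀` with `e j / (m - j)` minimal at `j = j₀`; put `q = m - j₀` and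
`e = e j₀`. Substitute `s = a ^ q`: `A j (a ^ q)` is divisible by `a ^ (q e j)` and `q e j ≥ e (m - j)`, so
`A j (a ^ q) = a ^ (e (m - j)) B j a` with `B j` holomorphic near `0` (for example by
`AnalyticAt.analyticOrderAt` / iterated `dslope`), `B (m-1) = 0` and `B j₀ 0 ≠ 0`. The monic polynomial
`W a = X ^ m + ∑ B j a X ^ j` satisfies `w (a ^ q) (a ^ e Y) = a ^ (e m) W a (Y)`. At `a = 0`, `W 0` is
not of the form `(X - y) ^ m` (the coefficient of `X ^ (m-1)` would give `y = 0`, but `B j₀ 0 ≠ 0`), so it has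
two different roots and is a product `g * h` of coprime monic polynomials of degree `< m` (take
`g = (X - y) ^ k`, `k` the multiplicity of a root `y`). By `S_HENS` and the induction hypothesis for `G` and
`H` (with `K₁`, `K₂`; use `a = b ^ (K₁ K₂)`) all the roots of `W (b ^ K')` are holomorphic functions `η i b`, and
the roots of `w (b ^ (K' q))` are `b ^ (K' e) η i b`. (For `a ≠ 0` from the substitution, for `a = 0` since
both sides are `X ^ m` or by continuity.) -/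
def S_MPUI : Prop :=
  ∀ (m : ℕ) (w : ℂ → ℂ[X]) (ρ : ℝ), 0 < ρ →
    (∀ s, ‖s‖ < ρ → (w s).Monic ∧ (w s).natDegree = m) →
    (∀ (i : ℕ) (s : ℂ), ‖s‖ < ρ → DifferentiableAt ℂ (fun t => (w t).coeff i) s) →
    ∃ K : ℕ, 1 ≤ K ∧ ∃ (ζ : Fin m → ℂ → ℂ) (ε : ℝ), 0 < ε ∧
      (∀ i a, ‖a‖ < ε → DifferentiableAt ℂ (ζ i) a) ∧
      ∀ a, ‖a‖ < ε → ‖a ^ K‖ < ρ ∧ w (a ^ K) = ∏ i, (X - C (ζ i a))

/-- **Puiseux, polynomials with holomorphic coefficients** (not monic; the degree may drop at `0`).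
(Uses `S_MPUI`.)

Proof. Choose `z₁` with `(w 0).eval z₁ ≠ 0`, so `(w s).eval z₁ ≠ 0` for small `s`. The polynomial
`V s (u) = u ^ m w s (z₁ + 1 / u)` (`= ∑_j (Taylor coefficient j of w s at z₁) u ^ (m - j)`) has degree `m` and
leading coefficient `w s (z₁)`; `V s / w s (z₁)` is monic with holomorphic coefficients. Let `K`, `η i` be given
by `S_MPUI`. For `J = {i | η i 0 ≠ 0}` put `ζ i a = z₁ + 1 / η i a`, `i ∈ J` (reindex by `Fin n`); for small `a`
the `η i a`, `i ∈ J`, are not zero, and they give zeros of `w (a ^ K)`. For the last clause: let `z` be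
a zero of `w (a ^ K)` close to `c`; `z ≠ z₁`, and `u = 1 / (z - z₁)` is a root of `V`, `u = η i a`; `|u|` is bounded
from below (`|z - z₁| ≤ |c - z₁| + 1`), so `i ∈ J` if `a` is small (finitely many `i`, continuity at `0`); so `z = ζ i a`.
If `ζ i 0 ≠ c` then `ζ i a` is not close to `c` for small `a`; so `ζ i 0 = c` (choose `η` small, finitely many `i`). -/
def S_PUIS : Prop :=
  ∀ (m : ℕ) (w : ℂ → ℂ[X]) (ρ : ℝ), 0 < ρ → (∀ s, ‖s‖ < ρ → (w s).natDegree ≤ m) →
    (∀ (i : ℕ) (s : ℂ), ‖s‖ < ρ → DifferentiableAt ℂ (fun t => (w t).coeff i) s) → w 0 ≠ 0 →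
    ∃ K : ℕ, 1 ≤ K ∧ ∃ (n : ℕ) (ζ : Fin n → ℂ → ℂ) (ε : ℝ), 0 < ε ∧
      (∀ i a, ‖a‖ < ε → ‖a ^ K‖ < ρ ∧ DifferentiableAt ℂ (ζ i) a ∧
        (w (a ^ K)).eval (ζ i a) = 0) ∧
      ∀ c : ℂ, ∃ η > (0 : ℝ), ∀ a z : ℂ, ‖a‖ < η → ‖z - c‖ < η → (w (a ^ K)).eval z = 0 →
        ∃ i, ζ i 0 = c ∧ z = ζ i a

/-- the first variation of the family in the direction `v`: numerator of the derivative -/
noncomputable def varS {d : ℕ} (x v : EE d) : ℂ[X] := PP v * QQ x - PP x * QQ v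

/-- the terms of the transversality sum of the critical point `c` for the variation `S / Q ^ 2` -/
noncomputable def term (P Q S : ℂ[X]) (c : ℂ) (j : ℕ) : ℂ :=
  S.eval ((rf P Q)^[j] c) / Q.eval ((rf P Q)^[j] c) ^ 2 / deriv ((rf P Q)^[j]) (rf P Q c)

/-- the members of the family after the substitution `s = a ^ K` -/
noncomputable def gam {d : ℕ} (p : ℂ → EE d) (K : ℕ) (a z : ℂ) : ℂ :=
  rf (PP (p (a ^ K))) (QQ (p (a ^ K))) z

/-- **The instance** of `Fam` and `Mk` for a holomorphic family and a holomorphic critical point `ζ`.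

Proof. Adapt `Pool/Agent/H385/AD211/INST.lean` (the same statement for `P + a ^ K H`, `Q + a ^ K G`).
`p` is holomorphic near `0`, so `‖p s - p 0‖ ≤ B ‖s‖` and `‖p s - p 0 - s • v‖ ≤ B ‖s‖ ^ 2` for small `s`. Choose
`δ₁ ≤ 1` with `Q = QQ (p 0) ≠ 0` on `cthickening δ₁ Ks` (compact), then `QQ (p s) ≠ 0` there, with a lower
bound, for small `s` (joint continuity `QQ_cd`). `smooth`: `PP_cd`, `QQ_cd` composed with
`(a, z) ↦ (p (a ^ K), z)` (`p` is `ContDiffAt ℂ 1` near `0`, being holomorphic). With `s = a ^ K`,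
`F a z - f z = (PP (p s) Q - P QQ (p s)) / (Q QQ (p s))` and the numerator is
`s varS (p 0) v + O(s ^ 2)`, so `F a z - f z - s h z = O(s ^ 2)`, `2 K ≥ K + 1`. `lip`, `bd`: as in `INST.lean`.
`val`: `F a (ζ a) - f c - s h c = (F a (ζ a) - f (ζ a) - s h (ζ a)) + s (h (ζ a) - h c) + (f (ζ a) - f c)`, where
`‖ζ a - c‖ ≤ C ‖a‖`. Let `k ≥ 1` be the multiplicity of the root `c` of `W = wr P Q`; then
`‖z - c‖ ^ k ≤ C ‖W z‖` and `‖f z - f c‖ ≤ C ‖z - c‖ ^ (k + 1)` near `c`; and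
`W (ζ a) = W (ζ a) - wr (PP (p s)) (QQ (p s)) (ζ a) = O(s)`, so `‖ζ a - c‖ ^ k ≤ C ‖a‖ ^ K` and
`‖f (ζ a) - f c‖ ≤ C ‖a‖ ^ (K + 1)`. `sum`: split off the first term of the sum. -/
def S_INSTG : Prop :=
  ∀ (d : ℕ) (p : ℂ → EE d) (v : EE d) (ρ : ℝ), 0 < ρ →
    (∀ s, ‖s‖ < ρ → DifferentiableAt ℂ p s) → HasDerivAt p v 0 →
    ∀ Ks : Set ℂ, IsCompact Ks → (∀ z ∈ Ks, (QQ (p 0)).eval z ≠ 0) →
    (∀ z ∈ Ks, rf (PP (p 0)) (QQ (p 0)) z ∈ Ks) → ∀ K : ℕ, 1 ≤ K →
    ∀ (A : ℂ → ℂ → Prop) (ρ₂ : ℝ), 0 < ρ₂ →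
    (∀ a z, ‖a‖ < ρ₂ → (QQ (p (a ^ K))).eval z ≠ 0 → A a (gam p K a z) → A a z) →
    (∀ ε > (0 : ℝ), ∃ r > (0 : ℝ), ∀ a, ‖a‖ < r → ∀ z, z ∉ cthickening ε Ks → A a z) →
    ∀ c ∈ Ks, wr (PP (p 0)) (QQ (p 0)) ≠ 0 → ∀ ζ : ℂ → ℂ, ζ 0 = c →
      (∀ a, ‖a‖ < ρ₂ → DifferentiableAt ℂ ζ a) →
      (∀ a, ‖a‖ < ρ₂ → (wr (PP (p (a ^ K))) (QQ (p (a ^ K)))).eval (ζ a) = 0) →
      Summable (term (PP (p 0)) (QQ (p 0)) (varS (p 0) v) c) →
      ∑' j, term (PP (p 0)) (QQ (p 0)) (varS (p 0) v) c j ≠ 0 →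
      ∃ ρ₁ δ₁ C₁ C₃ : ℝ, Fam (gam p K) A (rf (PP (p 0)) (QQ (p 0))) Ks K ρ₁ δ₁ C₁ ∧
        Mk (gam p K) (rf (PP (p 0)) (QQ (p 0))) Ks K ρ₁ δ₁ c ζ
          (fun z => (varS (p 0) v).eval z / (QQ (p 0)).eval z ^ 2) C₃
          (∑' j, term (PP (p 0)) (QQ (p 0)) (varS (p 0) v) c j)

/-- The tangent vectors `S / Q ^ 2` of the stratum of `P / Q`: the critical points keep their
multiplicities, and the critical value `y` moves with the speed `u y` (so the coincidences of critical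
values are kept). -/
def Tan (P Q S : ℂ[X]) : Prop :=
  ∃ u : ℂ → ℂ, ∀ c : ℂ, (wr P Q).eval c = 0 →
    (X - C c) ^ (wr P Q).rootMultiplicity c ∣ S - C (u (rf P Q c)) * Q ^ 2

/-- **Transversality in the stratum.** A summable critical orbit is moved by some tangent vector of the
stratum.

Proof. This is the theorem `transversal` in `Pool/Graph/R_seed8/H792R2/CE/D7.lean`, with two additional
remarks. Copy its proof; `hcon` is now available only for the `S` with `Tan P Q S`. It is used only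
for the following `S`: (1) `S = wr P Q * h`, `natDegree h ≤ 2` (in `hmom`): `Tan` with `u = 0`. (2) the `S` given
by `D1_pf` for a value `x` which is not a critical value and not `P.coeff d / Q.coeff d`:
`Q ^ 3 / (P - x Q) = S + wr P Q * ∑_w b_w / (z - w)` for the `z` with `(P - x Q)(z) ≠ 0`, the sum over the
roots `w` of `P - x Q` (so `w` is not a critical point). Here `Tan` holds with `u y = 1 / (y - x)`: with
`D = P - C x * Q`, `y = rf P Q c`, multiply by `D * ∏_w (X - C w)`: the polynomial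
`(Q ^ 3 - S * D) * ∏_w (X - C w)` is divisible by `wr P Q`, hence by `(X - C c) ^ k`, `k` the multiplicity, and
`D * ∏_w (X - C w)` does not vanish at `c`, so `(X - C c) ^ k ∣ Q ^ 3 - S * D`; moreover
`(X - C c) ^ k ∣ P - C y * Q` (`c` is a root of `P - y Q` of multiplicity `k + 1`, because
`wr (P - y Q) Q = wr P Q`, or use that `(X - C c) ^ k` divides `wr P Q = P' Q - P Q'`, that `P - y Q` vanishes at `c`, and
`Q(c) ≠ 0`), so modulo `(X - C c) ^ k`: `D = (y - x) Q` and `Q ^ 3 - S (y - x) Q = Q (Q ^ 2 - (y - x) S)`, and as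
`Q(c) ≠ 0`, `(X - C c) ^ k ∣ Q ^ 2 - C (y - x) * S`. To use `D2_inv` its hypothesis `hT` has to be
weakened in the same way (it is only used for the `S` in `hpf`): copy `D2_inv` too. -/
def S_TRST : Prop :=
  ∀ (P Q : ℂ[X]) (d : ℕ), 2 ≤ d → IsCoprime P Q → P.natDegree ≤ d → Q.natDegree = d →
    (∀ c : ℂ, (wr P Q).eval c = 0 → Q.eval c ≠ 0) →
    ∀ c : ℂ, (wr P Q).eval c = 0 → wr P Q ≠ 0 → ∀ K : Set ℂ, IsCompact K →
    (∀ j, (rf P Q)^[j] c ∈ K) → (∀ z ∈ K, Q.eval z ≠ 0) →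
    (∀ j, deriv ((rf P Q)^[j]) (rf P Q c) ≠ 0) →
    (Summable fun j => ‖deriv ((rf P Q)^[j]) (rf P Q c)‖⁻¹) →
    ∀ A₀ : Set ℂ, IsOpen A₀ → Dense A₀ → (∀ x ∈ A₀, x ∉ K) →
    (∀ᵐ x : ℂ, x ∈ A₀ → ∃ U : Set ℂ, x ∈ U ∧ IsOpen U ∧
      ∀ y ∈ U, ∀ k, 0 < k → (rf P Q)^[k] y ∉ U) →
    volume (closure (Set.range fun j => (rf P Q)^[j] (rf P Q c))) = 0 →
    ∃ S : ℂ[X], S.natDegree ≤ 2 * d ∧ Tan P Q S ∧ ∑' j, term P Q S c j ≠ 0

/-- **The dimension of the tangent space of the stratum** is at most (number of critical values) + 3.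

Proof. Let `N = wr P Q`, `V` the submodule of the `S`, `natDegree S ≤ 2 d`, with `Tan P Q S`, and `I` the finite
set of the critical values. For `S ∈ V` the number `u y`, `y = rf P Q c ∈ I`, is `S(c) / Q(c) ^ 2`, (the
multiplicity is positive, `Q(c) ≠ 0`) so `S ↦ (u y)_{y ∈ I}` is a linear map `V → (I → ℂ)`. If it vanishes
at `S` then `(X - C c) ^ k ∣ S` for all the roots `c` of `N`, `k` their multiplicities, so `N ∣ S`
(`N` splits), `S = N * h` with `natDegree h ≤ 2` (as `natDegree N = 2 d - 2`): the kernel has dimension at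
most `3`. So `finrank V ≤ card I + 3 = n`, and the injective linear map `T : (Fin n → ℂ) → V` is
surjective. -/
def S_DIM : Prop :=
  ∀ (P Q : ℂ[X]) (d : ℕ), 2 ≤ d → (wr P Q).natDegree = 2 * d - 2 → wr P Q ≠ 0 →
    (∀ c : ℂ, (wr P Q).eval c = 0 → Q.eval c ≠ 0) →
    ∀ (n : ℕ) (T : (Fin n → ℂ) →ₗ[ℂ] ℂ[X]), Function.Injective T →
      (∀ v, (T v).natDegree ≤ 2 * d ∧ Tan P Q (T v)) →
      n = ((wr P Q).roots.toFinset.image (rf P Q)).card + 3 →
      ∀ S : ℂ[X], S.natDegree ≤ 2 * d → Tan P Q S → ∃ v, T v = S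

/-- **Families in the stratum have tangent vectors in `Tan`.** Here `c i s` are the critical points of the
members of the family, of constant multiplicities `m i`, and the coincidences of critical
values persist.

Proof. Let `P = PP (p 0)`, `Q = QQ (p 0)`, `V i s = rf (PP (p s)) (QQ (p s)) (c i s)`, differentiable at `0`, let
`a i` be its derivative, and `u y = a i` for `y = V i 0` (well defined: if `V i 0 = V j 0` then `V i = V j` near
`0`), for example `u y = if h : ∃ i, V i 0 = y then a h.choose else 0`. Fix `i`, `k = m i`, and put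
`h s = PP (p s) - C (V i s) * QQ (p s)`. Then `(X - C (c i s)) ^ (k + 1) ∣ h s` for small `s`: `h s` vanishes at
`c i s`, `wr (h s) (QQ (p s)) = wr (PP (p s)) (QQ (p s))` is divisible by `(X - C (c i s)) ^ k` and
`QQ (p s)` does not vanish at `c i s`; if `h s = (X - c) ^ j g`, `g(c) ≠ 0`, `j ≥ 1`, then
`wr (h s) Q_s = (X - c) ^ (j - 1) (j g Q_s + (X - c) (…))` has a zero of order exactly `j - 1`, so `j ≥ k + 1`
(also if `h s = 0` there is nothing to prove).
So for `j ≤ k` the Taylor coefficients `(hasseDeriv j (h s)).eval (c i s)` vanish for small `s`. The derivative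
at `s = 0` is `(hasseDeriv j h').eval c + (j + 1) (hasseDeriv (j + 1) (h 0)).eval c * c'` with
`h' = PP v - C (a i) * Q - C (V i 0) * QQ v`; for `j < k` the last term vanishes. So `(X - C c) ^ k ∣ h'`
(`c = c i 0`), and `varS (p 0) v - C (a i) * Q ^ 2 = Q * h' - h 0 * QQ v`. -/
def S_TANF : Prop :=
  ∀ (d : ℕ) (p : ℂ → EE d) (v : EE d), HasDerivAt p v 0 →
    ∀ (r : ℕ) (c : Fin r → ℂ → ℂ) (m : Fin r → ℕ), (∀ i, DifferentiableAt ℂ (c i) 0) →
    (∀ i, ∀ᶠ s in 𝓝 (0 : ℂ), (X - C (c i s)) ^ m i ∣ wr (PP (p s)) (QQ (p s))) →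
    (∀ i, (QQ (p 0)).eval (c i 0) ≠ 0) →
    (∀ z : ℂ, (wr (PP (p 0)) (QQ (p 0))).eval z = 0 → ∃ i, c i 0 = z ∧
      (wr (PP (p 0)) (QQ (p 0))).rootMultiplicity z = m i) →
    (∀ i j, rf (PP (p 0)) (QQ (p 0)) (c i 0) = rf (PP (p 0)) (QQ (p 0)) (c j 0) →
      ∀ᶠ s in 𝓝 (0 : ℂ), rf (PP (p s)) (QQ (p s)) (c i s) = rf (PP (p s)) (QQ (p s)) (c j s)) →
    Tan (PP (p 0)) (QQ (p 0)) (varS (p 0) v)

end Pool.Agent.H207.TF
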