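import Pool.Agent.H207.TF.Stm
import Pool.Graph.R_seed8.H792R2.CE.Main

/-!
# Project TF, part 2: strata of critical orbit relations; statements
-/

set_option autoImplicit false

open Metric Set MeasureTheory Filter Topology Polynomial
open scoped OnePoint ENNReal

namespace Pool.Agent.H207.TF

open Pool.Agent.H792R2.CE Pool.Agent.H211.LR Pool.Agent.H211.AD

/-- `S / Q ^ 2` is an infinitesimal deformation of `P / Q` which keeps the multiplicities of the critical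
points and the coincidences of the critical values; `u y` is the speed of the critical value `y` and
`κ c` is the speed of the critical point `c`. -/
def Dfm (P Q S : ℂ[X]) (u κ : ℂ → ℂ) : Prop :=
  ∀ c : ℂ, (wr P Q).eval c = 0 → (X - C c) ^ ((wr P Q).rootMultiplicity c + 1) ∣
    S - C (u (rf P Q c)) * Q ^ 2 + C (κ c) * wr P Q

/-- The speed of the point `f^[n] c` under the infinitesimal deformation `S / Q ^ 2`, if the speed of
`c` is `w`. -/
noncomputable def spd (P Q S : ℂ[X]) (c w : ℂ) : ℕ → ℂ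
  | 0 => w
  | n + 1 => S.eval ((rf P Q)^[n] c) / Q.eval ((rf P Q)^[n] c) ^ 2 +
      (wr P Q).eval ((rf P Q)^[n] c) / Q.eval ((rf P Q)^[n] c) ^ 2 * spd P Q S c w n

/-- A relation `f^[n] c = f^[n'] c'` between two critical orbits. -/
structure Reln where
  c : ℂ
  n : ℕ
  c' : ℂ
  n' : ℕ

/-- The relation holds for `f = P / Q`, the involved orbits stay in the plane, and each of the two
critical points has an orbit in `A₀` or an infinite orbit. -/
def Reln.Ok (ρ : Reln) (P Q : ℂ[X]) (A₀ : Set ℂ) : Prop :=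
  (wr P Q).eval ρ.c = 0 ∧ (wr P Q).eval ρ.c' = 0 ∧
    (rf P Q)^[ρ.n] ρ.c = (rf P Q)^[ρ.n'] ρ.c' ∧
    (∀ j < ρ.n, Q.eval ((rf P Q)^[j] ρ.c) ≠ 0) ∧ (∀ j < ρ.n', Q.eval ((rf P Q)^[j] ρ.c') ≠ 0) ∧
    ((∀ j ≤ ρ.n, (rf P Q)^[j] ρ.c ∈ A₀) ∨ Function.Injective fun j => (rf P Q)^[j] ρ.c) ∧
    ((∀ j ≤ ρ.n', (rf P Q)^[j] ρ.c' ∈ A₀) ∨ Function.Injective fun j => (rf P Q)^[j] ρ.c')

/-- The infinitesimal deformation `S / Q ^ 2` keeps the relation to first order. -/
def Reln.Keep (ρ : Reln) (P Q S : ℂ[X]) (κ : ℂ → ℂ) : Prop :=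
  spd P Q S ρ.c (κ ρ.c) ρ.n = spd P Q S ρ.c' (κ ρ.c') ρ.n'

/-- **Partial fractions and deformations.** For a value `x` which is not critical there is a
deformation which moves the point `y` of the range with the speed `1 / (y - x)`.

Proof. Copy the proof of `D1_pf` (`Pool/Graph/R_seed8/H792R2/CE/D1.lean`): with `D = P - C x * Q`, `N = wr P Q`,
`b w = Q(w) ^ 4 / N(w) ^ 2`, it gives a polynomial `S` of degree `≤ 2 d` with
`Q ^ 3 - N * ∑_w C (b w) * (D /ₘ (X - C w)) = D * S` (the sum over the roots `w` of `D`); this gives the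
last claim (divide by `D(z) Q(z) ^ 2`, `D(z) / Q(z) = f(z) - x`). Put `u = fun y => 1 / (y - x)` and
`κ = fun c => ∑_w b w / (c - w)`. For `Dfm`: let `c` be a critical point, `k` its multiplicity, `y = f(c)`; `D(c) ≠ 0`
and `c ≠ w` for all roots `w` of `D` (they are not critical). Multiply by `D * ∏_w (X - C w)`, which does not
vanish at `c`, hence is coprime to `X - C c`. We have
`D * (S - C (1/(y-x)) Q ^ 2 + C (κ c) N) = (Q ^ 3 - C (1/(y-x)) D Q ^ 2) + N * (C (κ c) * D - ∑_w C (b w) * (D /ₘ (X - C w)))`.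
The polynomial in the last bracket vanishes at `c`, and `(X - C c) ^ k ∣ N`, so the last term is divisible
by `(X - C c) ^ (k + 1)`. The first bracket is `Q ^ 2 * C (1/(y-x)) * (C (y - x) * Q - D)` and
`C (y - x) * Q - D = -(P - C y * Q)`, which is divisible by `(X - C c) ^ (k + 1)`: it vanishes at `c` and
`wr (P - C y * Q) Q = wr P Q` is divisible by `(X - C c) ^ k`, `Q(c) ≠ 0` (if `P - y Q = (X - C c) ^ j g`, `g(c) ≠ 0`,
`j ≥ 1`, then `wr (P - y Q) Q = (X - C c) ^ (j - 1) (j g Q + (X - C c) (…))`, so `k ≤ j - 1`;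
`P - y Q ≠ 0` since `N ≠ 0`). -/
def S_PFX : Prop :=
  ∀ (P Q : ℂ[X]) (d : ℕ), P.natDegree ≤ d → Q.natDegree ≤ d → wr P Q ≠ 0 →
    (∀ c : ℂ, (wr P Q).eval c = 0 → Q.eval c ≠ 0) →
    ∀ x : ℂ, (P - C x * Q).natDegree = d → P - C x * Q ≠ 0 →
    (∀ w, (P - C x * Q).eval w = 0 → (wr P Q).eval w ≠ 0) →
    ∃ S : ℂ[X], S.natDegree ≤ 2 * d ∧
      Dfm P Q S (fun y => 1 / (y - x)) (fun c => ∑ w ∈ (P - C x * Q).roots.toFinset,
        Q.eval w ^ 4 / (wr P Q).eval w ^ 2 / (c - w)) ∧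
      ∀ z, (P - C x * Q).eval z ≠ 0 → Q.eval z ≠ 0 →
        S.eval z / Q.eval z ^ 2 = 1 / (rf P Q z - x) - (wr P Q).eval z / Q.eval z ^ 2 *
          ∑ w ∈ (P - C x * Q).roots.toFinset, Q.eval w ^ 4 / (wr P Q).eval w ^ 2 / (z - w)

/-- **Invariant Cauchy series vanish.**

Proof. This is the second half of the proof of `transversal` in `Pool/Graph/R_seed8/H792R2/CE/D7.lean`, from
`hineq` on: `hinv` gives the pointwise inequality `hineq`; the measure `m` with density `‖phi α v‖` is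
finite (`D3c_int` and the three moments) and `m A ≤ m (g ⁻¹' A)` (`D4_area`), so `m` vanishes on the open set
of the points with a wandering neighbourhood (`D5_null`) and `m A₀ = 0`. Difference to D7: now the poles
`v j` may lie in `A₀`. Replace `A₀` by `A₁ = A₀ \ closure (range v)`, which is open, and dense because
`closure (range v)` is closed of zero volume. `phi α v` is continuous on `A₁` (`phi_continuousAt`) and
vanishes almost everywhere there, so it vanishes on `A₁`, and by density and continuity at all the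
points outside `closure (range v)`, so almost everywhere; `D6_unique` gives the conclusion. -/
def S_INV0 : Prop :=
  ∀ (P Q : ℂ[X]) (d : ℕ), 2 ≤ d → IsCoprime P Q → P.natDegree ≤ d → Q.natDegree = d →
    wr P Q ≠ 0 → ∀ (α v : ℕ → ℂ) (M : ℝ), (Summable fun j => ‖α j‖) → (∀ j, ‖v j‖ ≤ M) →
    ∑' j, α j = 0 → ∑' j, α j * v j = 0 → ∑' j, α j * v j ^ 2 = 0 →
    (∀ᵐ x : ℂ, phi α v x = ∑ w ∈ (P - C x * Q).roots.toFinset,
      Q.eval w ^ 4 / (wr P Q).eval w ^ 2 * phi α v w) →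
    ∀ A₀ : Set ℂ, IsOpen A₀ → Dense A₀ →
    (∀ᵐ x : ℂ, x ∈ A₀ → ∃ U : Set ℂ, x ∈ U ∧ IsOpen U ∧
      ∀ y ∈ U, ∀ k, 0 < k → (rf P Q)^[k] y ∉ U) →
    volume (closure (Set.range v)) = 0 →
    ∀ p : ℂ, ∑' j, (if v j = p then α j else 0) = 0

/-- **Good values.** Almost every `x` has the properties which are needed for the invariance.

Proof. These are the first lines of the proof of `hineq` in `transversal`,
`Pool/Graph/R_seed8/H792R2/CE/D7.lean` (`hx1`, `hx2`, `hxz`, `hxc`, `hxv`, `hroot`, `hdeg`, `hx0`): the point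
`P.coeff d / Q.coeff d`, the critical values and the countable set `range v` are null sets, the set where the
series is not absolutely summable is a null set by `D3b_ae` (with `D3a_kernel`), and so is its image
under `rf P Q`. -/
def S_GOODX : Prop :=
  ∀ (P Q : ℂ[X]) (d : ℕ), 2 ≤ d → IsCoprime P Q → P.natDegree ≤ d → Q.natDegree = d →
    wr P Q ≠ 0 → ∀ (α v : ℕ → ℂ), (Summable fun j => ‖α j‖) →
    ∀ᵐ x : ℂ, (P - C x * Q).natDegree = d ∧ P - C x * Q ≠ 0 ∧
      (∀ w, (P - C x * Q).eval w = 0 → (wr P Q).eval w ≠ 0 ∧ Q.eval w ≠ 0 ∧ rf P Q w = x) ∧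
      (∀ j, x ≠ v j) ∧ (Summable fun j => ‖α j / (x - v j)‖) ∧
      ∀ w, (P - C x * Q).eval w = 0 → (∀ j, w ≠ v j) ∧ Summable fun j => ‖α j / (w - v j)‖

/-- **Transversality in the strata of critical orbit relations.** -/
def S_TRREL : Prop :=
  ∀ (P Q : ℂ[X]) (d : ℕ), 2 ≤ d → IsCoprime P Q → P.natDegree ≤ d → Q.natDegree = d →
    (∀ c : ℂ, (wr P Q).eval c = 0 → Q.eval c ≠ 0) →
    ∀ c : ℂ, (wr P Q).eval c = 0 → wr P Q ≠ 0 → ∀ K : Set ℂ, IsCompact K →
    (∀ j, (rf P Q)^[j] c ∈ K) → (∀ z ∈ K, Q.eval z ≠ 0) →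
    (∀ j, deriv ((rf P Q)^[j]) (rf P Q c) ≠ 0) →
    (Summable fun j => ‖deriv ((rf P Q)^[j]) (rf P Q c)‖⁻¹) →
    ∀ A₀ : Set ℂ, IsOpen A₀ → Dense A₀ → (∀ x ∈ A₀, x ∉ K) →
    (∀ᵐ x : ℂ, x ∈ A₀ → ∃ U : Set ℂ, x ∈ U ∧ IsOpen U ∧
      ∀ y ∈ U, ∀ k, 0 < k → (rf P Q)^[k] y ∉ U) →
    volume (closure (Set.range fun j => (rf P Q)^[j] (rf P Q c))) = 0 →
    ∀ R : List Reln, (∀ ρ ∈ R, ρ.Ok P Q A₀) →
    ∃ (S : ℂ[X]) (u κ : ℂ → ℂ), S.natDegree ≤ 2 * d ∧ Dfm P Q S u κ ∧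
      (∀ ρ ∈ R, ρ.Keep P Q S κ) ∧ ∑' j, term P Q S c j ≠ 0

/-- **Speeds in families.** In a holomorphic family `p` with holomorphic critical points `c i s` of constant
multiplicities and persistent coincidences of critical values the first variation is a
deformation, with the speeds `κ` of the critical points, and the points of the critical orbits
move with the speeds `spd`.

Proof. `Dfm`: as for `S_TANF` in `Stm.lean` (see there for `h s`, `a i`, `u`), with one more derivative: for `j = k` the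
derivative of `(hasseDeriv k (h s)).eval (c i s)` gives
`(hasseDeriv k h').eval c + (k + 1) (hasseDeriv (k + 1) (h 0)).eval c * c' = 0`, `h' = PP v - a Q - V QQ v`,
`h 0 = P - V Q = (X - C c) ^ (k + 1) g`; and `wr P Q = wr (h 0) Q` has the coefficient
`hasseDeriv k (wr P Q) at c = (k + 1) g(c) Q(c)`. So `(X - C c) ^ (k + 1)` divides
`varS - a Q ^ 2 + c' wr P Q = Q h' - h 0 * QQ v + c' wr (h 0) Q`. Define `κ` by `κ (c i 0) = deriv (c i) 0` (well
defined if the `c i 0` are distinct, which is assumed). Speeds: induction on `n`: chain rule for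
`s ↦ rf (PP (p s)) (QQ (p s)) (z s)`, whose derivative at `0` is
`varS (p 0) v (z 0) / Q(z 0) ^ 2 + wr P Q (z 0) / Q(z 0) ^ 2 * z' 0` (quotient rule; `PP`, `QQ` are linear). -/
def S_TANR : Prop :=
  ∀ (d : ℕ) (p : ℂ → EE d) (v : EE d), HasDerivAt p v 0 →
    ∀ (r : ℕ) (c : Fin r → ℂ → ℂ) (m : Fin r → ℕ), (∀ i, DifferentiableAt ℂ (c i) 0) →
    (∀ i, ∀ᶠ s in 𝓝 (0 : ℂ), (X - C (c i s)) ^ m i ∣ wr (PP (p s)) (QQ (p s))) →
    (∀ i, (QQ (p 0)).eval (c i 0) ≠ 0) → (Function.Injective fun i => c i 0) →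
    wr (PP (p 0)) (QQ (p 0)) ≠ 0 →
    (∀ z : ℂ, (wr (PP (p 0)) (QQ (p 0))).eval z = 0 → ∃ i, c i 0 = z) →
    (∀ i, (wr (PP (p 0)) (QQ (p 0))).rootMultiplicity (c i 0) = m i) →
    (∀ i j, rf (PP (p 0)) (QQ (p 0)) (c i 0) = rf (PP (p 0)) (QQ (p 0)) (c j 0) →
      ∀ᶠ s in 𝓝 (0 : ℂ), rf (PP (p s)) (QQ (p s)) (c i s) = rf (PP (p s)) (QQ (p s)) (c j s)) →
    (∃ u κ : ℂ → ℂ, Dfm (PP (p 0)) (QQ (p 0)) (varS (p 0) v) u κ ∧
      ∀ i, κ (c i 0) = deriv (c i) 0) ∧
    ∀ i (n : ℕ), (∀ j < n, (QQ (p 0)).eval ((rf (PP (p 0)) (QQ (p 0)))^[j] (c i 0)) ≠ 0) →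
      HasDerivAt (fun s => (rf (PP (p s)) (QQ (p s)))^[n] (c i s))
        (spd (PP (p 0)) (QQ (p 0)) (varS (p 0) v) (c i 0) (deriv (c i) 0) n) 0

end Pool.Agent.H207.TF
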