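import Pool.Agent.H207.TF.Stm2

/-!
# Project TF, part 3: the strata are complex manifolds; statements
-/

set_option autoImplicit false

open Metric Set MeasureTheory Filter Topology Polynomial
open scoped OnePoint ENNReal

namespace Pool.Agent.H207.TF

open Pool.Agent.H792R2.CE Pool.Agent.H211.LR Pool.Agent.H211.AD

/-- the first variation of `wr (PP x) (QQ x)` in the direction `v` -/
noncomputable def varW {d : ℕ} (x v : EE d) : ℂ[X] := wr (PP v) (QQ x) + wr (PP x) (QQ v)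

/-- The linearized equation of order `j` for a critical point `e` with speed `κ`. -/
noncomputable def eqW {d : ℕ} (x v : EE d) (e κ : ℂ) (j : ℕ) : ℂ :=
  (hasseDeriv j (varW x v)).eval e +
    ((j : ℂ) + 1) * (hasseDeriv (j + 1) (wr (PP x) (QQ x))).eval e * κ

/-- **Deformations are the solutions of the linearized equations.**

Proof. Let `P = PP x`, `Q = QQ x`, `N = wr P Q`, `S = varS x v = PP v * Q - P * QQ v`, `W = varW x v`,
`T = S - C u * Q ^ 2 + C κ * N` with `u = S(e) / Q(e) ^ 2`. A computation gives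
`Q * W = derivative S * Q - 2 * S * derivative Q + 2 * N * QQ v`, hence
`derivative T * Q - 2 * T * derivative Q = Q * (W + C κ * derivative N) - 2 * N * (QQ v + C κ * derivative Q)`.
`T` vanishes at `e` and `Q(e) ≠ 0`, so for `T ≠ 0`, `T = (X - C e) ^ i * g`, `g(e) ≠ 0`, `i ≥ 1`, the left side has a zero of
order exactly `i - 1` at `e`. As `(X - C e) ^ k ∣ N`, `k` the multiplicity of the root `e` of `N`:
`(X - C e) ^ (k + 1) ∣ T` iff `(X - C e) ^ k ∣` left side iff `(X - C e) ^ k ∣ W + C κ * derivative N`, iff the Taylor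
coefficients `hasseDeriv j` of `W + C κ * derivative N` at `e` vanish for `j < k`; and
`hasseDeriv j (derivative N) = (j + 1) hasseDeriv (j + 1) N`. -/
def S_LIN : Prop :=
  ∀ (d : ℕ) (x v : EE d) (e κ : ℂ), wr (PP x) (QQ x) ≠ 0 → (wr (PP x) (QQ x)).eval e = 0 →
    (QQ x).eval e ≠ 0 →
    ((X - C e) ^ ((wr (PP x) (QQ x)).rootMultiplicity e + 1) ∣
        varS x v - C ((varS x v).eval e / (QQ x).eval e ^ 2) * (QQ x) ^ 2 +
          C κ * wr (PP x) (QQ x)) ↔
      ∀ j < (wr (PP x) (QQ x)).rootMultiplicity e, eqW x v e κ j = 0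

/-- **The linearized equations can be solved.**

Proof. Let `P = PP x`, `Q = QQ x`, `N = wr P Q`, of degree `2 d - 2`. First choose a polynomial `S`, degree `≤ 2 d - 3`
(or any degree `≤ 2 d`; there are `∑ m i = 2 d - 2` conditions and the polynomials `(X - C (e i)) ^ (m i)` are
pairwise coprime, Chinese remainder theorem and reduction modulo `N`), such that for each `i`, modulo
`(X - C (e i)) ^ (m i)`, `S` is congruent to `Q ^ 2 * Z i`, where the polynomial `Z i` satisfies `Z i (e i) = b i` and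
`Q ^ 2 * derivative (Z i)` has the Taylor coefficients `a i j`, `j < m i - 1`, at `e i` (`derivative (Z i)` is congruent
to `A * (inverse of Q ^ 2)`, take an antiderivative). By Bezout (`D9_bezout` in
`Pool/Graph/R_seed8/H792R2/CE/D9.lean`, and `PQ_surj` in `Pool/Agent/H211/LR/Dirs.lean`) there is `v` with `varS x v = S`.
From `Q * W = derivative S * Q - 2 * S * derivative Q + 2 * N * QQ v` (`W = varW x v`) and `S ≡ Q ^ 2 Z i`, modulo
`(X - C (e i)) ^ (m i - 1)`: `Q * W ≡ Q ^ 3 * derivative (Z i)`, so `W` has the Taylor coefficients `a i j`, `j < m i - 1`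
at `e i`, while `hasseDeriv (j + 1) N` vanishes at `e i` for `j + 1 < m i`; so `eqW = a i j` for `j < m i - 1`
(any `κ i`). For `j = m i - 1` choose `κ i`, as `hasseDeriv (m i) N` does not vanish at `e i`. -/
def S_SOLVE : Prop :=
  ∀ (d : ℕ), 2 ≤ d → ∀ x : EE d, IsCoprime (PP x) (QQ x) → (QQ x).natDegree = d →
    wr (PP x) (QQ x) ≠ 0 → (wr (PP x) (QQ x)).natDegree = 2 * d - 2 →
    ∀ (r : ℕ) (e : Fin r → ℂ), Function.Injective e →
    (∀ i, (wr (PP x) (QQ x)).eval (e i) = 0) → (∀ i, (QQ x).eval (e i) ≠ 0) →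
    (∀ z, (wr (PP x) (QQ x)).eval z = 0 → ∃ i, e i = z) →
    ∀ (a : Fin r → ℕ → ℂ) (b : Fin r → ℂ), ∃ (v : EE d) (κ : Fin r → ℂ),
      (∀ i, ∀ j < (wr (PP x) (QQ x)).rootMultiplicity (e i), eqW x v (e i) (κ i) j = a i j) ∧
      ∀ i, (varS x v).eval (e i) / (QQ x).eval (e i) ^ 2 = b i

/-- **Implicit function theorem** (submersions, holomorphic parametrization of the zero set).

Proof. Let `L = fderiv ℂ F y₀`, `K = ker L` (`finrank K + finrank Z = finrank Y`, so `K` has a basis indexed by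
`Fin n`), `π : Y →L[ℂ] K` a projection onto `K`. The derivative of `Θ y = (F y, π (y - y₀))` at `y₀` is
bijective. `ContDiffAt.toOpenPartialHomeomorph` gives a local inverse, which is `ContDiffAt ℂ 1` at all the points
near `Θ y₀ = 0` (`OpenPartialHomeomorph.contDiffAt_symm`, or `ContDiffAt.to_localInverse`, and
`ContDiffAt.eventually`), so differentiable in a neighbourhood. Put `ψ t = Θ⁻¹ (0, basis t)`. Its derivative at `0` is
`t ↦ basis t ∈ K`. -/
def S_IFT : Prop :=
  ∀ (Y Z : Type) [NormedAddCommGroup Y] [NormedSpace ℂ Y] [FiniteDimensional ℂ Y]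
    [NormedAddCommGroup Z] [NormedSpace ℂ Z] [FiniteDimensional ℂ Z] (F : Y → Z) (y₀ : Y),
    ContDiffAt ℂ 1 F y₀ → F y₀ = 0 → (Function.Surjective (fderiv ℂ F y₀)) →
    ∃ (n : ℕ) (ψ : (Fin n → ℂ) → Y) (U : Set (Fin n → ℂ)), n + Module.finrank ℂ Z =
        Module.finrank ℂ Y ∧ IsOpen U ∧ 0 ∈ U ∧ DifferentiableOn ℂ ψ U ∧ ψ 0 = y₀ ∧
      Set.InjOn ψ U ∧ (∀ t ∈ U, F (ψ t) = 0) ∧ Function.Injective (fderiv ℂ ψ 0) ∧
      (∀ y : Y, fderiv ℂ F y₀ y = 0 → ∃ t, fderiv ℂ ψ 0 t = y) ∧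
      ∃ ε > (0 : ℝ), ∀ y, ‖y - y₀‖ < ε → F y = 0 → ∃ t ∈ U, ψ t = y

/-- **Derivatives of the orbit maps.**

Proof. Smoothness: induction on `n` with `PP_cd`, `QQ_cd` (see `fn_contDiffAt` in `Pool/Agent/H211/LR/Stab.lean`). The
derivative: restrict to the line `s ↦ (x + s • v, z + s * w)`; the quotient rule and induction on `n` (see
`Pool/Agent/H784/TF207/TANR.lean` for the same computation). -/
def S_ORBD : Prop :=
  ∀ (d : ℕ) (x : EE d) (z : ℂ) (n : ℕ),
    (∀ j < n, (QQ x).eval ((rf (PP x) (QQ x))^[j] z) ≠ 0) →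
    ContDiffAt ℂ 1 (fun p : EE d × ℂ => (rf (PP p.1) (QQ p.1))^[n] p.2) (x, z) ∧
    ∀ (v : EE d) (w : ℂ),
      fderiv ℂ (fun p : EE d × ℂ => (rf (PP p.1) (QQ p.1))^[n] p.2) (x, z) (v, w) =
        spd (PP x) (QQ x) (varS x v) z w n

/-- **Derivatives of the Taylor coefficients of the Wronskian.**

Proof. The map is polynomial in the coefficients and `z`; `hasseDeriv j` is linear, `wr` bilinear,
and `d/dz (hasseDeriv j N)(z) = (j + 1) (hasseDeriv (j + 1) N)(z)`. -/
def S_WRD : Prop :=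
  ∀ (d : ℕ) (x : EE d) (z : ℂ) (j : ℕ),
    ContDiffAt ℂ 1 (fun p : EE d × ℂ => (hasseDeriv j (wr (PP p.1) (QQ p.1))).eval p.2) (x, z) ∧
    ∀ (v : EE d) (w : ℂ),
      fderiv ℂ (fun p : EE d × ℂ => (hasseDeriv j (wr (PP p.1) (QQ p.1))).eval p.2) (x, z)
        (v, w) = eqW x v z w j

end Pool.Agent.H207.TF
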