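import Pool.Agent.H207.TF.Core
import Pool.Agent.H211.LR.Final

/-! Project TF: growth of the derivatives and scales, for weakly expanding maps. -/

set_option autoImplicit false

open Metric Set MeasureTheory Filter Topology Polynomial
open scoped OnePoint ENNReal

namespace Pool.Agent.H207.TF

open Pool.Agent.Helper114.Herman
open Pool.Agent.H792R2.CE Pool.Agent.H792R2
open Pool.Agent.H211.LR Pool.Agent.H211.AD
open Pool.Agent.H792R2.Rt (orbit_diffAt)

/-- Cauchy estimate for the leading coefficient (copied from `growth_loc`, `H792R2.Rat.Grow`) -/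
theorem coef_bound {E : ℂ → ℂ} {κ : ℂ} {D : ℕ} {r B : ℝ} (hr : 0 < r)
    (hEd : ∀ a, ‖a‖ ≤ r → DifferentiableAt ℂ E a)
    (hElim : Tendsto (fun a => E a / a ^ D) (𝓝[≠] 0) (𝓝 κ))
    (hB : ∀ a, ‖a‖ = r → ‖E a‖ ≤ B) : ‖κ‖ * r ^ D ≤ B := by
  set Q : ℂ → ℂ := Function.update (fun a => E a / a ^ D) 0 κ with hQ
  have hQne : ∀ a, a ≠ 0 → Q a = E a / a ^ D := fun a ha => Function.update_of_ne ha _ _
  have hQ0 : Q 0 = κ := Function.update_self _ _ _
  have hQc : ContinuousAt Q 0 := by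
    rw [hQ, continuousAt_update_same]
    exact hElim
  have hQd0 : ∀ a, a ≠ 0 → DifferentiableAt ℂ E a → DifferentiableAt ℂ Q a := by
    intro a ha hd
    have h1 : (fun a => E a / a ^ D) =ᶠ[𝓝 a] Q := by
      filter_upwards [isOpen_ne.mem_nhds ha] with t ht
      exact (hQne t ht).symm
    refine DifferentiableAt.congr_of_eventuallyEq ?_ h1.symm
    exact hd.div (by fun_prop) (pow_ne_zero _ ha)
  have hQd : ∀ a, ‖a‖ ≤ r → DifferentiableAt ℂ Q a := by
    intro a har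
    by_cases ha : a = 0
    · subst ha
      refine (Complex.analyticAt_of_differentiable_on_punctured_nhds_of_continuousAt ?_
        hQc).differentiableAt
      have h2 : ball (0 : ℂ) r ∈ 𝓝 (0 : ℂ) := ball_mem_nhds _ hr
      filter_upwards [self_mem_nhdsWithin, nhdsWithin_le_nhds h2] with z hz hz2
      rw [mem_ball_zero_iff] at hz2
      exact hQd0 z hz (hEd z hz2.le)
    · exact hQd0 a ha (hEd a har)
  have hmax : ‖Q 0‖ ≤ B / r ^ D := by
    refine Complex.norm_le_of_forall_mem_frontier_norm_le (U := ball (0 : ℂ) r)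
      isBounded_ball ⟨?_, ?_⟩ ?_ (subset_closure (mem_ball_self hr))
    · intro z hz
      rw [mem_ball_zero_iff] at hz
      exact (hQd z hz.le).differentiableWithinAt
    · intro z hz
      rw [closure_ball _ hr.ne', mem_closedBall_zero_iff] at hz
      exact (hQd z hz).continuousAt.continuousWithinAt
    · intro z hz
      rw [frontier_ball _ hr.ne'] at hz
      have hzn : ‖z‖ = r := by simpa using hz
      have hz0 : z ≠ 0 := by
        rintro rfl
        rw [norm_zero] at hzn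
        exact hr.ne hzn
      rw [hQne z hz0, norm_div, norm_pow, hzn]
      exact div_le_div_of_nonneg_right (hB z hzn) (by positivity)
  rwa [hQ0, le_div_iff₀ (by positivity)] at hmax

section
variable {F : ℂ → ℂ → ℂ} {A : ℂ → ℂ → Prop} {f : ℂ → ℂ} {K : Set ℂ} {q : ℕ} {ρ₁ δ₁ C₁ : ℝ}
  {c : ℂ} {ζ h : ℂ → ℂ} {C₃ : ℝ} {L : ℂ}

theorem iter_differentiable (hK : ∀ j, f^[j] c ∈ K) (hfd : ∀ z ∈ K, DifferentiableAt ℂ f z)
    (m : ℕ) : DifferentiableAt ℂ (f^[m]) (f c) := by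
  induction m with
  | zero => exact differentiableAt_id
  | succ m ih =>
    rw [Function.iterate_succ']
    refine DifferentiableAt.comp (f c) (hfd _ ?_) ih
    have h1 := hK (m + 1)
    rwa [Function.iterate_succ_apply] at h1

theorem deriv_iter_succ (hK : ∀ j, f^[j] c ∈ K) (hfd : ∀ z ∈ K, DifferentiableAt ℂ f z)
    (m : ℕ) : deriv (f^[m + 1]) (f c) = deriv f (f^[m + 1] c) * deriv (f^[m]) (f c) := by
  have h1 := hK (m + 1)
  have e : f^[m + 1] c = f^[m] (f c) := Function.iterate_succ_apply f m c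
  rw [e] at h1 ⊢
  rw [Function.iterate_succ', deriv_comp (f c) (hfd _ h1) (iter_differentiable hK hfd m)]

/-- the leading coefficient of the perturbed critical orbit -/
theorem orbit_lim (hF : Fam F A f K q ρ₁ δ₁ C₁) (hM : Mk F f K q ρ₁ δ₁ c ζ h C₃ L)
    (hK : ∀ j, f^[j] c ∈ K) (hfd : ∀ z ∈ K, DifferentiableAt ℂ f z)
    (hne : ∀ j, deriv (f^[j]) (f c) ≠ 0) (m : ℕ) :
    Tendsto (fun a => ((F a)^[m + 1] (ζ a) - f^[m + 1] c) / a ^ q) (𝓝[≠] 0)
      (𝓝 (deriv (f^[m]) (f c) * (h c + ∑ i ∈ Finset.range m,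
        h (f^[i] (f c)) / deriv (f^[i + 1]) (f c)))) := by
  have hq0 : q ≠ 0 := by have := hF.q_pos; omega
  have hapow : Tendsto (fun a : ℂ => a ^ q) (𝓝[≠] 0) (𝓝 0) := by
    have h1 : Tendsto (fun a : ℂ => a ^ q) (𝓝 0) (𝓝 (0 ^ q)) := Continuous.tendsto (by fun_prop) 0
    rw [zero_pow hq0] at h1
    exact h1.mono_left nhdsWithin_le_nhds
  have hid : Tendsto (fun a : ℂ => C₃ * ‖a‖) (𝓝[≠] 0) (𝓝 0) := by
    have h1 : Tendsto (fun a : ℂ => C₃ * ‖a‖) (𝓝 0) (𝓝 (C₃ * ‖(0 : ℂ)‖)) :=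
      Continuous.tendsto (by fun_prop) 0
    rw [norm_zero, mul_zero] at h1
    exact h1.mono_left nhdsWithin_le_nhds
  have hsmall : ∀ᶠ a : ℂ in 𝓝[≠] 0, ‖a‖ < ρ₁ := by
    have h1 : ∀ᶠ a : ℂ in 𝓝 0, ‖a‖ < ρ₁ := by
      filter_upwards [ball_mem_nhds (0 : ℂ) hF.ρ₁_pos] with a ha
      exact mem_ball_zero_iff.1 ha
    exact h1.filter_mono nhdsWithin_le_nhds
  -- dividing the error terms
  have hdiv : ∀ g k : ℂ → ℂ, (∀ᶠ a : ℂ in 𝓝[≠] 0, ‖g a - a ^ q * k a‖ ≤ C₃ * ‖a‖ ^ (q + 1)) →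
      Tendsto (fun a => g a / a ^ q - k a) (𝓝[≠] 0) (𝓝 0) := by
    intro g k hgk
    refine squeeze_zero_norm' ?_ hid
    filter_upwards [hgk, self_mem_nhdsWithin] with a ha ha0
    have ha' : a ≠ 0 := ha0
    have h1 : g a / a ^ q - k a = (g a - a ^ q * k a) / a ^ q := by
      have : a ^ q ≠ 0 := pow_ne_zero _ ha'
      field_simp
    rw [h1, norm_div, norm_pow, div_le_iff₀ (pow_pos (norm_pos_iff.2 ha') _)]
    calc ‖g a - a ^ q * k a‖ ≤ C₃ * ‖a‖ ^ (q + 1) := ha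
      _ = C₃ * ‖a‖ * ‖a‖ ^ q := by rw [pow_succ]; ring
  induction m with
  | zero =>
    have h1 := hdiv (fun a => F a (ζ a) - f c) (fun _ => h c) (by
      filter_upwards [hsmall] with a ha
      exact hM.val a ha)
    have h2 := h1.add_const (h c)
    rw [zero_add] at h2
    simp only [Finset.range_zero, Finset.sum_empty, add_zero, Function.iterate_zero, zero_add,
      Function.iterate_one]
    have h3 : deriv (id : ℂ → ℂ) (f c) = 1 := deriv_id _
    rw [h3, one_mul]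
    refine h2.congr fun a => ?_
    ring
  | succ m ih =>
    obtain ⟨κ, hκ⟩ : ∃ κ, κ = deriv (f^[m]) (f c) * (h c + ∑ i ∈ Finset.range m,
        h (f^[i] (f c)) / deriv (f^[i + 1]) (f c)) := ⟨_, rfl⟩
    rw [← hκ] at ih
    obtain ⟨z, hz⟩ : ∃ z, z = f^[m + 1] c := ⟨_, rfl⟩
    obtain ⟨y, hy⟩ : ∃ y : ℂ → ℂ, y = fun a => (F a)^[m + 1] (ζ a) := ⟨_, rfl⟩
    have hya : ∀ a, (F a)^[m + 1] (ζ a) = y a := fun a => by rw [hy]
    simp only [hya, ← hz] at ih
    have hzK : z ∈ K := by rw [hz]; exact hK _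
    have hyz : Tendsto y (𝓝[≠] 0) (𝓝 z) := by
      have h1 := (ih.mul hapow).add_const z
      rw [mul_zero, zero_add] at h1
      refine h1.congr' ?_
      filter_upwards [self_mem_nhdsWithin] with a ha
      have : a ^ q ≠ 0 := pow_ne_zero _ ha
      field_simp
      ring
    have hyK : ∀ᶠ a in 𝓝[≠] (0 : ℂ), y a ∈ cthickening δ₁ K := by
      have h1 : thickening δ₁ K ∈ 𝓝 z := isOpen_thickening.mem_nhds
        (self_subset_thickening hF.δ₁_pos _ hzK)
      filter_upwards [hyz h1] with a ha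
      exact thickening_subset_cthickening _ _ ha
    have h1 : Tendsto (fun a => (F a (y a) - f (y a)) / a ^ q - h (y a)) (𝓝[≠] 0) (𝓝 0) :=
      hdiv (fun a => F a (y a) - f (y a)) (fun a => h (y a)) (by
        filter_upwards [hsmall, hyK] with a ha ha2
        exact hM.fam a _ ha ha2)
    have h2 : Tendsto (fun a => h (y a)) (𝓝[≠] 0) (𝓝 (h z)) := by
      rw [tendsto_iff_norm_sub_tendsto_zero]
      have h3 : Tendsto (fun a => C₃ * ‖z - y a‖) (𝓝[≠] 0) (𝓝 0) := by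
        have h4 := ((tendsto_const_nhds (x := z)).sub hyz).norm.const_mul C₃
        rwa [sub_self, norm_zero, mul_zero] at h4
      refine squeeze_zero' (Eventually.of_forall fun a => norm_nonneg _) ?_ h3
      filter_upwards [hyK] with a ha
      rw [norm_sub_rev]
      exact hM.lip z hzK _ ha
    have h3 : Tendsto (fun a => (f (y a) - f z) / a ^ q) (𝓝[≠] 0) (𝓝 (deriv f z * κ)) := by
      have h4 : Tendsto (fun a => dslope f z (y a)) (𝓝[≠] 0) (𝓝 (deriv f z)) := by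
        have h5 : ContinuousAt (dslope f z) z := continuousAt_dslope_same.2 (hfd z hzK)
        have h6 := h5.tendsto.comp hyz
        rwa [dslope_same] at h6
      refine (h4.mul ih).congr fun a => ?_
      have h7 := sub_smul_dslope f z (y a)
      rw [smul_eq_mul] at h7
      rw [← h7]
      ring
    have h4 := (h1.add h2).add h3
    have hlim : 0 + h z + deriv f z * κ = deriv (f^[m + 1]) (f c) * (h c +
        ∑ i ∈ Finset.range (m + 1), h (f^[i] (f c)) / deriv (f^[i + 1]) (f c)) := by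
      have hD := hne (m + 1)
      rw [Finset.sum_range_succ, ← add_assoc, mul_add, mul_div_cancel₀ _ hD, zero_add, hκ,
        deriv_iter_succ hK hfd m, ← hz]
      have e1 : f^[m] (f c) = z := by rw [hz, Function.iterate_succ_apply]
      rw [e1]
      ring
    rw [hlim] at h4
    refine h4.congr fun a => ?_
    have e1 : (F a)^[m + 1 + 1] (ζ a) = F a (y a) := by
      rw [hy]
      exact Function.iterate_succ_apply' _ _ _
    have e2 : f^[m + 1 + 1] c = f z := by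
      rw [hz]
      exact Function.iterate_succ_apply' _ _ _
    rw [e1, e2]
    ring

/-- growth of the derivative as long as the perturbed critical orbit stays close -/
theorem mk_growth (hF : Fam F A f K q ρ₁ δ₁ C₁) (hM : Mk F f K q ρ₁ δ₁ c ζ h C₃ L)
    (hK : ∀ j, f^[j] c ∈ K) (hfd : ∀ z ∈ K, DifferentiableAt ℂ f z)
    (hne : ∀ j, deriv (f^[j]) (f c) ≠ 0) {M : ℝ} (hM0 : 0 ≤ M)
    (hMb : ∀ z ∈ cthickening δ₁ K, ‖z‖ ≤ M) :
    ∃ (C₀ : ℝ) (n₀ : ℕ), 0 ≤ C₀ ∧ ∀ (m : ℕ) (r : ℝ), n₀ ≤ m → 0 < r → r < ρ₁ →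
      (∀ j ≤ m + 1, ∀ a, ‖a‖ ≤ r → (F a)^[j] (ζ a) ∈ cthickening δ₁ K) →
      ‖deriv (f^[m]) (f c)‖ * r ^ q ≤ C₀ := by
  have hT0 : 0 < ‖L‖ := norm_pos_iff.2 hM.ne
  have hlim := hM.sum.tendsto_sum_nat.const_add (h c)
  have hev : ∀ᶠ n in atTop, ‖L‖ / 2 < ‖h c + ∑ i ∈ Finset.range n,
      h (f^[i] (f c)) / deriv (f^[i + 1]) (f c)‖ := by
    have e : h c + (L - h c) = L := by ring
    rw [e] at hlim
    exact hlim.norm.eventually (Ioi_mem_nhds (by linarith))
  obtain ⟨n₀, hn₀⟩ := Filter.eventually_atTop.1 hev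
  refine ⟨4 * M / ‖L‖, n₀, by positivity, ?_⟩
  intro m r hm hr hrρ hbd
  have h1 := coef_bound (E := fun a => (F a)^[m + 1] (ζ a) - f^[m + 1] c) (B := 2 * M) hr ?_
    (orbit_lim hF hM hK hfd hne m) ?_
  · rw [norm_mul] at h1
    have h5 := hn₀ m hm
    have h6 : 0 ≤ ‖deriv (f^[m]) (f c)‖ * r ^ q := by positivity
    rw [le_div_iff₀ hT0]
    nlinarith
  · intro a ha
    have hlt : ‖a‖ < ρ₁ := lt_of_le_of_lt ha hrρ
    refine DifferentiableAt.sub_const ?_ _
    exact orbit_diffAt (W := {p : ℂ × ℂ | ‖p.1‖ < ρ₁ ∧ p.2 ∈ cthickening δ₁ K})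
      (fun p hp => hF.smooth p.1 p.2 hp.1 hp.2) (hM.diff a hlt) (m + 1)
      fun i hi => ⟨hlt, hbd i hi.le a ha⟩
  · intro a ha
    refine (norm_sub_le _ _).trans ?_
    have h2 := hMb _ (hbd (m + 1) le_rfl a ha.le)
    have h3 := hMb _ (self_subset_cthickening (δ := δ₁) K (hK (m + 1)))
    linarith

end

end Pool.Agent.H207.TF
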